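import Pool.Agent.Y250.PT.E
set_option autoImplicit false

/-! The phases `t φ` with `φ` smooth. -/

namespace Pool.Agent.Y250.PT

open MeasureTheory Set Complex Filter Topology
open scoped ENNReal NNReal

lemma d1_mul (t : ℝ) (f : ℝ × ℝ → ℝ) : d1 (fun x => t * f x) = fun x => t * d1 f x := by
  ext x
  unfold d1
  exact deriv_const_mul_field t

lemma d2_mul (t : ℝ) (f : ℝ × ℝ → ℝ) : d2 (fun x => t * f x) = fun x => t * d2 f x := by
  ext x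
  unfold d2
  exact deriv_const_mul_field t

lemma it2_mul (t : ℝ) (j : ℕ) : ∀ f : ℝ × ℝ → ℝ, d2^[j] (fun x => t * f x) = fun x => t * d2^[j] f x := by
  induction j with
  | zero => intro f; rfl
  | succ j ih =>
    intro f
    rw [Function.iterate_succ_apply, d2_mul, ih, Function.iterate_succ_apply]

lemma it1_mul (t : ℝ) (i : ℕ) : ∀ f : ℝ × ℝ → ℝ, d1^[i] (fun x => t * f x) = fun x => t * d1^[i] f x := by
  induction i with
  | zero => intro f; rfl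
  | succ j ih =>
    intro f
    rw [Function.iterate_succ_apply, d1_mul, ih, Function.iterate_succ_apply]

lemma J_mul (t : ℝ) (f : ℝ × ℝ → ℝ) (i j : ℕ) : J (fun x => t * f x) i j = fun x => t * J f i j x := by
  unfold J
  rw [it2_mul, it1_mul]

lemma it2_cd (j : ℕ) : ∀ (n : ℕ) (f : ℝ × ℝ → ℝ), ContDiff ℝ (n + j : ℕ) f → ContDiff ℝ n (d2^[j] f) := by
  induction j with
  | zero => intro n f hf; exact hf
  | succ j ih =>
    intro n f hf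
    rw [Function.iterate_succ_apply]
    exact ih n (d2 f) (d2_cd f (n + j) hf)

lemma it1_cd (i : ℕ) : ∀ (n : ℕ) (f : ℝ × ℝ → ℝ), ContDiff ℝ (n + i : ℕ) f → ContDiff ℝ n (d1^[i] f) := by
  induction i with
  | zero => intro n f hf; exact hf
  | succ j ih =>
    intro n f hf
    rw [Function.iterate_succ_apply]
    exact ih n (d1 f) (d1_cd f (n + j) hf)

lemma J_cont (f : ℝ × ℝ → ℝ) (i j : ℕ) (hf : ContDiff ℝ (i + j : ℕ) f) : Continuous (J f i j) := by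
  unfold J
  have h1 := it2_cd j i f hf
  have h2 := it1_cd i 0 (d2^[j] f) (by rw [zero_add]; exact h1)
  exact h2.continuous

lemma Dk_compact : IsCompact Dk := by
  have hcl : IsClosed Dk := isClosed_le (by fun_prop) (by fun_prop)
  suffices hsub : Dk ⊆ Icc (-1 : ℝ) 1 ×ˢ Icc (-1 : ℝ) 1 from
    IsCompact.of_isClosed_subset (isCompact_Icc.prod isCompact_Icc) hcl hsub
  intro x hx
  simp only [Dk, mem_ofPred_eq] at hx
  have h3 := abs_le_one_iff_mul_self_le_one.mpr (by nlinarith [sq_nonneg x.2] : x.1 * x.1 ≤ 1)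
  have h4 := abs_le_one_iff_mul_self_le_one.mpr (by nlinarith [sq_nonneg x.1] : x.2 * x.2 ≤ 1)
  exact ⟨abs_le.mp h3, abs_le.mp h4⟩

lemma J_bdd (f : ℝ × ℝ → ℝ) (k : ℕ) (hf : ContDiff ℝ k f) :
    ∃ M : ℝ≥0, ∀ i j, i + j = k → ∀ x ∈ Dk, |J f i j x| ≤ M := by
  have h1 : ∀ i : ℕ, ∃ B : ℝ, i ≤ k → ∀ x ∈ Dk, |J f i (k - i) x| ≤ B := by
    intro i
    by_cases hi : i ≤ k
    · have hc := J_cont f i (k - i) (by rw [Nat.add_sub_cancel' hi]; exact hf)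
      obtain ⟨B, hB⟩ := Dk_compact.exists_bound_of_continuousOn hc.continuousOn
      exact ⟨B, fun _ x hx => hB x hx⟩
    · exact ⟨0, fun h => absurd h hi⟩
  choose B hB using h1
  refine ⟨(∑ i ∈ Finset.range (k + 1), |B i|).toNNReal, ?_⟩
  intro i j hij x hx
  have h2 := hB i (by omega) x hx
  rw [show k - i = j by omega] at h2
  rw [Real.coe_toNNReal _ (Finset.sum_nonneg fun i _ => abs_nonneg _)]
  refine h2.trans ((le_abs_self _).trans ?_)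
  exact Finset.single_le_sum (f := fun i => |B i|) (fun i _ => abs_nonneg _)
    (Finset.mem_range.mpr (by omega))

/-- **large multiples of a smooth phase** -/
theorem large (q : ℝ) (hq : 3 < q) (φ : ℝ × ℝ → ℝ) (hφ : ∀ n : ℕ, ContDiff ℝ n φ) (ε : ℝ) (hε : 0 < ε) :
    ∃ C : ℝ≥0, ∀ (t : ℝ) (U : Set (ℝ × ℝ)) (g : ℝ × ℝ → ℂ) (V : ℝ≥0), Amp g V →
      (∀ x, x ∉ U → g x = 0) →
      eLpNorm (ext U fun x => cexp (I * ((t * φ x : ℝ) : ℂ)) * g x) (ENNReal.ofReal q) volume ≤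
        C * ((1 + ‖t‖₊) ^ ε * V : ℝ≥0) := by
  obtain ⟨C, hC⟩ := smooth q hq
  obtain ⟨n, hn⟩ := exists_nat_gt (2 / ε)
  set m : ℕ := n + 1 with hm
  have hm0 : (0 : ℝ) < m := by rw [hm]; push_cast; positivity
  have hmε : (2 : ℝ) / m ≤ ε := by
    rw [div_le_iff₀ hm0]
    have h1 : 2 / ε < m := by rw [hm]; push_cast; linarith
    rw [div_lt_iff₀ hε] at h1
    linarith
  obtain ⟨M, hM⟩ := J_bdd φ (m + 1) (hφ (m + 1))
  set A : ℝ≥0 := (M / m.factorial) ^ ((2 : ℝ) / m) with hA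
  refine ⟨C * ((1 + m) ^ 5 * (1 + A)), ?_⟩
  intro t U g V hg hU
  have h1 := hC m (fun x => t * φ x) (‖t‖₊ * M) U g V (by omega)
    (contDiff_const.mul (hφ (m + 1))) (fun i j hij x hx => by
      rw [J_mul, abs_mul, NNReal.coe_mul, coe_nnnorm, Real.norm_eq_abs]
      exact mul_le_mul_of_nonneg_left (hM i j hij x hx) (abs_nonneg _)) hg hU
  refine h1.trans ?_
  have h2 : (1 + m : ℝ≥0) ^ 5 * (1 + (‖t‖₊ * M / m.factorial) ^ ((2 : ℝ) / m)) * V ≤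
      ((1 + m) ^ 5 * (1 + A)) * ((1 + ‖t‖₊) ^ ε * V) := by
    have h3 : (‖t‖₊ * M / m.factorial) ^ ((2 : ℝ) / m) = ‖t‖₊ ^ ((2 : ℝ) / m) * A := by
      rw [mul_div_assoc, NNReal.mul_rpow]
    have h4 : ‖t‖₊ ^ ((2 : ℝ) / m) ≤ (1 + ‖t‖₊) ^ ε := by
      calc ‖t‖₊ ^ ((2 : ℝ) / m) ≤ (1 + ‖t‖₊) ^ ((2 : ℝ) / m) :=
            NNReal.rpow_le_rpow le_add_self (by positivity)
        _ ≤ (1 + ‖t‖₊) ^ ε := NNReal.rpow_le_rpow_of_exponent_le le_self_add hmε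
    have h5 : (1 : ℝ≥0) ≤ (1 + ‖t‖₊) ^ ε := NNReal.one_le_rpow le_self_add hε.le
    rw [h3]
    calc (1 + m : ℝ≥0) ^ 5 * (1 + ‖t‖₊ ^ ((2 : ℝ) / m) * A) * V
        ≤ (1 + m : ℝ≥0) ^ 5 * ((1 + ‖t‖₊) ^ ε + (1 + ‖t‖₊) ^ ε * A) * V := by gcongr
      _ = _ := by ring
  calc (C : ℝ≥0∞) * (((1 + m) ^ 5 * (1 + (‖t‖₊ * M / m.factorial) ^ ((2 : ℝ) / m)) * V : ℝ≥0) : ℝ≥0∞)
      ≤ (C : ℝ≥0∞) * ((((1 + m) ^ 5 * (1 + A)) * ((1 + ‖t‖₊) ^ ε * V) : ℝ≥0) : ℝ≥0∞) := by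
        gcongr
    _ = _ := by
        push_cast
        ring

end Pool.Agent.Y250.PT
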