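import Pool.Agent.Y183.PP.D
set_option autoImplicit false

/-! Taylor polynomials in two variables, with a bound for the gradient of the remainder. -/

namespace Pool.Agent.Y250.PT

open MeasureTheory Set Filter Topology
open Pool.Agent.Y183.PP (Poly ev ev_add ev_sub ev_mul ev_pow ev_C ev_X0 ev_X1 dv dv_apply ev_fderiv
  deg_C deg_mul)

/-- partial derivative in the first variable -/
noncomputable def d1 (f : ℝ × ℝ → ℝ) (x : ℝ × ℝ) : ℝ := deriv (fun s => f (s, x.2)) x.1

/-- partial derivative in the second variable -/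
noncomputable def d2 (f : ℝ × ℝ → ℝ) (x : ℝ × ℝ) : ℝ := deriv (fun s => f (x.1, s)) x.2

lemma has1 (f : ℝ × ℝ → ℝ) (x : ℝ × ℝ) (L : ℝ × ℝ →L[ℝ] ℝ) (h : HasFDerivAt f L x) :
    HasDerivAt (fun s => f (s, x.2)) (L (1, 0)) x.1 := by
  have h1 : HasDerivAt (fun s : ℝ => ((s, x.2) : ℝ × ℝ)) (1, 0) x.1 :=
    (hasDerivAt_id _).prodMk (hasDerivAt_const _ _)
  exact HasFDerivAt.comp_hasDerivAt x.1 h h1

lemma has2 (f : ℝ × ℝ → ℝ) (x : ℝ × ℝ) (L : ℝ × ℝ →L[ℝ] ℝ) (h : HasFDerivAt f L x) :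
    HasDerivAt (fun s => f (x.1, s)) (L (0, 1)) x.2 := by
  have h1 : HasDerivAt (fun s : ℝ => ((x.1, s) : ℝ × ℝ)) (0, 1) x.2 :=
    (hasDerivAt_const _ _).prodMk (hasDerivAt_id _)
  exact HasFDerivAt.comp_hasDerivAt x.2 h h1

lemma d1_eq (f : ℝ × ℝ → ℝ) (h : Differentiable ℝ f) : d1 f = fun x => fderiv ℝ f x (1, 0) := by
  ext x
  exact (has1 f x _ (h x).hasFDerivAt).deriv

lemma d2_eq (f : ℝ × ℝ → ℝ) (h : Differentiable ℝ f) : d2 f = fun x => fderiv ℝ f x (0, 1) := by
  ext x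
  exact (has2 f x _ (h x).hasFDerivAt).deriv

lemma d1_cd (f : ℝ × ℝ → ℝ) (n : ℕ) (h : ContDiff ℝ (n + 1 : ℕ) f) : ContDiff ℝ n (d1 f) := by
  rw [d1_eq f (h.differentiable (by simp))]
  exact (h.fderiv_right (m := n) (by push_cast; exact le_rfl)).clm_apply contDiff_const

lemma d2_cd (f : ℝ × ℝ → ℝ) (n : ℕ) (h : ContDiff ℝ (n + 1 : ℕ) f) : ContDiff ℝ n (d2 f) := by
  rw [d2_eq f (h.differentiable (by simp))]
  exact (h.fderiv_right (m := n) (by push_cast; exact le_rfl)).clm_apply contDiff_const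

lemma d_comm (f : ℝ × ℝ → ℝ) (h : ContDiff ℝ 2 f) : d1 (d2 f) = d2 (d1 f) := by
  have hd : Differentiable ℝ f := h.differentiable (by simp)
  have h1 : ContDiff ℝ 1 (fderiv ℝ f) := h.fderiv_right (m := 1) (by norm_num)
  have h1d : Differentiable ℝ (fderiv ℝ f) := h1.differentiable (by simp)
  have e1 : Differentiable ℝ (d1 f) := by
    rw [d1_eq f hd]
    exact h1d.clm_apply (differentiable_const _)
  have e2 : Differentiable ℝ (d2 f) := by
    rw [d2_eq f hd]
    exact h1d.clm_apply (differentiable_const _)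
  rw [d1_eq _ e2, d2_eq _ e1]
  ext x
  have hs : IsSymmSndFDerivAt ℝ f x := (h.contDiffAt).isSymmSndFDerivAt (by simp)
  rw [d1_eq f hd, d2_eq f hd]
  have a1 : HasFDerivAt (fun y => fderiv ℝ f y (0, 1))
      ((fderiv ℝ (fderiv ℝ f) x).flip (0, 1)) x := by
    have h3 := (h1d x).hasFDerivAt.clm_apply (hasFDerivAt_const ((0, 1) : ℝ × ℝ) x)
    simpa using h3
  have a2 : HasFDerivAt (fun y => fderiv ℝ f y (1, 0))
      ((fderiv ℝ (fderiv ℝ f) x).flip (1, 0)) x := by
    have h3 := (h1d x).hasFDerivAt.clm_apply (hasFDerivAt_const ((1, 0) : ℝ × ℝ) x)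
    simpa using h3
  rw [a1.fderiv, a2.fderiv]
  simp only [ContinuousLinearMap.flip_apply]
  exact hs _ _

/-- iterated partial derivatives -/
noncomputable def J (f : ℝ × ℝ → ℝ) (i j : ℕ) : ℝ × ℝ → ℝ := d1^[i] (d2^[j] f)

lemma it_comm (j : ℕ) : ∀ f : ℝ × ℝ → ℝ, ContDiff ℝ (j + 1 : ℕ) f → d2^[j] (d1 f) = d1 (d2^[j] f) := by
  induction j with
  | zero => intro f _; rfl
  | succ j ih =>
    intro f hf
    rw [Function.iterate_succ_apply, Function.iterate_succ_apply,
      ← d_comm f (hf.of_le (by norm_cast; omega)), ih (d2 f) (d2_cd f (j + 1) hf)]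

lemma J_d1 (f : ℝ × ℝ → ℝ) (i j : ℕ) (hf : ContDiff ℝ (j + 1 : ℕ) f) :
    J (d1 f) i j = J f (i + 1) j := by
  unfold J
  rw [it_comm j f hf, Function.iterate_succ_apply]

lemma J_d2 (f : ℝ × ℝ → ℝ) (i j : ℕ) : J (d2 f) i j = J f i (j + 1) := by
  unfold J
  rw [Function.iterate_succ_apply]

open MvPolynomial in
/-- the Taylor polynomial with coefficients `a` -/
noncomputable def Tay (a : ℕ → ℕ → ℝ) (c : ℝ × ℝ) (n : ℕ) : Poly :=
  ∑ i ∈ Finset.range n, ∑ j ∈ Finset.range (n - i),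
    C (a i j / (i.factorial * j.factorial)) * ((X 0 - C c.1) ^ i * (X 1 - C c.2) ^ j)

open MvPolynomial in
lemma pd0_term (c : ℝ × ℝ) (i j : ℕ) (b : ℝ) :
    pderiv 0 (C b * ((X 0 - C c.1) ^ i * (X 1 - C c.2) ^ j) : Poly) =
      C (b * i) * ((X 0 - C c.1) ^ (i - 1) * (X 1 - C c.2) ^ j) := by
  rw [pderiv_C_mul, Derivation.leibniz, Derivation.leibniz_pow, Derivation.leibniz_pow]
  simp only [map_sub, pderiv_C, pderiv_X_self, pderiv_X_of_ne (show (1 : Fin 2) ≠ 0 by decide),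
    sub_zero, smul_eq_mul, mul_zero, smul_zero, mul_one, nsmul_eq_mul, C_mul, zero_add]
  rw [show (C (i : ℝ) : Poly) = (i : Poly) by simp]
  ring

open MvPolynomial in
lemma pd1_term (c : ℝ × ℝ) (i j : ℕ) (b : ℝ) :
    pderiv 1 (C b * ((X 0 - C c.1) ^ i * (X 1 - C c.2) ^ j) : Poly) =
      C (b * j) * ((X 0 - C c.1) ^ i * (X 1 - C c.2) ^ (j - 1)) := by
  rw [pderiv_C_mul, Derivation.leibniz, Derivation.leibniz_pow, Derivation.leibniz_pow]
  simp only [map_sub, pderiv_C, pderiv_X_self, pderiv_X_of_ne (show (0 : Fin 2) ≠ 1 by decide),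
    sub_zero, smul_eq_mul, mul_zero, smul_zero, mul_one, nsmul_eq_mul, C_mul, add_zero]
  rw [show (C (j : ℝ) : Poly) = (j : Poly) by simp]
  ring

lemma pd0_Tay (a : ℕ → ℕ → ℝ) (c : ℝ × ℝ) (n : ℕ) :
    MvPolynomial.pderiv 0 (Tay a c (n + 1)) = Tay (fun i j => a (i + 1) j) c n := by
  unfold Tay
  rw [map_sum, Finset.sum_range_succ']
  have e0 : MvPolynomial.pderiv (0 : Fin 2) (∑ j ∈ Finset.range (n + 1 - 0),
      MvPolynomial.C (a 0 j / ((0 : ℕ).factorial * j.factorial)) *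
        ((MvPolynomial.X 0 - MvPolynomial.C c.1) ^ 0 * (MvPolynomial.X 1 - MvPolynomial.C c.2) ^ j) : Poly) = 0 := by
    rw [map_sum]
    apply Finset.sum_eq_zero
    intro j _
    rw [pd0_term]
    simp
  rw [e0, add_zero]
  apply Finset.sum_congr rfl
  intro i _
  rw [map_sum, Nat.add_sub_add_right]
  apply Finset.sum_congr rfl
  intro j _
  rw [pd0_term, Nat.add_sub_cancel]
  congr 2
  rw [Nat.factorial_succ]
  have h1 : ((i + 1 : ℕ) : ℝ) ≠ 0 := by positivity
  have h2 : (i.factorial : ℝ) ≠ 0 := by positivity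
  have h3 : (j.factorial : ℝ) ≠ 0 := by positivity
  push_cast at h1 ⊢
  field_simp

lemma pd1_Tay (a : ℕ → ℕ → ℝ) (c : ℝ × ℝ) (n : ℕ) :
    MvPolynomial.pderiv 1 (Tay a c (n + 1)) = Tay (fun i j => a i (j + 1)) c n := by
  unfold Tay
  rw [map_sum, Finset.sum_range_succ]
  have e0 : MvPolynomial.pderiv (1 : Fin 2) (∑ j ∈ Finset.range (n + 1 - n),
      MvPolynomial.C (a n j / (n.factorial * j.factorial)) *
        ((MvPolynomial.X 0 - MvPolynomial.C c.1) ^ n * (MvPolynomial.X 1 - MvPolynomial.C c.2) ^ j) : Poly) = 0 := by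
    rw [Nat.add_sub_cancel_left, Finset.sum_range_one, pd1_term]
    simp
  rw [e0, add_zero]
  apply Finset.sum_congr rfl
  intro i hi
  rw [Finset.mem_range] at hi
  rw [show n + 1 - i = (n - i) + 1 by omega, map_sum, Finset.sum_range_succ', pd1_term,
    Nat.cast_zero, mul_zero, MvPolynomial.C_0, zero_mul, add_zero]
  apply Finset.sum_congr rfl
  intro j _
  rw [pd1_term, Nat.add_sub_cancel]
  congr 2
  rw [Nat.factorial_succ]
  have h1 : ((j + 1 : ℕ) : ℝ) ≠ 0 := by positivity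
  have h2 : (i.factorial : ℝ) ≠ 0 := by positivity
  have h3 : (j.factorial : ℝ) ≠ 0 := by positivity
  push_cast at h1 ⊢
  field_simp

lemma Tay_deg (a : ℕ → ℕ → ℝ) (c : ℝ × ℝ) (n : ℕ) : (Tay a c n).totalDegree ≤ n - 1 := by
  unfold Tay
  refine (MvPolynomial.totalDegree_finsetSum _ _).trans (Finset.sup_le ?_)
  intro i hi
  refine (MvPolynomial.totalDegree_finsetSum _ _).trans (Finset.sup_le ?_)
  intro j hj
  rw [Finset.mem_range] at hi hj
  have h1 : ∀ (k : Fin 2) (b : ℝ), (MvPolynomial.X k - MvPolynomial.C b : Poly).totalDegree ≤ 1 := by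
    intro k b
    refine (MvPolynomial.totalDegree_sub _ _).trans (max_le ?_ ?_)
    · rw [MvPolynomial.totalDegree_X]
    · rw [MvPolynomial.totalDegree_C]; exact Nat.zero_le 1
  have h2 : ∀ (k : Fin 2) (b : ℝ) (m : ℕ),
      ((MvPolynomial.X k - MvPolynomial.C b : Poly) ^ m).totalDegree ≤ m := by
    intro k b m
    refine (MvPolynomial.totalDegree_pow _ _).trans ?_
    calc m * _ ≤ m * 1 := Nat.mul_le_mul_left m (h1 k b)
      _ = m := mul_one m
  refine (deg_mul (deg_C _ 0) (deg_mul (h2 0 c.1 i) (h2 1 c.2 j))).trans ?_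
  omega

lemma Tay_ctr (a : ℕ → ℕ → ℝ) (c : ℝ × ℝ) (n : ℕ) : ev (Tay a c (n + 1)) c = a 0 0 := by
  have hsum : ∀ (s : Finset ℕ) (F : ℕ → Poly), ev (∑ i ∈ s, F i) c = ∑ i ∈ s, ev (F i) c := by
    intro s F
    unfold Pool.Agent.Y183.PP.ev
    exact map_sum _ _ _
  unfold Tay
  rw [hsum, Finset.sum_eq_single 0]
  · rw [hsum, Finset.sum_eq_single 0]
    · simp only [ev_mul, ev_pow, ev_sub, ev_C, ev_X0, ev_X1]
      simp
    · intro j _ hj
      simp only [ev_mul, ev_pow, ev_sub, ev_C, ev_X0, ev_X1]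
      simp [hj]
    · intro h
      simp at h
  · intro i _ hi
    rw [hsum]
    apply Finset.sum_eq_zero
    intro j _
    simp only [ev_mul, ev_pow, ev_sub, ev_C, ev_X0, ev_X1]
    simp [hi]
  · intro h
    simp at h

lemma pd0_J (f : ℝ × ℝ → ℝ) (c : ℝ × ℝ) (n : ℕ) (hf : ContDiff ℝ (n + 1 : ℕ) f) :
    MvPolynomial.pderiv 0 (Tay (fun i j => J f i j c) c (n + 1)) =
      Tay (fun i j => J (d1 f) i j c) c n := by
  rw [pd0_Tay]
  unfold Tay
  apply Finset.sum_congr rfl
  intro i hi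
  apply Finset.sum_congr rfl
  intro j hj
  rw [Finset.mem_range] at hi hj
  have h := J_d1 f i j (hf.of_le (by norm_cast; omega))
  simp only [h]

lemma pd1_J (f : ℝ × ℝ → ℝ) (c : ℝ × ℝ) (n : ℕ) :
    MvPolynomial.pderiv 1 (Tay (fun i j => J f i j c) c (n + 1)) =
      Tay (fun i j => J (d2 f) i j c) c n := by
  rw [pd1_Tay]
  simp only [J_d2]

/-- **Taylor's formula** -/
theorem tay (K : Set (ℝ × ℝ)) (hK : Convex ℝ K) (c : ℝ × ℝ) (hc : c ∈ K) (M : ℝ) (n : ℕ) :
    ∀ f : ℝ × ℝ → ℝ, ContDiff ℝ n f → (∀ i j, i + j = n → ∀ x ∈ K, |J f i j x| ≤ M) →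
      ∀ x ∈ K, |f x - ev (Tay (fun i j => J f i j c) c n) x| ≤
        M * (|x.1 - c.1| + |x.2 - c.2|) ^ n / n.factorial := by
  have hM : ∀ f : ℝ × ℝ → ℝ, (∀ i j, i + j = n → ∀ x ∈ K, |J f i j x| ≤ M) → 0 ≤ M := fun f h =>
    (abs_nonneg _).trans (h n 0 (by simp) c hc)
  induction n with
  | zero =>
    intro f _ h x hx
    have h1 := h 0 0 rfl x hx
    have e : ev (Tay (fun i j => J f i j c) c 0) x = 0 := by
      unfold Tay
      simp [Pool.Agent.Y183.PP.ev]
    rw [e, sub_zero]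
    simp only [pow_zero, mul_one, Nat.factorial_zero, Nat.cast_one, div_one]
    exact h1
  | succ n ih =>
    intro f hf h x hx
    have hM0 := hM f h
    have hfd : Differentiable ℝ f := hf.differentiable (by simp)
    set T := Tay (fun i j => J f i j c) c (n + 1) with hT
    set w : ℝ := |x.1 - c.1| + |x.2 - c.2| with hw
    have hw0 : 0 ≤ w := by positivity
    have ihM : ∀ g : ℝ × ℝ → ℝ, (∀ i j, i + j = n → ∀ x ∈ K, |J g i j x| ≤ M) → 0 ≤ M :=
      fun _ _ => hM0
    have g1 := ih ihM (d1 f) (d1_cd f n hf) (fun i j hij y hy => by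
      rw [J_d1 f i j (hf.of_le (by norm_cast; omega))]
      exact h (i + 1) j (by omega) y hy)
    have g2 := ih ihM (d2 f) (d2_cd f n hf) (fun i j hij y hy => by
      rw [J_d2 f i j]
      exact h i (j + 1) (by omega) y hy)
    have t1 : MvPolynomial.pderiv 0 T = Tay (fun i j => J (d1 f) i j c) c n := pd0_J f c n hf
    have t2 : MvPolynomial.pderiv 1 T = Tay (fun i j => J (d2 f) i j c) c n := pd1_J f c n
    -- the segment
    set v : ℝ × ℝ := x - c with hv
    have hseg : ∀ s ∈ Icc (0 : ℝ) 1, c + s • v ∈ K := by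
      intro s hs
      have := hK hc hx (sub_nonneg.mpr hs.2) hs.1 (by ring)
      convert this using 1
      rw [hv, smul_sub, sub_smul, one_smul]
      abel
    set u : ℝ → ℝ := fun s => f (c + s • v) - ev T (c + s • v) with hu
    set u' : ℝ → ℝ := fun s => (d1 f (c + s • v) - ev (MvPolynomial.pderiv 0 T) (c + s • v)) * v.1 +
      (d2 f (c + s • v) - ev (MvPolynomial.pderiv 1 T) (c + s • v)) * v.2 with hu'
    have hder : ∀ s, HasDerivAt u (u' s) s := by
      intro s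
      have p1 : HasDerivAt (fun s : ℝ => c + s • v) v s := by
        have := ((hasDerivAt_id s).smul_const v).const_add c
        simpa using this
      have p2 := HasFDerivAt.comp_hasDerivAt s (hfd (c + s • v)).hasFDerivAt p1
      have p3 := HasFDerivAt.comp_hasDerivAt s (ev_fderiv T (c + s • v)) p1
      have p4 := p2.sub p3
      have e3 : ∀ L : ℝ × ℝ →L[ℝ] ℝ, L v = v.1 * L (1, 0) + v.2 * L (0, 1) := by
        intro L
        have e2 : v = v.1 • ((1, 0) : ℝ × ℝ) + v.2 • ((0, 1) : ℝ × ℝ) := by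
          ext <;> simp
        conv_lhs => rw [e2]
        rw [map_add, map_smul, map_smul, smul_eq_mul, smul_eq_mul]
      have e : fderiv ℝ f (c + s • v) v - dv T (c + s • v) v = u' s := by
        rw [dv_apply, e3 (fderiv ℝ f (c + s • v))]
        simp only [hu', d1_eq f hfd, d2_eq f hfd]
        ring
      rw [e] at p4
      exact p4
    have hfac : ((n + 1).factorial : ℝ) = (n + 1) * n.factorial := by
      rw [Nat.factorial_succ]
      push_cast
      ring
    have hbd : ∀ s ∈ Ico (0 : ℝ) 1, ‖u' s‖ ≤ M * w ^ (n + 1) * s ^ n / n.factorial := by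
      intro s hs
      have hs' : s ∈ Icc (0 : ℝ) 1 := ⟨hs.1, hs.2.le⟩
      have b1 := g1 _ (hseg s hs')
      have b2 := g2 _ (hseg s hs')
      rw [← t1] at b1
      rw [← t2] at b2
      have e1 : |(c + s • v).1 - c.1| + |(c + s • v).2 - c.2| = s * w := by
        simp only [Prod.fst_add, Prod.smul_fst, Prod.snd_add, Prod.smul_snd, smul_eq_mul,
          add_sub_cancel_left, abs_mul, abs_of_nonneg hs.1, hv, Prod.fst_sub, Prod.snd_sub, hw]
        ring
      rw [e1] at b1 b2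
      rw [Real.norm_eq_abs]
      simp only [hu']
      calc _ ≤ |(d1 f (c + s • v) - ev (MvPolynomial.pderiv 0 T) (c + s • v))| * |v.1| +
            |(d2 f (c + s • v) - ev (MvPolynomial.pderiv 1 T) (c + s • v))| * |v.2| := by
            rw [← abs_mul, ← abs_mul]
            exact abs_add_le _ _
        _ ≤ (M * (s * w) ^ n / n.factorial) * |v.1| + (M * (s * w) ^ n / n.factorial) * |v.2| := by
            gcongr
        _ = (M * (s * w) ^ n / n.factorial) * w := by
            simp only [hw, hv, Prod.fst_sub, Prod.snd_sub]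
            ring
        _ = _ := by
            rw [mul_pow, pow_succ]
            ring
    have hB : ∀ s : ℝ, HasDerivAt (fun s : ℝ => M * w ^ (n + 1) * s ^ (n + 1) / (n + 1).factorial)
        (M * w ^ (n + 1) * s ^ n / n.factorial) s := by
      intro s
      have h4 := ((hasDerivAt_pow (n + 1) s).const_mul (M * w ^ (n + 1))).div_const ((n + 1).factorial : ℝ)
      have e : M * w ^ (n + 1) * (((n + 1 : ℕ) : ℝ) * s ^ (n + 1 - 1)) / ((n + 1).factorial : ℝ) =
          M * w ^ (n + 1) * s ^ n / n.factorial := by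
        rw [hfac]
        have h2 : (n.factorial : ℝ) ≠ 0 := by positivity
        have h3 : (n + 1 : ℝ) ≠ 0 := by positivity
        push_cast
        field_simp
      rw [e] at h4
      exact h4
    have h0 : ‖u 0‖ ≤ (fun s : ℝ => M * w ^ (n + 1) * s ^ (n + 1) / (n + 1).factorial) 0 := by
      simp only [hu, zero_smul, add_zero]
      rw [hT, Tay_ctr]
      simp [J]
    have hfin := image_norm_le_of_norm_deriv_right_le_deriv_boundary (f := u) (f' := u') (a := 0) (b := 1)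
      (fun s _ => (hder s).continuousAt.continuousWithinAt)
      (fun s _ => (hder s).hasDerivWithinAt) h0 hB hbd (x := 1) ⟨zero_le_one, le_rfl⟩
    simp only [hu, one_smul, one_pow, mul_one, Real.norm_eq_abs] at hfin
    have ex : c + v = x := by rw [hv]; abel
    rw [ex] at hfin
    exact hfin

/-- the gradient of the remainder -/
theorem tay_grad (K : Set (ℝ × ℝ)) (hK : Convex ℝ K) (c : ℝ × ℝ) (hc : c ∈ K) (M : ℝ) (n : ℕ)
    (f : ℝ × ℝ → ℝ) (hf : ContDiff ℝ (n + 1 : ℕ) f)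
    (h : ∀ i j, i + j = n + 1 → ∀ x ∈ K, |J f i j x| ≤ M) :
    ∃ T : Poly, T.totalDegree ≤ n ∧ ∀ x ∈ K,
      |d1 f x - ev (MvPolynomial.pderiv 0 T) x| ≤
        M * (|x.1 - c.1| + |x.2 - c.2|) ^ n / n.factorial ∧
      |d2 f x - ev (MvPolynomial.pderiv 1 T) x| ≤
        M * (|x.1 - c.1| + |x.2 - c.2|) ^ n / n.factorial := by
  refine ⟨Tay (fun i j => J f i j c) c (n + 1), ?_, ?_⟩
  · exact (Tay_deg _ _ _).trans (by omega)
  · intro x hx
    have g1 := tay K hK c hc M n (d1 f) (d1_cd f n hf) (fun i j hij y hy => by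
      rw [J_d1 f i j (hf.of_le (by norm_cast; omega))]
      exact h (i + 1) j (by omega) y hy) x hx
    have g2 := tay K hK c hc M n (d2 f) (d2_cd f n hf) (fun i j hij y hy => by
      rw [J_d2 f i j]
      exact h i (j + 1) (by omega) y hy) x hx
    rw [pd0_J f c n hf, pd1_J f c n]
    exact ⟨g1, g2⟩

end Pool.Agent.Y250.PT
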