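import Mathlib
set_option autoImplicit false

/-! Variation on a line of an amplitude times a slowly varying factor cut off to an interval. -/

namespace Pool.Agent.Y250.PT

open MeasureTheory Set Complex Filter Topology
open scoped ENNReal NNReal

/-- variation of a product -/
lemma var_mul (u v : ℝ → ℂ) (A B : ℝ≥0) (hu : ∀ x, ‖u x‖ ≤ A) (hv : ∀ x, ‖v x‖ ≤ B) :
    eVariationOn (fun x => u x * v x) univ ≤ B * eVariationOn u univ + A * eVariationOn v univ := by
  have hA : (0 : ℝ) ≤ A := A.2
  have hB : (0 : ℝ) ≤ B := B.2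
  have key : ∀ (n : ℕ) (s : ℕ → ℝ), Monotone s → (∀ i, s i ∈ (univ : Set ℝ)) →
      ∑ i ∈ Finset.range n, edist (u (s (i + 1)) * v (s (i + 1))) (u (s i) * v (s i)) ≤
        B * eVariationOn u univ + A * eVariationOn v univ := by
    intro n s hs hs'
    have h1 : ∀ i, edist (u (s (i + 1)) * v (s (i + 1))) (u (s i) * v (s i)) ≤
        B * edist (u (s (i + 1))) (u (s i)) + A * edist (v (s (i + 1))) (v (s i)) := by
      intro i
      rw [edist_dist, edist_dist, edist_dist, dist_eq_norm, dist_eq_norm, dist_eq_norm,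
        ← ENNReal.ofReal_coe_nnreal, ← ENNReal.ofReal_coe_nnreal, ← ENNReal.ofReal_mul hA,
        ← ENNReal.ofReal_mul hB, ← ENNReal.ofReal_add (mul_nonneg hB (norm_nonneg _))
        (mul_nonneg hA (norm_nonneg _))]
      apply ENNReal.ofReal_le_ofReal
      have e : u (s (i + 1)) * v (s (i + 1)) - u (s i) * v (s i) =
          (u (s (i + 1)) - u (s i)) * v (s (i + 1)) + u (s i) * (v (s (i + 1)) - v (s i)) := by ring
      rw [e]
      refine (norm_add_le _ _).trans ?_
      rw [norm_mul, norm_mul]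
      have a1 := mul_le_mul_of_nonneg_left (hv (s (i + 1))) (norm_nonneg (u (s (i + 1)) - u (s i)))
      have a2 := mul_le_mul_of_nonneg_right (hu (s i)) (norm_nonneg (v (s (i + 1)) - v (s i)))
      linarith
    calc ∑ i ∈ Finset.range n, edist (u (s (i + 1)) * v (s (i + 1))) (u (s i) * v (s i))
        ≤ ∑ i ∈ Finset.range n,
            (B * edist (u (s (i + 1))) (u (s i)) + A * edist (v (s (i + 1))) (v (s i))) :=
          Finset.sum_le_sum fun i _ => h1 i
      _ = B * ∑ i ∈ Finset.range n, edist (u (s (i + 1))) (u (s i)) +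
            A * ∑ i ∈ Finset.range n, edist (v (s (i + 1))) (v (s i)) := by
          rw [Finset.mul_sum, Finset.mul_sum, Finset.sum_add_distrib]
      _ ≤ _ := by
          gcongr
          · exact eVariationOn.sum_le hs (fun i => hs' i)
          · exact eVariationOn.sum_le hs (fun i => hs' i)
  unfold eVariationOn at key ⊢
  apply iSup_le
  rintro ⟨n, s, hs, hs'⟩
  exact key n s hs hs'

/-- monotone functions -/
lemma mono_var (f : ℝ → ℝ) (hf : Monotone f) (h0 : ∀ x, 0 ≤ f x) (h1 : ∀ x, f x ≤ 1) :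
    eVariationOn f univ ≤ 1 := by
  unfold eVariationOn
  apply iSup_le
  rintro ⟨n, s, hs, hs'⟩
  have h2 : ∀ i, edist (f (s (i + 1))) (f (s i)) = ENNReal.ofReal (f (s (i + 1)) - f (s i)) := by
    intro i
    rw [edist_dist, Real.dist_eq, abs_of_nonneg (sub_nonneg.mpr (hf (hs (Nat.le_succ i))))]
  calc ∑ i ∈ Finset.range n, edist (f (s (i + 1))) (f (s i))
      = ENNReal.ofReal (f (s n) - f (s 0)) := by
        rw [Finset.sum_congr rfl (fun i _ => h2 i), ← ENNReal.ofReal_sum_of_nonneg
          (fun i _ => sub_nonneg.mpr (hf (hs (Nat.le_succ i)))), Finset.sum_range_sub (fun i => f (s i))]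
    _ ≤ 1 := by
        rw [ENNReal.ofReal_le_one]
        linarith [h0 (s 0), h1 (s n)]

lemma lip_var {α β : Type*} [PseudoEMetricSpace α] [PseudoEMetricSpace β] (F : α → β)
    (hF : LipschitzWith 1 F) (f : ℝ → α) : eVariationOn (fun s => F (f s)) univ ≤ eVariationOn f univ := by
  have h := hF.lipschitzOnWith.comp_eVariationOn_le (s := (univ : Set ℝ)) (g := f) (mapsTo_univ _ univ)
  rw [ENNReal.coe_one, one_mul] at h
  exact h

lemma ofReal_lip : LipschitzWith 1 (fun x : ℝ => (x : ℂ)) := Complex.isometry_ofReal.lipschitz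

/-- indicator functions of upper sets -/
lemma up_var (A : Set ℝ) (hA : ∀ x ∈ A, ∀ y, x ≤ y → y ∈ A) :
    eVariationOn (A.indicator fun _ => (1 : ℂ)) univ ≤ 1 := by
  classical
  have h1 := mono_var (A.indicator fun _ => (1 : ℝ)) (by
    intro x y hxy
    by_cases hx : x ∈ A
    · rw [indicator_of_mem hx, indicator_of_mem (hA x hx y hxy)]
    · rw [indicator_of_notMem hx]
      exact indicator_nonneg (fun _ _ => by norm_num) _)
    (fun x => indicator_nonneg (fun _ _ => by norm_num) _)
    (fun x => indicator_le_self' (fun _ _ => by norm_num) x)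
  have h2 := lip_var (fun x : ℝ => (x : ℂ)) ofReal_lip (A.indicator fun _ => (1 : ℝ))
  have e : (fun s => ((A.indicator (fun _ => (1 : ℝ)) s : ℝ) : ℂ)) = A.indicator fun _ => (1 : ℂ) := by
    ext s
    by_cases hs : s ∈ A
    · simp [indicator_of_mem hs]
    · simp [indicator_of_notMem hs]
  rw [e] at h2
  exact h2.trans h1

/-- indicator functions of lower sets -/
lemma low_var (A : Set ℝ) (hA : ∀ x ∈ A, ∀ y, y ≤ x → y ∈ A) :
    eVariationOn (A.indicator fun _ => (1 : ℂ)) univ ≤ 1 := by
  have h1 := up_var Aᶜ (fun x hx y hxy hy => hx (hA y hy x hxy))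
  have hl : LipschitzWith 1 (fun x : ℂ => 1 - x) := by
    apply LipschitzWith.of_dist_le_mul
    intro x y
    rw [NNReal.coe_one, one_mul, dist_eq_norm, dist_eq_norm, ← norm_neg]
    apply le_of_eq
    congr 1
    ring
  have h2 := lip_var (fun x : ℂ => 1 - x) hl (Aᶜ.indicator fun _ => (1 : ℂ))
  have e : (fun s => 1 - Aᶜ.indicator (fun _ => (1 : ℂ)) s) = A.indicator fun _ => (1 : ℂ) := by
    ext s
    by_cases hs : s ∈ A
    · rw [indicator_of_mem hs, indicator_of_notMem (show s ∉ Aᶜ from fun h => h hs)]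
      ring
    · rw [indicator_of_notMem hs, indicator_of_mem (show s ∈ Aᶜ from hs)]
      ring
  rw [e] at h2
  exact h2.trans h1

/-- indicator functions of intervals -/
lemma ind_var (I : Set ℝ) (hI : I.OrdConnected) :
    eVariationOn (I.indicator fun _ => (1 : ℂ)) univ ≤ 2 := by
  set A : Set ℝ := {s | ∃ t ∈ I, s ≤ t} with hA
  set B : Set ℝ := {s | ∃ t ∈ I, t ≤ s} with hB
  have hAB : I = A ∩ B := by
    ext s
    constructor
    · intro h
      exact ⟨⟨s, h, le_rfl⟩, ⟨s, h, le_rfl⟩⟩
    · rintro ⟨⟨t, ht, hst⟩, ⟨r, hr, hrs⟩⟩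
      exact hI.out hr ht ⟨hrs, hst⟩
  have hn : ∀ (S : Set ℝ) (x : ℝ), ‖S.indicator (fun _ => (1 : ℂ)) x‖ ≤ (1 : ℝ≥0) := by
    intro S x
    by_cases hx : x ∈ S
    · simp [indicator_of_mem hx]
    · simp [indicator_of_notMem hx]
  have e : I.indicator (fun _ => (1 : ℂ)) = fun x => A.indicator (fun _ => (1 : ℂ)) x *
      B.indicator (fun _ => (1 : ℂ)) x := by
    ext x
    conv_lhs => rw [hAB]
    by_cases h1 : x ∈ A
    · by_cases h2 : x ∈ B
      · rw [indicator_of_mem (show x ∈ A ∩ B from ⟨h1, h2⟩), indicator_of_mem h1,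
          indicator_of_mem h2, one_mul]
      · rw [indicator_of_notMem (show x ∉ A ∩ B from fun h => h2 h.2), indicator_of_notMem h2,
          mul_zero]
    · rw [indicator_of_notMem (show x ∉ A ∩ B from fun h => h1 h.1), indicator_of_notMem h1,
        zero_mul]
  rw [e]
  refine (var_mul _ _ 1 1 (hn A) (hn B)).trans ?_
  have h1 := low_var A (fun x ⟨t, ht, hxt⟩ y hyx => ⟨t, ht, hyx.trans hxt⟩)
  have h2 := up_var B (fun x ⟨t, ht, hxt⟩ y hyx => ⟨t, ht, hxt.trans hyx⟩)
  rw [ENNReal.coe_one, one_mul, one_mul, ← one_add_one_eq_two]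
  exact add_le_add h1 h2

/-- the circle -/
lemma exp_lip : LipschitzWith 1 (fun r : ℝ => cexp (I * r)) := by
  apply LipschitzWith.of_dist_le_mul
  intro x y
  rw [NNReal.coe_one, one_mul, dist_eq_norm, dist_eq_norm]
  have e : cexp (I * x) - cexp (I * y) = cexp (I * y) * (cexp (I * ((x - y : ℝ) : ℂ)) - 1) := by
    rw [mul_sub, ← Complex.exp_add, mul_one]
    congr 2
    push_cast
    ring
  have h := @Real.norm_exp_I_mul_ofReal_sub_one_le (x - y)
  rw [e, norm_mul, mul_comm I, Complex.norm_exp_ofReal_mul_I, one_mul]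
  exact h

lemma clamp_var (a : ℝ) : eVariationOn (fun s : ℝ => max a (min s (a + 1))) univ ≤ 1 := by
  have h1 := mono_var (fun s : ℝ => max a (min s (a + 1)) - a) (by
    intro x y hxy
    have : max a (min x (a + 1)) ≤ max a (min y (a + 1)) := max_le_max le_rfl (min_le_min hxy le_rfl)
    simp only
    linarith)
    (fun x => by
      have : a ≤ max a (min x (a + 1)) := le_max_left _ _
      linarith)
    (fun x => by
      have : max a (min x (a + 1)) ≤ a + 1 := max_le (by linarith) (min_le_right _ _)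
      linarith)
  have hl : LipschitzWith 1 (fun x : ℝ => x + a) := by
    apply LipschitzWith.of_dist_le_mul
    intro x y
    rw [NNReal.coe_one, one_mul, dist_add_right]
  have h2 := lip_var (fun x : ℝ => x + a) hl (fun s : ℝ => max a (min s (a + 1)) - a)
  simp only [sub_add_cancel] at h2
  exact h2.trans h1

/-- **slowly varying factors on an interval** -/
lemma line_mul (J : Set ℝ) (hJ : J.OrdConnected) (a : ℝ) (hJa : J ⊆ Icc a (a + 1)) (R : ℝ → ℝ)
    (hR : ∀ s ∈ J, ∀ t ∈ J, |R s - R t| ≤ |s - t|) (g : ℝ → ℂ) (V : ℝ≥0) (hg : ∀ s, ‖g s‖ ≤ V)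
    (hgV : eVariationOn g univ ≤ V) :
    eVariationOn (J.indicator fun s => cexp (I * (R s : ℂ)) * g s) univ ≤ 4 * V := by
  have hlip : LipschitzOnWith 1 R J := by
    apply LipschitzOnWith.of_dist_le_mul
    intro x hx y hy
    rw [NNReal.coe_one, one_mul, Real.dist_eq, Real.dist_eq]
    exact hR x hx y hy
  obtain ⟨R', hR', hRR⟩ := hlip.extend_real
  set h : ℝ → ℂ := fun s => cexp (I * (R' (max a (min s (a + 1))) : ℂ)) with hh
  have hh1 : ∀ s, ‖h s‖ ≤ (1 : ℝ≥0) := by
    intro s
    simp only [hh]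
    rw [mul_comm I, Complex.norm_exp_ofReal_mul_I, NNReal.coe_one]
  have hhv : eVariationOn h univ ≤ 1 := by
    have h1 := lip_var (fun s : ℝ => cexp (I * (R' s : ℂ))) (by
      have := exp_lip.comp hR'
      rw [one_mul] at this
      exact this) (fun s : ℝ => max a (min s (a + 1)))
    exact h1.trans (clamp_var a)
  set m : ℝ → ℂ := fun s => J.indicator (fun _ => (1 : ℂ)) s * h s with hm
  have hin : ∀ x, ‖J.indicator (fun _ => (1 : ℂ)) x‖ ≤ (1 : ℝ≥0) := by
    intro x
    by_cases hx : x ∈ J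
    · simp [indicator_of_mem hx]
    · simp [indicator_of_notMem hx]
  have hmv : eVariationOn m univ ≤ 3 := by
    refine (var_mul _ _ 1 1 hin hh1).trans ?_
    rw [ENNReal.coe_one, one_mul, one_mul]
    refine (add_le_add (ind_var J hJ) hhv).trans ?_
    norm_num
  have hm1 : ∀ s, ‖m s‖ ≤ (1 : ℝ≥0) := by
    intro s
    simp only [hm]
    rw [norm_mul]
    have a1 := hin s
    have a2 := hh1 s
    rw [NNReal.coe_one] at *
    calc _ ≤ (1 : ℝ) * 1 := by gcongr
      _ = 1 := one_mul _
  have e : (J.indicator fun s => cexp (I * (R s : ℂ)) * g s) = fun s => m s * g s := by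
    ext s
    by_cases hs : s ∈ J
    · rw [indicator_of_mem hs]
      simp only [hm, hh]
      rw [indicator_of_mem hs, one_mul]
      have h1 := hJa hs
      have h2 : max a (min s (a + 1)) = s := by
        rw [min_eq_left h1.2, max_eq_right h1.1]
      rw [h2, hRR hs]
    · rw [indicator_of_notMem hs]
      simp only [hm]
      rw [indicator_of_notMem hs, zero_mul, zero_mul]
  rw [e]
  refine (var_mul m g 1 V hm1 hg).trans ?_
  calc (V : ℝ≥0∞) * eVariationOn m univ + ((1 : ℝ≥0) : ℝ≥0∞) * eVariationOn g univ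
      ≤ V * 3 + 1 * V := by
        rw [ENNReal.coe_one]
        gcongr
    _ = 4 * V := by ring

end Pool.Agent.Y250.PT
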