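import Pool.Agent.Y250.PT.A
import Pool.Agent.Y250.PT.B
import Pool.Agent.Y250.PT.C
set_option autoImplicit false

/-! Phases with bounded derivatives of some order: localization to small squares. -/

namespace Pool.Agent.Y250.PT

open MeasureTheory Set Complex Filter Topology
open scoped ENNReal NNReal
open Pool.Agent.Y183.PP (Poly ev ev_cont ev_deriv1 ev_fderiv dv_apply)

/-- the disc -/
def Dk : Set (ℝ × ℝ) := {x | x.1 ^ 2 + x.2 ^ 2 ≤ 1 / 4}

lemma Dk_conv : Convex ℝ Dk := by
  intro x hx y hy a b ha hb hab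
  simp only [Dk, mem_ofPred_eq, Prod.fst_add, Prod.smul_fst, Prod.snd_add, Prod.smul_snd,
    smul_eq_mul] at *
  have hb' : b = 1 - a := by linarith
  subst hb'
  have h1 : (a * x.1 + (1 - a) * y.1) ^ 2 ≤ a * x.1 ^ 2 + (1 - a) * y.1 ^ 2 := by
    nlinarith [mul_nonneg (mul_nonneg ha hb) (sq_nonneg (x.1 - y.1))]
  have h2 : (a * x.2 + (1 - a) * y.2) ^ 2 ≤ a * x.2 ^ 2 + (1 - a) * y.2 ^ 2 := by
    nlinarith [mul_nonneg (mul_nonneg ha hb) (sq_nonneg (x.2 - y.2))]
  nlinarith [mul_le_mul_of_nonneg_left hx ha, mul_le_mul_of_nonneg_left hy hb]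

/-- the cells -/
def Qc (N : ℕ) (a b : ℕ) : Set (ℝ × ℝ) :=
  Ico (-(1 / 2) + a / N : ℝ) (-(1 / 2) + (a + 1) / N) ×ˢ Ico (-(1 / 2) + b / N : ℝ) (-(1 / 2) + (b + 1) / N)

lemma Qc_conv (N a b : ℕ) : Convex ℝ (Qc N a b) := (convex_Ico _ _).prod (convex_Ico _ _)

lemma Qc_meas (N a b : ℕ) : MeasurableSet (Qc N a b) := measurableSet_Ico.prod measurableSet_Ico

lemma Dk_meas : MeasurableSet Dk := by
  apply IsClosed.measurableSet
  exact isClosed_le (by fun_prop) (by fun_prop)

lemma slice1 (K : Set (ℝ × ℝ)) (hK : Convex ℝ K) (y : ℝ) : Convex ℝ {s : ℝ | (s, y) ∈ K} := by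
  intro s hs t ht a b ha hb hab
  have h := hK hs ht ha hb hab
  have e : a • ((s, y) : ℝ × ℝ) + b • (t, y) = (a • s + b • t, y) := by
    ext
    · simp
    · simp only [Prod.snd_add, Prod.smul_snd, smul_eq_mul]
      rw [← add_mul, hab, one_mul]
  rw [e] at h
  exact h

lemma slice2 (K : Set (ℝ × ℝ)) (hK : Convex ℝ K) (x : ℝ) : Convex ℝ {s : ℝ | (x, s) ∈ K} := by
  intro s hs t ht a b ha hb hab
  have h := hK hs ht ha hb hab
  have e : a • ((x, s) : ℝ × ℝ) + b • (x, t) = (x, a • s + b • t) := by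
    ext
    · simp only [Prod.fst_add, Prod.smul_fst, smul_eq_mul]
      rw [← add_mul, hab, one_mul]
    · simp
  rw [e] at h
  exact h

/-- derivative of a polynomial in the second variable -/
lemma ev_deriv2 (p : Poly) (x y : ℝ) :
    HasDerivAt (fun y => ev p (x, y)) (ev (MvPolynomial.pderiv 1 p) (x, y)) y := by
  have h := has2 (ev p) (x, y) _ (ev_fderiv p (x, y))
  rw [dv_apply] at h
  simpa using h

/-- the amplitude on a cell -/
lemma cell_amp (g : ℝ × ℝ → ℂ) (V : ℝ≥0) (hg : Amp g V) (K : Set (ℝ × ℝ)) (hK : Convex ℝ K)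
    (hKm : MeasurableSet K) (hKD : K ⊆ Dk) (a b : ℝ) (hKa : K ⊆ Icc a (a + 1) ×ˢ Icc b (b + 1))
    (φ : ℝ × ℝ → ℝ) (hφ : Differentiable ℝ φ) (T : Poly)
    (h1 : ∀ x ∈ K, |d1 φ x - ev (MvPolynomial.pderiv 0 T) x| ≤ 1)
    (h2 : ∀ x ∈ K, |d2 φ x - ev (MvPolynomial.pderiv 1 T) x| ≤ 1) :
    Amp (K.indicator fun x => cexp (I * ((φ x - ev T x : ℝ) : ℂ)) * g x) (4 * V) := by
  have hd1 : ∀ s y, HasDerivAt (fun s => φ (s, y) - ev T (s, y))
      (d1 φ (s, y) - ev (MvPolynomial.pderiv 0 T) (s, y)) s := by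
    intro s y
    have p1 := has1 φ (s, y) _ (hφ (s, y)).hasFDerivAt
    have e : d1 φ (s, y) = fderiv ℝ φ (s, y) (1, 0) := by rw [d1_eq φ hφ]
    rw [e]
    exact p1.sub (ev_deriv1 T s y)
  have hd2 : ∀ x s, HasDerivAt (fun s => φ (x, s) - ev T (x, s))
      (d2 φ (x, s) - ev (MvPolynomial.pderiv 1 T) (x, s)) s := by
    intro x s
    have p1 := has2 φ (x, s) _ (hφ (x, s)).hasFDerivAt
    have e : d2 φ (x, s) = fderiv ℝ φ (x, s) (0, 1) := by rw [d2_eq φ hφ]
    rw [e]
    exact p1.sub (ev_deriv2 T x s)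
  have hc : (((4 * V : ℝ≥0)) : ℝ≥0∞) = 4 * V := by push_cast; rfl
  refine ⟨?_, ?_, ?_, ?_⟩
  · apply Measurable.indicator _ hKm
    apply Measurable.mul _ hg.meas
    apply Continuous.measurable
    have c1 := hφ.continuous
    have c2 := ev_cont T
    fun_prop
  · intro x hx
    rw [indicator_of_notMem]
    intro hc
    have := hKD hc
    simp only [Dk, mem_ofPred_eq] at this
    linarith
  · intro y
    have hs := slice1 K hK y
    have hl := line_mul {s : ℝ | (s, y) ∈ K} hs.ordConnected a (fun s hs => (hKa hs).1)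
      (fun s => φ (s, y) - ev T (s, y)) (by
        intro s hs1 t ht1
        have := hs.norm_image_sub_le_of_norm_hasDerivWithin_le (f := fun s => φ (s, y) - ev T (s, y))
          (f' := fun s => d1 φ (s, y) - ev (MvPolynomial.pderiv 0 T) (s, y)) (C := 1)
          (fun u _ => (hd1 u y).hasDerivWithinAt) (fun u hu => h1 (u, y) hu) ht1 hs1
        rw [one_mul] at this
        exact this)
      (fun s => g (s, y)) V (fun s => hg.bd _) (hg.var.1 y)
    rw [hc]
    exact hl
  · intro x
    have hs := slice2 K hK x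
    have hl := line_mul {s : ℝ | (x, s) ∈ K} hs.ordConnected b (fun s hs => (hKa hs).2)
      (fun s => φ (x, s) - ev T (x, s)) (by
        intro s hs1 t ht1
        have := hs.norm_image_sub_le_of_norm_hasDerivWithin_le (f := fun s => φ (x, s) - ev T (x, s))
          (f' := fun s => d2 φ (x, s) - ev (MvPolynomial.pderiv 1 T) (x, s)) (C := 1)
          (fun u _ => (hd2 x u).hasDerivWithinAt) (fun u hu => h2 (x, u) hu) ht1 hs1
        rw [one_mul] at this
        exact this)
      (fun s => g (x, s)) V (fun s => hg.bd _) (hg.var.2 x)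
    rw [hc]
    exact hl

/-- the cells cover the disc -/
lemma cover (N : ℕ) (hN : 0 < N) (x : ℝ × ℝ) (hx : x ∈ Dk) (F : ℂ) :
    ∑ a ∈ Finset.range (N + 1), ∑ b ∈ Finset.range (N + 1), (Qc N a b).indicator (fun _ => F) x = F := by
  classical
  simp only [Dk, mem_ofPred_eq] at hx
  have hN' : (0 : ℝ) < N := by exact_mod_cast hN
  have key : ∀ u : ℝ, u ^ 2 ≤ 1 / 4 → ∃ a ∈ Finset.range (N + 1), ∀ a' : ℕ,
      (u ∈ Ico (-(1 / 2) + a' / N : ℝ) (-(1 / 2) + (a' + 1) / N) ↔ a' = a) := by
    intro u hu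
    have h1 : -(1 / 2) ≤ u ∧ u ≤ 1 / 2 := by
      rw [← abs_le]
      apply abs_le_of_sq_le_sq _ (by norm_num)
      linarith
    have h2 : 0 ≤ N * (u + 1 / 2) := mul_nonneg hN'.le (by linarith)
    refine ⟨⌊N * (u + 1 / 2)⌋₊, ?_, ?_⟩
    · rw [Finset.mem_range, Nat.lt_succ_iff]
      apply Nat.floor_le_of_le
      nlinarith
    · intro a'
      rw [eq_comm, Nat.floor_eq_iff h2, mem_Ico]
      constructor
      · rintro ⟨h3, h4⟩
        constructor
        · have := (div_le_iff₀ hN').mp (by linarith : (a' : ℝ) / N ≤ u + 1 / 2)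
          linarith
        · have := (lt_div_iff₀ hN').mp (by linarith : u + 1 / 2 < ((a' : ℝ) + 1) / N)
          linarith
      · rintro ⟨h3, h4⟩
        constructor
        · have := (div_le_iff₀ hN').mpr (by linarith : (a' : ℝ) ≤ (u + 1 / 2) * N)
          linarith
        · have := (lt_div_iff₀ hN').mpr (by linarith : (u + 1 / 2) * N < (a' : ℝ) + 1)
          linarith
  obtain ⟨a, ha, ha'⟩ := key x.1 (by nlinarith [sq_nonneg x.2])
  obtain ⟨b, hb, hb'⟩ := key x.2 (by nlinarith [sq_nonneg x.1])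
  rw [Finset.sum_eq_single a, Finset.sum_eq_single b]
  · rw [indicator_of_mem]
    exact ⟨(ha' a).mpr rfl, (hb' b).mpr rfl⟩
  · intro b' _ hne
    rw [indicator_of_notMem]
    intro h
    exact hne ((hb' b').mp h.2)
  · intro h
    exact absurd hb h
  · intro a' _ hne
    apply Finset.sum_eq_zero
    intro b' _
    rw [indicator_of_notMem]
    intro h
    exact hne ((ha' a').mp h.1)
  · intro h
    exact absurd ha h

/-- **phases close to polynomials on small squares** -/
theorem cells (q : ℝ) (hq : 3 < q) : ∃ C : ℝ≥0, ∀ (n N : ℕ) (φ : ℝ × ℝ → ℝ) (M : ℝ)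
    (U : Set (ℝ × ℝ)) (g : ℝ × ℝ → ℂ) (V : ℝ≥0), 0 < N → ContDiff ℝ (n + 1 : ℕ) φ → 0 ≤ M →
      (∀ i j, i + j = n + 1 → ∀ x ∈ Dk, |J φ i j x| ≤ M) → M * (2 / N) ^ n / n.factorial ≤ 1 →
      Amp g V → (∀ x, x ∉ U → g x = 0) →
      eLpNorm (ext U fun x => cexp (I * (φ x : ℂ)) * g x) (ENNReal.ofReal q) volume ≤
        C * (((N + 1) ^ 2 * (1 + n) ^ 5) * V : ℝ≥0) := by
  classical
  obtain ⟨C, hC⟩ := poly q hq
  refine ⟨4 * C, ?_⟩
  intro n N φ M U g V hN hφ hM hJ hNM hg hU
  have hφd : Differentiable ℝ φ := hφ.differentiable (by simp)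
  have hN' : (0 : ℝ) < N := by exact_mod_cast hN
  have hN1 : (1 : ℝ) / N ≤ 1 := by
    rw [div_le_one hN']
    exact_mod_cast hN
  -- one cell
  have hcell : ∀ a b : ℕ, eLpNorm (ext U fun x => (Qc N a b).indicator
      (fun x => cexp (I * (φ x : ℂ)) * g x) x) (ENNReal.ofReal q) volume ≤
        C * ((1 + n) ^ 5 * (4 * V) : ℝ≥0) := by
    intro a b
    set K := Qc N a b ∩ Dk with hKdef
    have hKc : Convex ℝ K := (Qc_conv N a b).inter Dk_conv
    have hKm : MeasurableSet K := (Qc_meas N a b).inter Dk_meas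
    have hout : ∀ x, x ∉ Dk → g x = 0 := by
      intro x hx
      apply hg.supp
      simp only [Dk, mem_ofPred_eq, not_le] at hx
      exact hx
    rcases K.eq_empty_or_nonempty with hKe | ⟨c, hc⟩
    · have e : (ext U fun x => (Qc N a b).indicator (fun x => cexp (I * (φ x : ℂ)) * g x) x) =
          fun _ => 0 := by
        ext ξ
        unfold ext
        rw [← integral_zero (ℝ × ℝ) ℂ (μ := volume.restrict U)]
        apply integral_congr_ae
        refine ae_of_all _ fun x => ?_
        simp only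
        by_cases h : x ∈ Qc N a b
        · rw [indicator_of_mem h]
          by_cases h2 : x ∈ Dk
          · exact absurd (show x ∈ K from ⟨h, h2⟩) (by rw [hKe]; exact notMem_empty x)
          · rw [hout x h2, mul_zero, mul_zero]
        · rw [indicator_of_notMem h, mul_zero]
      rw [e]
      simp
    · obtain ⟨T, hTd, hT⟩ := tay_grad K hKc c hc M n φ hφ (fun i j hij x hx => hJ i j hij x hx.2)
      have hdist : ∀ x ∈ K, |x.1 - c.1| + |x.2 - c.2| ≤ 2 / N := by
        intro x hx
        have a1 := hx.1.1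
        have a2 := hx.1.2
        have a3 := hc.1.1
        have a4 := hc.1.2
        rw [mem_Ico] at a1 a2 a3 a4
        have b1 : |x.1 - c.1| ≤ 1 / N := by
          rw [abs_le]
          have : ((a : ℝ) + 1) / N = a / N + 1 / N := by ring
          constructor <;> linarith
        have b2 : |x.2 - c.2| ≤ 1 / N := by
          rw [abs_le]
          have : ((b : ℝ) + 1) / N = b / N + 1 / N := by ring
          constructor <;> linarith
        calc _ ≤ (1 : ℝ) / N + 1 / N := add_le_add b1 b2
          _ = 2 / N := by ring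
      have hR : ∀ x ∈ K, M * (|x.1 - c.1| + |x.2 - c.2|) ^ n / n.factorial ≤ 1 := by
        intro x hx
        refine le_trans ?_ hNM
        have := hdist x hx
        gcongr
      have hamp := cell_amp g V hg K hKc hKm inter_subset_right (-(1 / 2) + a / N) (-(1 / 2) + b / N)
        (by
          rintro x ⟨⟨hx1, hx2⟩, _⟩
          rw [mem_Ico] at hx1 hx2
          have e1 : ((a : ℝ) + 1) / N = a / N + 1 / N := by ring
          have e2 : ((b : ℝ) + 1) / N = b / N + 1 / N := by ring
          exact ⟨⟨hx1.1, by linarith⟩, ⟨hx2.1, by linarith⟩⟩) φ hφd T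
        (fun x hx => (hT x hx).1.trans (hR x hx)) (fun x hx => (hT x hx).2.trans (hR x hx))
      have h1 := hC n T U _ (4 * V) hTd hamp (fun x hx => by
        rw [indicator_apply]
        split_ifs
        · rw [hU x hx, mul_zero]
        · rfl)
      refine le_trans (le_of_eq ?_) h1
      congr 1
      ext ξ
      unfold ext
      apply integral_congr_ae
      refine ae_of_all _ fun x => ?_
      simp only
      congr 1
      by_cases h : x ∈ Qc N a b
      · rw [indicator_of_mem h]
        by_cases h2 : x ∈ Dk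
        · rw [indicator_of_mem (show x ∈ K from ⟨h, h2⟩), ← mul_assoc, ← Complex.exp_add]
          congr 2
          push_cast
          ring
        · rw [indicator_of_notMem (show x ∉ K from fun h3 => h2 h3.2), hout x h2, mul_zero, mul_zero]
      · rw [indicator_of_notMem h, indicator_of_notMem (show x ∉ K from fun h3 => h h3.1), mul_zero]
  -- the sum
  set f : ℝ × ℝ → ℂ := fun x => cexp (I * (φ x : ℂ)) * g x with hf
  have hfm : Measurable f := by
    apply Measurable.mul _ hg.meas
    apply Continuous.measurable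
    have c1 := hφd.continuous
    fun_prop
  have hfD : ∀ x, x ∉ Dk → f x = 0 := by
    intro x hx
    simp only [hf]
    rw [hg.supp x (by simpa only [Dk, mem_ofPred_eq, not_le] using hx), mul_zero]
  have hint : ∀ (a b : ℕ) (ξ : ℝ × ℝ × ℝ), Integrable (fun x : ℝ × ℝ =>
      cexp (-((x.1 * ξ.1 + x.2 * ξ.2.1 + (x.1 ^ 2 + x.2 ^ 2) * ξ.2.2 : ℝ) : ℂ) * I) *
        (Qc N a b).indicator f x) (volume.restrict U) := by
    intro a b ξ
    have hmeas : Measurable (fun x : ℝ × ℝ =>
      cexp (-((x.1 * ξ.1 + x.2 * ξ.2.1 + (x.1 ^ 2 + x.2 ^ 2) * ξ.2.2 : ℝ) : ℂ) * I) *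
        (Qc N a b).indicator f x) := by
      apply Measurable.mul _ (hfm.indicator (Qc_meas N a b))
      apply Continuous.measurable
      fun_prop
    have hIcc : IntegrableOn (fun x : ℝ × ℝ =>
      cexp (-((x.1 * ξ.1 + x.2 * ξ.2.1 + (x.1 ^ 2 + x.2 ^ 2) * ξ.2.2 : ℝ) : ℂ) * I) *
        (Qc N a b).indicator f x) (Icc (-1 : ℝ) 1 ×ˢ Icc (-1 : ℝ) 1) := by
      apply Measure.integrableOn_of_bounded (M := V)
      · rw [Measure.volume_eq_prod, Measure.prod_prod, Real.volume_Icc]
        exact ENNReal.mul_ne_top ENNReal.ofReal_ne_top ENNReal.ofReal_ne_top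
      · exact hmeas.aestronglyMeasurable
      · refine ae_of_all _ fun x => ?_
        rw [norm_mul, ← Complex.ofReal_neg, Complex.norm_exp_ofReal_mul_I, one_mul]
        by_cases h : x ∈ Qc N a b
        · rw [indicator_of_mem h]
          simp only [hf]
          rw [norm_mul, mul_comm I, Complex.norm_exp_ofReal_mul_I, one_mul]
          exact hg.bd x
        · rw [indicator_of_notMem h, norm_zero]
          exact V.2
    have hfull : Integrable (fun x : ℝ × ℝ =>
      cexp (-((x.1 * ξ.1 + x.2 * ξ.2.1 + (x.1 ^ 2 + x.2 ^ 2) * ξ.2.2 : ℝ) : ℂ) * I) *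
        (Qc N a b).indicator f x) := by
      rw [integrableOn_iff_integrable_of_support_subset] at hIcc
      · exact hIcc
      · intro x hx
        rw [Function.mem_support] at hx
        by_contra hc
        apply hx
        have : f x = 0 := by
          apply hfD
          intro hD
          apply hc
          simp only [Dk, mem_ofPred_eq] at hD
          have h3 := abs_le_one_iff_mul_self_le_one.mpr (by nlinarith [sq_nonneg x.2] : x.1 * x.1 ≤ 1)
          have h4 := abs_le_one_iff_mul_self_le_one.mpr (by nlinarith [sq_nonneg x.1] : x.2 * x.2 ≤ 1)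
          exact ⟨abs_le.mp h3, abs_le.mp h4⟩
        rw [indicator_apply]
        split_ifs
        · rw [this, mul_zero]
        · rw [mul_zero]
    exact hfull.restrict
  have hsum : ext U f = ∑ a ∈ Finset.range (N + 1), ∑ b ∈ Finset.range (N + 1),
      ext U fun x => (Qc N a b).indicator f x := by
    ext ξ
    simp only [Finset.sum_apply]
    unfold ext
    simp_rw [← integral_finsetSum _ (fun b _ => hint _ b ξ)]
    rw [← integral_finsetSum _ (fun a _ => integrable_finsetSum _ (fun b _ => hint a b ξ))]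
    apply integral_congr_ae
    refine ae_of_all _ fun x => ?_
    simp only
    simp_rw [← Finset.mul_sum]
    congr 1
    by_cases h : x ∈ Dk
    · have := cover N hN x h (f x)
      rw [← this]
      apply Finset.sum_congr rfl
      intro a _
      apply Finset.sum_congr rfl
      intro b _
      by_cases h2 : x ∈ Qc N a b
      · rw [indicator_of_mem h2, indicator_of_mem h2]
      · rw [indicator_of_notMem h2, indicator_of_notMem h2]
    · rw [hfD x h]
      symm
      apply Finset.sum_eq_zero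
      intro a _
      apply Finset.sum_eq_zero
      intro b _
      rw [indicator_apply]
      split_ifs
      · exact hfD x h
      · rfl
  rw [hsum]
  have hq1 : 1 ≤ ENNReal.ofReal q := by
    rw [← ENNReal.ofReal_one]
    exact ENNReal.ofReal_le_ofReal (by linarith)
  have hme : ∀ a b : ℕ, AEStronglyMeasurable (ext U fun x => (Qc N a b).indicator f x) volume :=
    fun a b => (ext_meas U _ (hfm.indicator (Qc_meas N a b))).aestronglyMeasurable
  refine (eLpNorm_sum_le (fun a _ => Finset.aestronglyMeasurable_sum _ (fun b _ => hme a b)) hq1).trans ?_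
  calc ∑ a ∈ Finset.range (N + 1), eLpNorm (∑ b ∈ Finset.range (N + 1),
        ext U fun x => (Qc N a b).indicator f x) (ENNReal.ofReal q) volume
      ≤ ∑ a ∈ Finset.range (N + 1), ∑ b ∈ Finset.range (N + 1),
          eLpNorm (ext U fun x => (Qc N a b).indicator f x) (ENNReal.ofReal q) volume :=
        Finset.sum_le_sum fun a _ => eLpNorm_sum_le (fun b _ => hme a b) hq1
    _ ≤ ∑ a ∈ Finset.range (N + 1), ∑ b ∈ Finset.range (N + 1),
          (C * ((1 + n) ^ 5 * (4 * V) : ℝ≥0) : ℝ≥0∞) :=
        Finset.sum_le_sum fun a _ => Finset.sum_le_sum fun b _ => hcell a b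
    _ = _ := by
        rw [Finset.sum_const, Finset.sum_const, Finset.card_range, nsmul_eq_mul, nsmul_eq_mul]
        push_cast
        ring

end Pool.Agent.Y250.PT
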