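import Pool.Agent.Y183.PP.H
set_option autoImplicit false

/-! The estimate for polynomial phases in the coordinates of the extension operator. -/

namespace Pool.Agent.Y250.PT

open MeasureTheory Set Complex Filter Topology
open scoped ENNReal NNReal
open Pool.Agent.Y183.PP (Poly ev SQ Ph ev_Ph ev_cont mixed_exp)

/-- the extension operator in real coordinates -/
noncomputable def ext (U : Set (ℝ × ℝ)) (f : ℝ × ℝ → ℂ) (ξ : ℝ × ℝ × ℝ) : ℂ :=
  ∫ x in U, cexp (-((x.1 * ξ.1 + x.2 * ξ.2.1 + (x.1 ^ 2 + x.2 ^ 2) * ξ.2.2 : ℝ) : ℂ) * I) * f x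

/-- variation at most `V` on horizontal and vertical lines -/
def Var (g : ℝ × ℝ → ℂ) (V : ℝ≥0) : Prop :=
  (∀ y, eVariationOn (fun x => g (x, y)) univ ≤ V) ∧ ∀ x, eVariationOn (fun y => g (x, y)) univ ≤ V

/-- amplitudes -/
structure Amp (g : ℝ × ℝ → ℂ) (V : ℝ≥0) : Prop where
  meas : Measurable g
  supp : ∀ x : ℝ × ℝ, 1 / 4 < x.1 ^ 2 + x.2 ^ 2 → g x = 0
  var : Var g V

lemma Amp.bd {g : ℝ × ℝ → ℂ} {V : ℝ≥0} (h : Amp g V) (z : ℝ × ℝ) : ‖g z‖ ≤ V := by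
  have h1 := h.var.1 z.2
  have h2 := eVariationOn.edist_le (fun x => g (x, z.2)) (mem_univ z.1) (mem_univ (1 : ℝ))
  have h3 : g (1, z.2) = 0 := h.supp _ (by simp only; nlinarith [sq_nonneg z.2])
  simp only [h3] at h2
  have h4 := h2.trans h1
  rw [edist_zero_right] at h4
  rw [← ofReal_norm, ← ENNReal.ofReal_coe_nnreal] at h4
  exact (ENNReal.ofReal_le_ofReal_iff V.2).mp h4

/-- scaling in a space -/
lemma scal (K : ℝ × ℝ × ℝ → ℝ≥0∞) (r : ℝ) (hr : r ≠ 0) :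
    ∫⁻ x : ℝ × ℝ × ℝ, K (r • x) = ENNReal.ofReal |(r ^ 3)⁻¹| * ∫⁻ x, K x := by
  have i1 : (volume : Measure (ℝ × ℝ)).IsAddHaarMeasure := by
    rw [Measure.volume_eq_prod]; infer_instance
  have i2 : (volume : Measure (ℝ × ℝ × ℝ)).IsAddHaarMeasure := by
    rw [Measure.volume_eq_prod]; infer_instance
  have h := Measure.map_addHaar_smul (volume : Measure (ℝ × ℝ × ℝ)) hr
  have hf : Module.finrank ℝ (ℝ × ℝ × ℝ) = 3 := by
    simp [Module.finrank_prod]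
  rw [hf] at h
  have h2 := (Homeomorph.smulOfNeZero r hr : (ℝ × ℝ × ℝ) ≃ₜ (ℝ × ℝ × ℝ)).measurableEmbedding.lintegral_map
    (μ := (volume : Measure (ℝ × ℝ × ℝ))) K
  have h3 : (⇑(Homeomorph.smulOfNeZero r hr : (ℝ × ℝ × ℝ) ≃ₜ (ℝ × ℝ × ℝ))) =
      (fun x : ℝ × ℝ × ℝ => r • x) := rfl
  rw [h3] at h2
  rw [← h2, h, lintegral_smul_measure, smul_eq_mul]

lemma ext_meas (U : Set (ℝ × ℝ)) (f : ℝ × ℝ → ℂ) (hf : Measurable f) :
    Measurable (ext U f) := by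
  have h1 : StronglyMeasurable (fun p : (ℝ × ℝ × ℝ) × (ℝ × ℝ) =>
      cexp (-((p.2.1 * p.1.1 + p.2.2 * p.1.2.1 + (p.2.1 ^ 2 + p.2.2 ^ 2) * p.1.2.2 : ℝ) : ℂ) * I) *
        f p.2) := by
    apply Measurable.stronglyMeasurable
    apply Measurable.mul
    · apply Continuous.measurable
      fun_prop
    · exact hf.comp measurable_snd
  exact (h1.integral_prod_right (ν := volume.restrict U)).measurable

lemma ext_eq (U : Set (ℝ × ℝ)) (φ : Poly) (g : ℝ × ℝ → ℂ) (hU : ∀ x, x ∉ U → g x = 0)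
    (hg : ∀ x : ℝ × ℝ, 1 / 4 < x.1 ^ 2 + x.2 ^ 2 → g x = 0) (ξ : ℝ × ℝ × ℝ) :
    ext U (fun x => cexp (I * (ev φ x : ℂ)) * g x) ξ =
      ∫ z in SQ, g z * Pool.Agent.Y183.PP.ex (Ph φ ((-(2 * Real.pi)⁻¹ : ℝ) • (ξ.1, ξ.2.1))
        ((-(2 * Real.pi)⁻¹ : ℝ) • ξ.2.2)) z := by
  unfold ext
  rw [setIntegral_eq_integral_of_forall_compl_eq_zero
    (fun y hy => by simp only [hU y hy, mul_zero]),
    setIntegral_eq_integral_of_forall_compl_eq_zero]
  · apply integral_congr_ae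
    refine ae_of_all _ fun z => ?_
    simp only
    unfold Pool.Agent.Y183.PP.ex
    rw [ev_Ph, ← mul_assoc, ← Complex.exp_add, mul_comm (g z)]
    congr 2
    have hpi := Real.pi_ne_zero
    have e : (-(z.1 * ξ.1 + z.2 * ξ.2.1 + (z.1 ^ 2 + z.2 ^ 2) * ξ.2.2)) =
        2 * Real.pi * (z.1 * (((-(2 * Real.pi)⁻¹ : ℝ) • (ξ.1, ξ.2.1)).1) +
          z.2 * (((-(2 * Real.pi)⁻¹ : ℝ) • (ξ.1, ξ.2.1)).2) + (z.1 ^ 2 + z.2 ^ 2) *
          ((-(2 * Real.pi)⁻¹ : ℝ) • ξ.2.2)) := by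
      simp only [Prod.smul_fst, Prod.smul_snd, smul_eq_mul]
      field_simp
      ring
    rw [← Complex.ofReal_neg, e]
    push_cast
    ring
  · intro x hx
    rw [hg x, zero_mul]
    by_contra hc
    apply hx
    push Not at hc
    unfold SQ
    have h1 : x.1 ^ 2 ≤ 1 := by nlinarith [sq_nonneg x.2]
    have h2 : x.2 ^ 2 ≤ 1 := by nlinarith [sq_nonneg x.1]
    rw [mem_prod, mem_Icc, mem_Icc]
    have h3 := abs_le_one_iff_mul_self_le_one.mpr (by nlinarith : x.1 * x.1 ≤ 1)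
    have h4 := abs_le_one_iff_mul_self_le_one.mpr (by nlinarith : x.2 * x.2 ≤ 1)
    exact ⟨abs_le.mp h3, abs_le.mp h4⟩

/-- **polynomial phases of all degrees** -/
theorem poly (q : ℝ) (hq : 3 < q) : ∃ C : ℝ≥0, ∀ (D : ℕ) (P : Poly) (U : Set (ℝ × ℝ))
    (g : ℝ × ℝ → ℂ) (V : ℝ≥0), P.totalDegree ≤ D → Amp g V → (∀ x, x ∉ U → g x = 0) →
      eLpNorm (ext U fun x => cexp (I * (ev P x : ℂ)) * g x) (ENNReal.ofReal q) volume ≤
        C * ((1 + D) ^ 5 * V : ℝ≥0) := by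
  obtain ⟨C, hC⟩ := mixed_exp q 1 (by linarith) le_rfl (by linarith)
  have hq0 : 0 < q := by linarith
  have hpi := Real.pi_pos
  set S : ℝ≥0 := ⟨(2 * Real.pi) ^ 3, by positivity⟩ with hS
  refine ⟨(S * C) ^ (1 / q), ?_⟩
  intro D P U g V hP hg hU
  rcases eq_or_ne V 0 with hV | hV
  · have hz : ∀ x, g x = 0 := fun x => by
      have h1 := hg.bd x
      rw [hV, NNReal.coe_zero] at h1
      exact norm_le_zero_iff.mp h1
    have e : ext U (fun x => cexp (I * (ev P x : ℂ)) * g x) = fun _ => 0 := by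
      ext ξ
      unfold ext
      simp [hz]
    rw [e]
    simp
  have hVp : 0 < (V : ℝ) := lt_of_le_of_ne V.2 (fun h => hV (by ext; exact h.symm))
  have hmain := hC D P hP g hg.meas V hVp hg.bd
    (fun y => by
      rw [ENNReal.ofReal_coe_nnreal]
      exact (eVariationOn.mono _ (subset_univ _)).trans (hg.var.1 y))
    (fun x => by
      rw [ENNReal.ofReal_coe_nnreal]
      exact (eVariationOn.mono _ (subset_univ _)).trans (hg.var.2 x))
  simp only [ENNReal.rpow_one, mul_one] at hmain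
  set H : (ℝ × ℝ) × ℝ → ℝ≥0∞ := fun w =>
    ‖∫ z in SQ, g z * Pool.Agent.Y183.PP.ex (Ph P w.1 w.2) z‖ₑ ^ q with hH
  set K : ℝ × ℝ × ℝ → ℝ≥0∞ := fun ξ => H ((ξ.1, ξ.2.1), ξ.2.2) with hK
  have hexm : Measurable fun x : ℝ × ℝ => cexp (I * (ev P x : ℂ)) := by
    apply Continuous.measurable
    have := ev_cont P
    fun_prop
  have hKm : Measurable K := by
    have h1 := (ext_meas U _ (hexm.mul hg.meas)).comp (measurable_const_smul (-(2 * Real.pi) : ℝ) :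
      Measurable fun ξ : ℝ × ℝ × ℝ => (-(2 * Real.pi) : ℝ) • ξ)
    have e : K = fun ξ => ‖ext U (fun x => cexp (I * (ev P x : ℂ)) * g x)
        ((-(2 * Real.pi) : ℝ) • ξ)‖ₑ ^ q := by
      ext ξ
      simp only [hK, hH]
      rw [ext_eq U P g hU hg.supp]
      congr 3
      simp only [Prod.smul_fst, Prod.smul_snd, Prod.smul_mk, smul_eq_mul]
      field_simp
    rw [e]
    exact h1.enorm.pow_const q
  have e1 : ∫⁻ ξ : ℝ × ℝ × ℝ, ‖ext U (fun x => cexp (I * (ev P x : ℂ)) * g x) ξ‖ₑ ^ q =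
      ENNReal.ofReal ((2 * Real.pi) ^ 3) * ∫⁻ ξ, K ξ := by
    have h2 := scal K (-(2 * Real.pi)⁻¹) (by simp [hpi.ne'])
    have e3 : |((-(2 * Real.pi)⁻¹) ^ 3)⁻¹| = (2 * Real.pi) ^ 3 := by
      rw [abs_inv, abs_pow, abs_neg, abs_inv, abs_of_pos (by positivity : 0 < 2 * Real.pi)]
      rw [inv_pow, inv_inv]
    rw [e3] at h2
    rw [← h2]
    apply lintegral_congr
    intro ξ
    simp only [hK, hH]
    rw [ext_eq U P g hU hg.supp]
    simp only [Prod.smul_fst, Prod.smul_snd, Prod.smul_mk]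
  have e2 : ∫⁻ ξ, K ξ = ∫⁻ t : ℝ, ∫⁻ y : ℝ × ℝ, H (y, t) := by
    have h3 : MeasurePreserving (MeasurableEquiv.prodAssoc : (ℝ × ℝ) × ℝ ≃ᵐ ℝ × ℝ × ℝ) volume volume :=
      volume_preserving_prodAssoc
    have h4 := h3.lintegral_comp hKm
    have h5 : ∀ w : (ℝ × ℝ) × ℝ, K (MeasurableEquiv.prodAssoc w) = H w := fun w => rfl
    simp only [h5] at h4
    have hHm : Measurable H := by
      have : H = fun w => K (MeasurableEquiv.prodAssoc w) := by ext w; rw [h5]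
      rw [this]
      exact hKm.comp h3.measurable
    rw [← h4, Measure.volume_eq_prod, lintegral_prod_symm _ hHm.aemeasurable]
  rw [eLpNorm_eq_lintegral_rpow_enorm_toReal (by simpa using hq0) ENNReal.ofReal_ne_top,
    ENNReal.toReal_ofReal hq0.le, e1, e2]
  have hB : (1 : ℝ) ≤ (1 + D : ℝ) ^ 5 := one_le_pow₀ (by linarith [(Nat.cast_nonneg D : (0 : ℝ) ≤ D)])
  have hB2 : ENNReal.ofReal ((1 + D : ℝ) ^ 5) = (((1 + D) ^ 5 : ℝ≥0) : ℝ≥0∞) := by
    rw [← ENNReal.ofReal_coe_nnreal]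
    push_cast
    rfl
  calc (ENNReal.ofReal ((2 * Real.pi) ^ 3) * ∫⁻ t : ℝ, ∫⁻ y : ℝ × ℝ, H (y, t)) ^ (1 / q)
      ≤ ((S : ℝ≥0∞) * (C * ((((1 + D) ^ 5 : ℝ≥0) : ℝ≥0∞)) ^ q * (V : ℝ≥0∞) ^ q)) ^ (1 / q) := by
        have hSe : ENNReal.ofReal ((2 * Real.pi) ^ 3) = (S : ℝ≥0∞) := by
          rw [← ENNReal.ofReal_coe_nnreal, hS]
          rfl
        rw [hSe]
        gcongr
        refine hmain.trans ?_
        rw [hB2, ENNReal.ofReal_coe_nnreal]
        gcongr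
        · rw [← hB2]
          rw [← ENNReal.ofReal_one]
          exact ENNReal.ofReal_le_ofReal hB
        · linarith
    _ = _ := by
        rw [ENNReal.mul_rpow_of_nonneg _ _ (by positivity), ENNReal.mul_rpow_of_nonneg _ _ (by positivity),
          ENNReal.mul_rpow_of_nonneg _ _ (by positivity), ← ENNReal.rpow_mul, ← ENNReal.rpow_mul,
          mul_one_div_cancel hq0.ne', ENNReal.rpow_one, ENNReal.rpow_one]
        rw [← ENNReal.coe_rpow_of_nonneg _ (by positivity), NNReal.mul_rpow, ENNReal.coe_mul,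
          ENNReal.coe_mul, ← ENNReal.coe_rpow_of_nonneg _ (by positivity)]
        ring

end Pool.Agent.Y250.PT
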