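import Pool.Agent.Y250.PT.D
set_option autoImplicit false

/-! Phases with bounded derivatives of some order: the choice of the scale. -/

namespace Pool.Agent.Y250.PT

open MeasureTheory Set Complex Filter Topology
open scoped ENNReal NNReal

/-- **phases with bounded derivatives of order `n + 1`** -/
theorem smooth (q : ℝ) (hq : 3 < q) : ∃ C : ℝ≥0, ∀ (n : ℕ) (φ : ℝ × ℝ → ℝ) (M : ℝ≥0)
    (U : Set (ℝ × ℝ)) (g : ℝ × ℝ → ℂ) (V : ℝ≥0), 1 ≤ n → ContDiff ℝ (n + 1 : ℕ) φ →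
      (∀ i j, i + j = n + 1 → ∀ x ∈ Dk, |J φ i j x| ≤ M) → Amp g V → (∀ x, x ∉ U → g x = 0) →
      eLpNorm (ext U fun x => cexp (I * (φ x : ℂ)) * g x) (ENNReal.ofReal q) volume ≤
        C * ((1 + n) ^ 5 * (1 + (M / n.factorial) ^ ((2 : ℝ) / n)) * V : ℝ≥0) := by
  obtain ⟨C, hC⟩ := cells q hq
  refine ⟨18 * C, ?_⟩
  intro n φ M U g V hn hφ hJ hg hU
  have hn' : (0 : ℝ) < n := by exact_mod_cast hn
  set X : ℝ≥0 := (M / n.factorial) ^ ((1 : ℝ) / n) with hX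
  set N : ℕ := ⌈2 * X⌉₊ + 1 with hN
  have hX2 : X ^ 2 = (M / n.factorial) ^ ((2 : ℝ) / n) := by
    rw [hX, ← NNReal.rpow_natCast, ← NNReal.rpow_mul]
    congr 1
    push_cast
    ring
  have hXn : (X : ℝ) ^ n = M / n.factorial := by
    have h1 : X ^ n = M / n.factorial := by
      rw [hX, ← NNReal.rpow_natCast, ← NNReal.rpow_mul, one_div_mul_cancel hn'.ne', NNReal.rpow_one]
    have h2 := congrArg (fun x : ℝ≥0 => (x : ℝ)) h1
    simp only [NNReal.coe_pow, NNReal.coe_div, NNReal.coe_natCast] at h2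
    exact h2
  have hN0 : 0 < N := by omega
  have hN0' : (0 : ℝ) < N := by exact_mod_cast hN0
  have hN1 : (2 * X : ℝ) ≤ N := by
    have h1 : 2 * X ≤ (⌈2 * X⌉₊ : ℝ≥0) := Nat.le_ceil _
    have h2 : (2 * X : ℝ) ≤ (⌈2 * X⌉₊ : ℝ) := by exact_mod_cast h1
    rw [hN]
    push_cast
    linarith
  have hN2 : (N : ℝ≥0) ≤ 2 * X + 2 := by
    have h1 : (⌈2 * X⌉₊ : ℝ≥0) < 2 * X + 1 := Nat.ceil_lt_add_one (by positivity)
    rw [hN]
    push_cast
    calc (⌈2 * X⌉₊ : ℝ≥0) + 1 ≤ (2 * X + 1) + 1 := by gcongr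
      _ = _ := by ring
  have hkey : (M : ℝ) * (2 / N) ^ n / n.factorial ≤ 1 := by
    have e : (M : ℝ) * (2 / N) ^ n / n.factorial = (2 * X / N) ^ n := by
      rw [div_pow, div_pow, mul_pow, hXn]
      ring
    rw [e]
    apply pow_le_one₀ (by positivity)
    rw [div_le_one hN0']
    exact hN1
  have h1 := hC n N φ M U g V hN0 hφ M.2 hJ hkey hg hU
  refine h1.trans ?_
  have h2 : (((N : ℝ≥0) + 1) ^ 2) ≤ 18 * (1 + (M / n.factorial) ^ ((2 : ℝ) / n)) := by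
    rw [← hX2]
    have h3 : (N : ℝ≥0) + 1 ≤ 2 * X + 3 := by
      calc (N : ℝ≥0) + 1 ≤ (2 * X + 2) + 1 := by gcongr
        _ = _ := by ring
    have h4 : ((N : ℝ≥0) + 1) ^ 2 ≤ (2 * X + 3) ^ 2 := by gcongr
    refine h4.trans ?_
    rw [← NNReal.coe_le_coe]
    push_cast
    nlinarith [sq_nonneg ((X : ℝ) - 1)]
  calc (C : ℝ≥0∞) * ((((N + 1) ^ 2 * (1 + n) ^ 5) * V : ℝ≥0) : ℝ≥0∞)
      ≤ (C : ℝ≥0∞) * (((18 * (1 + (M / n.factorial) ^ ((2 : ℝ) / n)) * (1 + n) ^ 5) * V : ℝ≥0) : ℝ≥0∞) := by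
        have h5 : (((N + 1) ^ 2 * (1 + n) ^ 5) * V : ℝ≥0) ≤
            (18 * (1 + (M / n.factorial) ^ ((2 : ℝ) / n)) * (1 + n) ^ 5) * V := by
          gcongr
        gcongr
    _ = _ := by
        push_cast
        ring

end Pool.Agent.Y250.PT
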