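import Pool.Agent.Y183.PP.H
set_option autoImplicit false

/-! Averages over small squares: the sup bound. -/

namespace Pool.Agent.Y250.PT

open MeasureTheory Set Complex Filter Topology
open scoped ENNReal NNReal Convolution
open Pool.Agent.Y183.PP (ch planc)

/-- the plane -/
abbrev Pl := ℝ × ℝ

instance vol_haar : (volume : Measure (ℝ × ℝ)).IsAddHaarMeasure := by
  rw [Measure.volume_eq_prod]; infer_instance

lemma ch_add (y a b : ℝ × ℝ) : ch y (a + b) = ch y a * ch y b := by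
  unfold ch
  rw [← Complex.exp_add]
  congr 1
  simp only [Prod.fst_add, Prod.snd_add]
  push_cast
  ring

lemma ch_norm (y z : ℝ × ℝ) : ‖ch y z‖ = 1 := by
  unfold ch
  exact Complex.norm_exp_ofReal_mul_I _

lemma ch_cont (y : ℝ × ℝ) : Continuous (ch y) := by
  unfold ch
  fun_prop

lemma ch_neg (y z : ℝ × ℝ) : ch y (-z) = (starRingEnd ℂ) (ch y z) := by
  unfold ch
  rw [← Complex.exp_conj]
  congr 1
  simp only [Prod.fst_neg, Prod.snd_neg, map_mul, Complex.conj_ofReal, Complex.conj_I]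
  push_cast
  ring

/-- the squares -/
def bq (δ : ℝ) : Set (ℝ × ℝ) := Ico 0 δ ×ˢ Ico 0 δ

lemma bq_meas (δ : ℝ) : MeasurableSet (bq δ) := measurableSet_Ico.prod measurableSet_Ico

lemma bq_vol (δ : ℝ) (hδ : 0 ≤ δ) : volume (bq δ) = ENNReal.ofReal (δ ^ 2) := by
  unfold bq
  rw [Measure.volume_eq_prod, Measure.prod_prod, Real.volume_Ico, ← ENNReal.ofReal_mul (by linarith)]
  congr 1
  ring

/-- the indicator function of the square -/
noncomputable def bi (δ : ℝ) : ℝ × ℝ → ℂ := (bq δ).indicator fun _ => 1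

lemma bi_meas (δ : ℝ) : Measurable (bi δ) := measurable_const.indicator (bq_meas δ)

lemma bi_int (δ : ℝ) (hδ : 0 ≤ δ) : Integrable (bi δ) := by
  unfold bi
  rw [integrable_indicator_iff (bq_meas δ)]
  exact integrableOn_const (by rw [bq_vol δ hδ]; exact ENNReal.ofReal_ne_top)

lemma bi_bd (δ : ℝ) (z : ℝ × ℝ) : ‖bi δ z‖ ≤ 1 := by
  unfold bi
  by_cases h : z ∈ bq δ
  · rw [indicator_of_mem h]; simp
  · rw [indicator_of_notMem h]; simp

lemma memLp_two' (F : ℝ × ℝ → ℂ) (B : ℝ) (h1 : Integrable F) (h2 : ∀ z, ‖F z‖ ≤ B) : MemLp F 2 := by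
  rw [memLp_two_iff_integrable_sq_norm h1.1]
  refine (h1.norm.const_mul B).mono' (h1.1.norm.pow 2) (ae_of_all _ fun ξ => ?_)
  rw [Real.norm_eq_abs, abs_of_nonneg (by positivity), sq]
  exact mul_le_mul_of_nonneg_right (h2 ξ) (norm_nonneg _)

/-- the average -/
noncomputable def av (δ : ℝ) (H : ℝ × ℝ → ℂ) (z : ℝ × ℝ) : ℂ :=
  ((δ ^ 2)⁻¹ : ℝ) * ∫ u, bi δ u * H (z - u)

/-- the adjoint average -/
noncomputable def avs (δ : ℝ) (F : ℝ × ℝ → ℂ) (w : ℝ × ℝ) : ℂ :=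
  ((δ ^ 2)⁻¹ : ℝ) * ∫ u, bi δ u * F (w + u)

lemma shear_mp : MeasurePreserving (fun p : (ℝ × ℝ) × (ℝ × ℝ) => (p.1, p.2 + p.1))
    (volume.prod volume) (volume.prod volume) := by
  have h := measurePreserving_prod_add (μ := (volume : Measure (ℝ × ℝ))) (ν := (volume : Measure (ℝ × ℝ)))
  have e : (fun p : (ℝ × ℝ) × (ℝ × ℝ) => (p.1, p.2 + p.1)) = fun z => (z.1, z.1 + z.2) := by
    funext p
    rw [add_comm]
  rw [e]
  exact h

/-- duality -/
lemma av_dual (δ : ℝ) (hδ : 0 ≤ δ) (F H : ℝ × ℝ → ℂ) (hF : Measurable F) (B : ℝ)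
    (hFB : ∀ z, ‖F z‖ ≤ B) (hH : Integrable H) (hHm : Measurable H) :
    ∫ z, F z * av δ H z = ∫ w, H w * avs δ F w := by
  have hb := bi_int δ hδ
  have i1 : Integrable (fun p : (ℝ × ℝ) × (ℝ × ℝ) => bi δ p.2 * H (p.1 - p.2)) (volume.prod volume) :=
    hb.convolution_integrand (ContinuousLinearMap.mul ℂ ℂ) hH
  have i2 : Integrable (fun p : (ℝ × ℝ) × (ℝ × ℝ) => F p.1 * (bi δ p.2 * H (p.1 - p.2)))
      (volume.prod volume) := by
    apply i1.bdd_mul (c := B) (hF.comp measurable_fst).aestronglyMeasurable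
    exact ae_of_all _ fun p => hFB _
  have i3 : Integrable (fun p : (ℝ × ℝ) × (ℝ × ℝ) => F (p.2 + p.1) * (bi δ p.1 * H p.2))
      (volume.prod volume) := by
    apply (hb.mul_prod hH).bdd_mul (c := B)
    · exact (hF.comp (measurable_snd.add measurable_fst)).aestronglyMeasurable
    · exact ae_of_all _ fun p => hFB _
  unfold av avs
  calc ∫ z, F z * (((δ ^ 2)⁻¹ : ℝ) * ∫ u, bi δ u * H (z - u))
      = ((δ ^ 2)⁻¹ : ℝ) * ∫ z, ∫ u, F z * (bi δ u * H (z - u)) := by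
        rw [← integral_const_mul]
        congr 1
        ext z
        rw [integral_const_mul]
        ring
    _ = ((δ ^ 2)⁻¹ : ℝ) * ∫ u, ∫ z, F z * (bi δ u * H (z - u)) := by
        rw [integral_integral_swap i2]
    _ = ((δ ^ 2)⁻¹ : ℝ) * ∫ u, ∫ w, F (w + u) * (bi δ u * H w) := by
        congr 2
        ext u
        have h := integral_add_right_eq_self (μ := volume)
          (fun z : ℝ × ℝ => F z * (bi δ u * H (z - u))) u
        rw [← h]
        simp only [add_sub_cancel_right]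
    _ = ((δ ^ 2)⁻¹ : ℝ) * ∫ w, ∫ u, F (w + u) * (bi δ u * H w) := by
        rw [integral_integral_swap i3]
    _ = ∫ w, H w * (((δ ^ 2)⁻¹ : ℝ) * ∫ u, bi δ u * F (w + u)) := by
        rw [← integral_const_mul]
        congr 1
        ext w
        rw [← integral_const_mul, ← integral_const_mul, ← integral_const_mul]
        congr 1
        ext u
        ring

/-- the transform of the adjoint average -/
lemma avs_trans (δ : ℝ) (hδ : 0 ≤ δ) (F : ℝ × ℝ → ℂ) (hF : Integrable F) (hFm : Measurable F)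
    (y : ℝ × ℝ) :
    ∫ w, avs δ F w * ch y w = ((δ ^ 2)⁻¹ : ℝ) * (∫ u, bi δ u * ch y (-u)) * ∫ z, F z * ch y z := by
  have hb := bi_int δ hδ
  have hFc : Integrable fun z => F z * ch y z := by
    apply hF.mul_bdd (c := 1) (ch_cont y).measurable.aestronglyMeasurable
    exact ae_of_all _ fun z => by rw [ch_norm]
  have hbc : Integrable fun u => bi δ u * ch y (-u) := by
    apply hb.mul_bdd (c := 1) ((ch_cont y).measurable.comp measurable_neg).aestronglyMeasurable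
    exact ae_of_all _ fun z => (ch_norm y (-z)).le
  have hshear := shear_mp
  have i1 : Integrable (fun p : (ℝ × ℝ) × (ℝ × ℝ) => (bi δ p.1 * ch y (-p.1)) * (F (p.2 + p.1) * ch y (p.2 + p.1)))
      (volume.prod volume) := by
    have h := hbc.mul_prod hFc
    have h2 := hshear.integrable_comp h.aestronglyMeasurable
    exact h2.mpr h
  have e1 : ∀ w u, bi δ u * F (w + u) * ch y w =
      (bi δ u * ch y (-u)) * (F (w + u) * ch y (w + u)) := by
    intro w u
    have h1 : ch y w = ch y (-u) * ch y (w + u) := by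
      rw [← ch_add]
      congr 1
      abel
    rw [h1]
    ring
  unfold avs
  calc ∫ w, (((δ ^ 2)⁻¹ : ℝ) * ∫ u, bi δ u * F (w + u)) * ch y w
      = ((δ ^ 2)⁻¹ : ℝ) * ∫ w, ∫ u, bi δ u * F (w + u) * ch y w := by
        rw [← integral_const_mul]
        congr 1
        ext w
        rw [integral_mul_const]
        ring
    _ = ((δ ^ 2)⁻¹ : ℝ) * ∫ w, ∫ u, (bi δ u * ch y (-u)) * (F (w + u) * ch y (w + u)) := by
        simp only [e1]
    _ = ((δ ^ 2)⁻¹ : ℝ) * ∫ u, ∫ w, (bi δ u * ch y (-u)) * (F (w + u) * ch y (w + u)) := by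
        rw [integral_integral_swap (f := fun w u : ℝ × ℝ =>
          (bi δ u * ch y (-u)) * (F (w + u) * ch y (w + u))) i1.swap]
    _ = ((δ ^ 2)⁻¹ : ℝ) * ∫ u, (bi δ u * ch y (-u)) * ∫ z, F z * ch y z := by
        congr 2
        ext u
        rw [integral_const_mul]
        congr 1
        exact integral_add_right_eq_self (μ := volume) (fun z : ℝ × ℝ => F z * ch y z) u
    _ = _ := by
        rw [integral_mul_const]
        ring

lemma bi_trans (δ : ℝ) (hδ : 0 ≤ δ) :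
    ∫⁻ y : ℝ × ℝ, ‖∫ u, bi δ u * ch y (-u)‖ₑ ^ 2 = ENNReal.ofReal (δ ^ 2) := by
  have h := planc (bi δ) (bi_int δ hδ) (memLp_two' _ 1 (bi_int δ hδ) (bi_bd δ))
  have e1 : ∀ y : ℝ × ℝ, ‖∫ u, bi δ u * ch y (-u)‖ₑ = ‖∫ u, bi δ u * ch y u‖ₑ := by
    intro y
    have e2 : ∫ u, bi δ u * ch y (-u) = (starRingEnd ℂ) (∫ u, bi δ u * ch y u) := by
      rw [← integral_conj]
      congr 1
      ext u
      rw [map_mul, ch_neg]
      congr 1
      unfold bi
      by_cases hu : u ∈ bq δ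
      · rw [indicator_of_mem hu, map_one]
      · rw [indicator_of_notMem hu, map_zero]
    rw [e2, ← ofReal_norm, RCLike.norm_conj, ofReal_norm]
  simp only [e1]
  rw [h, ← bq_vol δ hδ]
  have e3 : ∀ z, ‖bi δ z‖ₑ ^ 2 = (bq δ).indicator (fun _ => (1 : ℝ≥0∞)) z := by
    intro z
    unfold bi
    by_cases hu : z ∈ bq δ
    · rw [indicator_of_mem hu, indicator_of_mem hu]; simp
    · rw [indicator_of_notMem hu, indicator_of_notMem hu]; simp
  simp only [e3]
  rw [lintegral_indicator_const (bq_meas δ), one_mul]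

lemma avs_int (δ : ℝ) (hδ : 0 ≤ δ) (F : ℝ × ℝ → ℂ) (hF : Integrable F) : Integrable (avs δ F) := by
  have hb := bi_int δ hδ
  have hshear := shear_mp
  have i1 : Integrable (fun p : (ℝ × ℝ) × (ℝ × ℝ) => bi δ p.1 * F (p.2 + p.1))
      (volume.prod volume) := by
    have h := hb.mul_prod hF
    have h2 := hshear.integrable_comp h.aestronglyMeasurable
    exact h2.mpr h
  have h2 := i1.integral_prod_right
  exact h2.const_mul _

lemma avs_bd (δ : ℝ) (hδ : 0 < δ) (F : ℝ × ℝ → ℂ) (B : ℝ) (hB : ∀ z, ‖F z‖ ≤ B) (w : ℝ × ℝ) :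
    ‖avs δ F w‖ ≤ B := by
  have hB0 : 0 ≤ B := (norm_nonneg _).trans (hB 0)
  unfold avs
  rw [norm_mul, Complex.norm_real, Real.norm_eq_abs, abs_of_nonneg (by positivity)]
  have h1 : ‖∫ u, bi δ u * F (w + u)‖ ≤ ∫ u, (bq δ).indicator (fun _ => B) u := by
    refine (norm_integral_le_integral_norm _).trans ?_
    apply integral_mono_of_nonneg (ae_of_all _ fun u => norm_nonneg _)
    · rw [integrable_indicator_iff (bq_meas δ)]
      exact integrableOn_const (by rw [bq_vol δ hδ.le]; exact ENNReal.ofReal_ne_top)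
    · refine ae_of_all _ fun u => ?_
      simp only
      unfold bi
      by_cases hu : u ∈ bq δ
      · rw [indicator_of_mem hu, indicator_of_mem hu, one_mul]
        exact hB _
      · rw [indicator_of_notMem hu, indicator_of_notMem hu, zero_mul, norm_zero]
  rw [integral_indicator_const _ (bq_meas δ)] at h1
  have h2 : (volume : Measure (ℝ × ℝ)).real (bq δ) = δ ^ 2 := by
    rw [Measure.real, bq_vol δ hδ.le, ENNReal.toReal_ofReal (by positivity)]
  rw [h2, smul_eq_mul] at h1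
  calc (δ ^ 2)⁻¹ * ‖∫ u, bi δ u * F (w + u)‖ ≤ (δ ^ 2)⁻¹ * (δ ^ 2 * B) := by gcongr
    _ = B := by
        field_simp

/-- **the sup bound for averages** -/
theorem av_sup (δ : ℝ) (hδ : 0 < δ) (F H : ℝ × ℝ → ℂ) (hFm : Measurable F) (hF : Integrable F)
    (B : ℝ) (hFB : ∀ z, ‖F z‖ ≤ B) (hH : Integrable H) (hHm : Measurable H)
    (S : ℝ) (hS : ∀ y, ‖∫ z, F z * ch y z‖ ≤ S) :
    ‖∫ z, F z * av δ H z‖ₑ ≤ ENNReal.ofReal (S / δ) * (∫⁻ z, ‖H z‖ₑ ^ 2) ^ (1 / 2 : ℝ) := by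
  have hS0 : 0 ≤ S := (norm_nonneg _).trans (hS 0)
  rw [av_dual δ hδ.le F H hFm B hFB hH hHm]
  set Φ := avs δ F with hΦ
  have hΦi := avs_int δ hδ.le F hF
  have hΦ2 := memLp_two' Φ B hΦi (avs_bd δ hδ F B hFB)
  have hpl := planc Φ hΦi hΦ2
  have h1 : ∫⁻ z, ‖Φ z‖ₑ ^ 2 ≤ ENNReal.ofReal ((S / δ) ^ 2) := by
    rw [← hpl]
    have hpt : ∀ y : ℝ × ℝ, ‖∫ z, Φ z * ch y z‖ₑ ^ 2 ≤
        ENNReal.ofReal ((δ ^ 2)⁻¹ ^ 2 * S ^ 2) * ‖∫ u, bi δ u * ch y (-u)‖ₑ ^ 2 := by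
      intro y
      rw [hΦ, avs_trans δ hδ.le F hF hFm y, enorm_mul, enorm_mul, mul_pow, mul_pow,
        ENNReal.ofReal_mul (by positivity)]
      have a1 : ‖(((δ ^ 2)⁻¹ : ℝ) : ℂ)‖ₑ ^ 2 = ENNReal.ofReal ((δ ^ 2)⁻¹ ^ 2) := by
        rw [← ofReal_norm, Complex.norm_real, Real.norm_eq_abs, abs_of_nonneg (by positivity),
          ← ENNReal.ofReal_pow (by positivity)]
      have a2 : ‖∫ z, F z * ch y z‖ₑ ^ 2 ≤ ENNReal.ofReal (S ^ 2) := by
        rw [← ofReal_norm, ← ENNReal.ofReal_pow (norm_nonneg _)]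
        exact ENNReal.ofReal_le_ofReal (pow_le_pow_left₀ (norm_nonneg _) (hS y) 2)
      rw [a1]
      calc ENNReal.ofReal ((δ ^ 2)⁻¹ ^ 2) * ‖∫ u, bi δ u * ch y (-u)‖ₑ ^ 2 * ‖∫ z, F z * ch y z‖ₑ ^ 2
          ≤ ENNReal.ofReal ((δ ^ 2)⁻¹ ^ 2) * ‖∫ u, bi δ u * ch y (-u)‖ₑ ^ 2 * ENNReal.ofReal (S ^ 2) := by
            gcongr
        _ = _ := by ring
    refine (lintegral_mono hpt).trans ?_
    rw [lintegral_const_mul' _ _ ENNReal.ofReal_ne_top, bi_trans δ hδ.le,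
      ← ENNReal.ofReal_mul (by positivity)]
    apply le_of_eq
    congr 1
    field_simp
  calc ‖∫ w, H w * Φ w‖ₑ ≤ ∫⁻ w, ‖H w‖ₑ * ‖Φ w‖ₑ := by
        refine (enorm_integral_le_lintegral_enorm _).trans (le_of_eq ?_)
        apply lintegral_congr
        intro w
        rw [enorm_mul]
    _ ≤ (∫⁻ w, ‖H w‖ₑ ^ (2 : ℝ)) ^ (1 / 2 : ℝ) * (∫⁻ w, ‖Φ w‖ₑ ^ (2 : ℝ)) ^ (1 / 2 : ℝ) := by
        have h2 := ENNReal.lintegral_mul_le_Lp_mul_Lq (volume : Measure (ℝ × ℝ))
          (Real.HolderConjugate.two_two) hHm.enorm.aemeasurable hΦi.1.enorm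
        exact h2
    _ ≤ _ := by
        simp only [ENNReal.rpow_two]
        rw [mul_comm]
        gcongr
        calc (∫⁻ w, ‖Φ w‖ₑ ^ 2) ^ (1 / 2 : ℝ) ≤ (ENNReal.ofReal ((S / δ) ^ 2)) ^ (1 / 2 : ℝ) := by gcongr
          _ = ENNReal.ofReal (S / δ) := by
            rw [ENNReal.ofReal_rpow_of_nonneg (by positivity) (by norm_num), ← Real.sqrt_eq_rpow,
              Real.sqrt_sq (by positivity)]

end Pool.Agent.Y250.PT
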