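import Pool.Agent.Y250.PT.H
set_option autoImplicit false

/-! Averages over small squares: the pieces. -/

namespace Pool.Agent.Y250.PT

open MeasureTheory Set Complex Filter Topology
open scoped ENNReal NNReal
open Pool.Agent.Y183.PP (ch planc Poly ev SQ SQ_meas SQ_vol Ph ex_Ph Fp AA AA_meas AA_sub AA_sum BB
  BB_joint BB_meas BB_empty vol_BB SS SS_bound supb Reg_Ph deg_Ph ex_norm ex_cont wsum part_int)

/-- the oscillating factor -/
noncomputable abbrev exx := Pool.Agent.Y183.PP.ex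

/-- the `L²` norm of a part -/
lemma part_sq' (φ : Poly) (g : ℝ × ℝ → ℂ) (hg : Measurable g) (V : ℝ) (hV : 0 ≤ V)
    (hgB : ∀ z, ‖g z‖ ≤ V) (A : Set (ℝ × ℝ)) (hA : MeasurableSet A) (t : ℝ) :
    ∫⁻ y, ‖Fp φ g A y t‖ₑ ^ 2 = ∫⁻ z in SQ ∩ A, ‖g z‖ₑ ^ 2 := by
  set H : ℝ × ℝ → ℂ := (SQ ∩ A).indicator (fun z => g z * exx (Ph φ 0 t) z) with hH
  have hm : Measurable H := (hg.mul (ex_cont _).measurable).indicator (SQ_meas.inter hA)
  have hHb : ∀ z, ‖H z‖ ≤ V := by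
    intro z
    by_cases h : z ∈ SQ ∩ A
    · simp only [hH]
      rw [indicator_of_mem h, norm_mul, ex_norm, mul_one]
      exact hgB _
    · simp only [hH]
      rw [indicator_of_notMem h, norm_zero]
      exact hV
  have hfin : IsFiniteMeasure ((volume : Measure (ℝ × ℝ)).restrict SQ) := ⟨by
    rw [Measure.restrict_apply_univ, SQ_vol]
    norm_num⟩
  have hsupp : ∀ z, z ∉ SQ → H z = 0 := fun z hz => indicator_of_notMem (fun h => hz h.1) _
  have hHi : SQ.indicator H = H := by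
    ext z
    by_cases h : z ∈ SQ
    · rw [indicator_of_mem h]
    · rw [indicator_of_notMem h, hsupp z h]
  have hp : ∀ p : ℝ≥0∞, MemLp H p volume := by
    intro p
    rw [← hHi, memLp_indicator_iff_restrict SQ_meas]
    exact MemLp.of_bound hm.aestronglyMeasurable V (ae_of_all _ hHb)
  have hpl := planc H (memLp_one_iff_integrable.mp (hp 1)) (hp 2)
  have e1 : ∀ y, Fp φ g A y t = ∫ z, H z * ch y z := by
    intro y
    unfold Fp
    rw [← integral_indicator SQ_meas]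
    congr 1
    ext z
    by_cases h : z ∈ SQ
    · rw [indicator_of_mem h]
      by_cases h2 : z ∈ A
      · simp only [hH]
        rw [indicator_of_mem h2, indicator_of_mem (show z ∈ SQ ∩ A from ⟨h, h2⟩), ex_Ph]
        ring
      · simp only [hH]
        rw [indicator_of_notMem h2, indicator_of_notMem (fun h3 => h2 h3.2), zero_mul]
    · rw [indicator_of_notMem h, hsupp z h, zero_mul]
  simp only [e1]
  rw [hpl, ← lintegral_indicator (SQ_meas.inter hA)]
  apply lintegral_congr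
  intro z
  by_cases h : z ∈ SQ ∩ A
  · rw [indicator_of_mem h]
    simp only [hH]
    rw [indicator_of_mem h, enorm_mul, ← ofReal_norm (exx _ _), ex_norm, ENNReal.ofReal_one, mul_one]
  · rw [indicator_of_notMem h]
    simp only [hH]
    rw [indicator_of_notMem h]
    simp

/-- **the time integral** -/
lemma time' (φ : Poly) (k : ℕ) (W : ℝ × ℝ → ℝ≥0∞) (hW : Measurable W) :
    ∫⁻ t : ℝ, ∫⁻ z in SQ ∩ AA φ t k, W z ≤ ENNReal.ofReal (2 ^ k) * ∫⁻ z in SQ, W z := by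
  set f : ℝ × (ℝ × ℝ) → ℝ≥0∞ := {w : ℝ × (ℝ × ℝ) | w.2 ∈ BB φ (2 ^ k) w.1}ᶜ.indicator
    (fun w => W w.2) with hf
  have hfm : Measurable f := (hW.comp measurable_snd).indicator (BB_joint φ _).compl
  calc ∫⁻ t : ℝ, ∫⁻ z in SQ ∩ AA φ t k, W z ≤ ∫⁻ t : ℝ, ∫⁻ z in SQ, f (t, z) := by
        apply lintegral_mono
        intro t
        have e1 : ∀ z, f (t, z) = (BB φ (2 ^ k) t)ᶜ.indicator W z := by
          intro z
          simp only [hf]
          by_cases h : z ∈ BB φ (2 ^ k) t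
          · have h1 : ((t, z) : ℝ × (ℝ × ℝ)) ∉ {w : ℝ × (ℝ × ℝ) | w.2 ∈ BB φ (2 ^ k) w.1}ᶜ :=
              fun h' => h' h
            have h2 : z ∉ (BB φ (2 ^ k) t)ᶜ := fun h' => h' h
            rw [indicator_of_notMem h1, indicator_of_notMem h2]
          · have h1 : ((t, z) : ℝ × (ℝ × ℝ)) ∈ {w : ℝ × (ℝ × ℝ) | w.2 ∈ BB φ (2 ^ k) w.1}ᶜ := h
            have h2 : z ∈ (BB φ (2 ^ k) t)ᶜ := h
            rw [indicator_of_mem h1, indicator_of_mem h2]
        simp only [e1]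
        rw [lintegral_indicator (BB_meas _ _ _).compl, Measure.restrict_restrict (BB_meas _ _ _).compl,
          inter_comm (BB φ (2 ^ k) t)ᶜ]
        exact lintegral_mono_set (inter_subset_inter_right _ (AA_sub φ t k))
    _ = ∫⁻ z in SQ, ∫⁻ t : ℝ, f (t, z) := by
        rw [lintegral_lintegral_swap]
        exact hfm.aemeasurable
    _ ≤ ∫⁻ z in SQ, ENNReal.ofReal (2 ^ k) * W z := by
        apply lintegral_mono
        intro z
        have e1 : ∀ t, f (t, z) = {t : ℝ | z ∉ BB φ (2 ^ k) t}.indicator (fun _ => W z) t := by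
          intro t
          simp only [hf]
          by_cases h : z ∈ BB φ (2 ^ k) t
          · have h1 : ((t, z) : ℝ × (ℝ × ℝ)) ∉ {w : ℝ × (ℝ × ℝ) | w.2 ∈ BB φ (2 ^ k) w.1}ᶜ :=
              fun h' => h' h
            have h2 : t ∉ {t : ℝ | z ∉ BB φ (2 ^ k) t} := fun h' => h' h
            rw [indicator_of_notMem h1, indicator_of_notMem h2]
          · have h1 : ((t, z) : ℝ × (ℝ × ℝ)) ∈ {w : ℝ × (ℝ × ℝ) | w.2 ∈ BB φ (2 ^ k) w.1}ᶜ := h
            have h2 : t ∈ {t : ℝ | z ∉ BB φ (2 ^ k) t} := h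
            rw [indicator_of_mem h1, indicator_of_mem h2]
        simp only [e1]
        rw [lintegral_indicator_const, mul_comm]
        · gcongr
          exact vol_BB φ (2 ^ k) (by positivity) z
        · have h := (BB_joint φ (2 ^ k)).compl
          have e2 : {t : ℝ | z ∉ BB φ (2 ^ k) t} =
              (fun t : ℝ => (t, z)) ⁻¹' {w : ℝ × (ℝ × ℝ) | w.2 ∈ BB φ (2 ^ k) w.1}ᶜ := by
            ext t; simp
          rw [e2]
          exact h.preimage (by fun_prop)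
    _ = _ := by
        rw [lintegral_const_mul _ hW]

/-- the sup bound without amplitude -/
lemma sup_one {D : ℕ} {φ : Poly} (hφ : φ.totalDegree ≤ D) (k : ℕ) (y : ℝ × ℝ) (t : ℝ) :
    ‖∫ z in SQ, (AA φ t k).indicator (exx (Ph φ y t)) z‖ ≤ SS D 1 k := by
  cases k with
  | zero =>
    have hb : ∀ z, ‖(AA φ t 0).indicator (exx (Ph φ y t)) z‖ ≤ 1 := by
      intro z
      by_cases h : z ∈ AA φ t 0
      · rw [indicator_of_mem h, ex_norm]
      · rw [indicator_of_notMem h, norm_zero]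
        norm_num
    have hfin : IsFiniteMeasure ((volume : Measure (ℝ × ℝ)).restrict SQ) := ⟨by
      rw [Measure.restrict_apply_univ, SQ_vol]
      norm_num⟩
    have h1 : ‖∫ z in SQ, (AA φ t 0).indicator (exx (Ph φ y t)) z‖ ≤ 1 * (volume.restrict SQ).real univ :=
      norm_integral_le_of_norm_le_const (ae_of_all _ hb)
    refine h1.trans (le_of_eq ?_)
    rw [Measure.real, Measure.restrict_apply_univ, SQ_vol]
    simp [SS]
  | succ j =>
    have hc : ∀ c : ℝ, eVariationOn (fun _ : ℝ => (1 : ℂ)) (Icc (-1) 1) ≤ ENNReal.ofReal 1 := by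
      intro _
      rw [eVariationOn.constant_on]
      · exact zero_le
      · intro a ha b hb
        simp only [mem_image] at ha hb
        obtain ⟨_, _, rfl⟩ := ha
        obtain ⟨_, _, rfl⟩ := hb
        rfl
    have h1 := supb (deg_Ph hφ y t) j (2 ^ (j + 1)) (fun _ => 1) measurable_const 1 zero_le_one
      (fun _ => by simp) hc hc
    rw [Reg_Ph] at h1
    simp only [one_mul] at h1
    rw [← ofReal_norm] at h1
    have h2 := (ENNReal.ofReal_le_ofReal_iff (by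
      have := Pool.Agent.Y183.PP.c2_nonneg (D + 2)
      positivity)).mp h1
    exact h2

/-- the sup bound of a piece for an average -/
lemma sup_av {D : ℕ} {φ : Poly} (hφ : φ.totalDegree ≤ D) (k : ℕ) (y : ℝ × ℝ) (t : ℝ) (δ : ℝ)
    (hδ : 0 < δ) (H : ℝ × ℝ → ℂ) (hH : Integrable H) (hHm : Measurable H) :
    ‖Fp φ (av δ H) (AA φ t k) y t‖ₑ ≤ ENNReal.ofReal (SS D 1 k / δ) * (∫⁻ z, ‖H z‖ₑ ^ 2) ^ (1 / 2 : ℝ) := by
  set F : ℝ × ℝ → ℂ := (SQ ∩ AA φ t k).indicator (exx (Ph φ y t)) with hF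
  have hSm : MeasurableSet (SQ ∩ AA φ t k) := SQ_meas.inter (AA_meas φ t k)
  have hFm : Measurable F := (ex_cont _).measurable.indicator hSm
  have hFB : ∀ z, ‖F z‖ ≤ 1 := by
    intro z
    simp only [hF]
    by_cases h : z ∈ SQ ∩ AA φ t k
    · rw [indicator_of_mem h, ex_norm]
    · rw [indicator_of_notMem h, norm_zero]
      norm_num
  have hFi : Integrable F := by
    simp only [hF]
    rw [integrable_indicator_iff hSm]
    apply Measure.integrableOn_of_bounded (M := 1)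
    · refine ((measure_mono inter_subset_left).trans_lt ?_).ne
      rw [SQ_vol]; norm_num
    · exact (ex_cont _).aestronglyMeasurable
    · exact ae_of_all _ fun z => by rw [ex_norm]
  have hS : ∀ y', ‖∫ z, F z * ch y' z‖ ≤ SS D 1 k := by
    intro y'
    have h1 := sup_one hφ k (y + y') t
    refine le_trans (le_of_eq ?_) h1
    congr 1
    rw [← integral_indicator SQ_meas]
    congr 1
    ext z
    by_cases h : z ∈ SQ
    · rw [indicator_of_mem h]
      by_cases h2 : z ∈ AA φ t k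
      · simp only [hF]
        rw [indicator_of_mem h2, indicator_of_mem (show z ∈ SQ ∩ AA φ t k from ⟨h, h2⟩)]
        have e1 := ex_Ph φ y t z
        have e2 := ex_Ph φ (y + y') t z
        unfold exx
        rw [e1, e2, mul_assoc]
        congr 1
        unfold Pool.Agent.Y183.PP.ch
        rw [← Complex.exp_add]
        congr 1
        simp only [Prod.fst_add, Prod.snd_add]
        push_cast
        ring
      · simp only [hF]
        rw [indicator_of_notMem h2, indicator_of_notMem (fun h3 => h2 h3.2), zero_mul]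
    · rw [indicator_of_notMem h]
      simp only [hF]
      rw [indicator_of_notMem (fun h3 => h h3.1), zero_mul]
  have h1 := av_sup δ hδ F H hFm hFi 1 hFB hH hHm (SS D 1 k) hS
  refine le_trans (le_of_eq ?_) h1
  congr 1
  unfold Fp
  rw [← integral_indicator SQ_meas]
  congr 1
  ext z
  by_cases h : z ∈ SQ
  · rw [indicator_of_mem h]
    by_cases h2 : z ∈ AA φ t k
    · simp only [hF]
      rw [indicator_of_mem h2, indicator_of_mem (show z ∈ SQ ∩ AA φ t k from ⟨h, h2⟩)]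
      ring
    · simp only [hF]
      rw [indicator_of_notMem h2, indicator_of_notMem (fun h3 => h2 h3.2), zero_mul]
  · rw [indicator_of_notMem h]
    simp only [hF]
    rw [indicator_of_notMem (fun h3 => h h3.1), zero_mul]

lemma av_meas (δ : ℝ) (H : ℝ × ℝ → ℂ) (hHm : Measurable H) : Measurable (av δ H) := by
  unfold av
  apply Measurable.const_mul
  apply StronglyMeasurable.measurable
  apply StronglyMeasurable.integral_prod_right'
    (f := fun w : (ℝ × ℝ) × (ℝ × ℝ) => bi δ w.2 * H (w.1 - w.2))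
  apply Measurable.stronglyMeasurable
  exact ((bi_meas δ).comp measurable_snd).mul (hHm.comp (measurable_fst.sub measurable_snd))

lemma av_bd (δ : ℝ) (hδ : 0 < δ) (H : ℝ × ℝ → ℂ) (hH : Integrable H) (z : ℝ × ℝ) :
    ‖av δ H z‖ ≤ (δ ^ 2)⁻¹ * ∫ u, ‖H u‖ := by
  unfold av
  rw [norm_mul, Complex.norm_real, Real.norm_eq_abs, abs_of_nonneg (by positivity)]
  gcongr
  have h2 := integral_sub_left_eq_self (fun u => ‖H u‖) (volume : Measure (ℝ × ℝ)) z
  rw [← h2]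
  refine (norm_integral_le_integral_norm _).trans ?_
  apply integral_mono_of_nonneg (ae_of_all _ fun u => norm_nonneg _) (hH.norm.comp_sub_left z)
  refine ae_of_all _ fun u => ?_
  simp only
  rw [norm_mul]
  calc ‖bi δ u‖ * ‖H (z - u)‖ ≤ 1 * ‖H (z - u)‖ := by
        gcongr
        exact bi_bd δ u
    _ = _ := one_mul _

/-- averages of a family -/
lemma jens (δ : ℝ) (hδ : 0 < δ) (Ψ : (ℝ × ℝ) × (ℝ × ℝ) → ℂ) (hΨ : Measurable Ψ) :
    ∫⁻ z, ‖(((δ ^ 2)⁻¹ : ℝ) : ℂ) * ∫ u, bi δ u * Ψ (z, u)‖ₑ ^ 2 ≤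
      ENNReal.ofReal ((δ ^ 2)⁻¹) * ∫⁻ u in bq δ, ∫⁻ z, ‖Ψ (z, u)‖ₑ ^ 2 := by
  have hvol := bq_vol δ hδ.le
  have hpt : ∀ z, ‖(((δ ^ 2)⁻¹ : ℝ) : ℂ) * ∫ u, bi δ u * Ψ (z, u)‖ₑ ^ 2 ≤
      ENNReal.ofReal ((δ ^ 2)⁻¹) * ∫⁻ u in bq δ, ‖Ψ (z, u)‖ₑ ^ 2 := by
    intro z
    rw [enorm_mul, mul_pow]
    have a1 : ‖(((δ ^ 2)⁻¹ : ℝ) : ℂ)‖ₑ = ENNReal.ofReal ((δ ^ 2)⁻¹) := by
      rw [← ofReal_norm, Complex.norm_real, Real.norm_eq_abs, abs_of_nonneg (by positivity)]
    have hm : Measurable fun u => ‖Ψ (z, u)‖ₑ := (hΨ.comp (measurable_const.prodMk measurable_id)).enorm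
    have a2 : ‖∫ u, bi δ u * Ψ (z, u)‖ₑ ≤ ∫⁻ u in bq δ, 1 * ‖Ψ (z, u)‖ₑ := by
      refine (enorm_integral_le_lintegral_enorm _).trans (le_of_eq ?_)
      rw [← lintegral_indicator (bq_meas δ)]
      apply lintegral_congr
      intro u
      unfold bi
      by_cases hu : u ∈ bq δ
      · rw [indicator_of_mem hu, indicator_of_mem hu, one_mul, one_mul]
      · rw [indicator_of_notMem hu, indicator_of_notMem hu, zero_mul, enorm_zero]
    have a3 := ENNReal.lintegral_mul_le_Lp_mul_Lq ((volume : Measure (ℝ × ℝ)).restrict (bq δ))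
      (Real.HolderConjugate.two_two) (f := fun _ => 1) (g := fun u => ‖Ψ (z, u)‖ₑ)
      aemeasurable_const hm.aemeasurable
    simp only [Pi.mul_apply, ENNReal.one_rpow, lintegral_one, Measure.restrict_apply_univ] at a3
    rw [hvol] at a3
    have a4 : (∫⁻ u in bq δ, 1 * ‖Ψ (z, u)‖ₑ) ^ 2 ≤ ENNReal.ofReal (δ ^ 2) *
        ∫⁻ u in bq δ, ‖Ψ (z, u)‖ₑ ^ 2 := by
      calc (∫⁻ u in bq δ, 1 * ‖Ψ (z, u)‖ₑ) ^ 2 ≤ (ENNReal.ofReal (δ ^ 2) ^ (1 / 2 : ℝ) *
            (∫⁻ u in bq δ, ‖Ψ (z, u)‖ₑ ^ (2 : ℝ)) ^ (1 / 2 : ℝ)) ^ 2 := by gcongr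
        _ = _ := by
            rw [mul_pow, ← ENNReal.rpow_natCast, ← ENNReal.rpow_mul, ← ENNReal.rpow_natCast (_ ^ (1 / 2 : ℝ)),
              ← ENNReal.rpow_mul]
            norm_num
    rw [a1]
    calc ENNReal.ofReal ((δ ^ 2)⁻¹) ^ 2 * ‖∫ u, bi δ u * Ψ (z, u)‖ₑ ^ 2
        ≤ ENNReal.ofReal ((δ ^ 2)⁻¹) ^ 2 * (ENNReal.ofReal (δ ^ 2) * ∫⁻ u in bq δ, ‖Ψ (z, u)‖ₑ ^ 2) := by
          gcongr
          exact (pow_le_pow_left' a2 2).trans a4
      _ = _ := by
          rw [← mul_assoc, ← ENNReal.ofReal_pow (by positivity), ← ENNReal.ofReal_mul (by positivity)]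
          congr 2
          field_simp
  have hjm : Measurable fun p : (ℝ × ℝ) × (ℝ × ℝ) => ‖Ψ (p.1, p.2)‖ₑ ^ 2 := hΨ.enorm.pow_const 2
  calc ∫⁻ z, ‖(((δ ^ 2)⁻¹ : ℝ) : ℂ) * ∫ u, bi δ u * Ψ (z, u)‖ₑ ^ 2
      ≤ ∫⁻ z, ENNReal.ofReal ((δ ^ 2)⁻¹) * ∫⁻ u in bq δ, ‖Ψ (z, u)‖ₑ ^ 2 :=
        lintegral_mono hpt
    _ = ENNReal.ofReal ((δ ^ 2)⁻¹) * ∫⁻ z, ∫⁻ u in bq δ, ‖Ψ (z, u)‖ₑ ^ 2 :=
        lintegral_const_mul' _ _ ENNReal.ofReal_ne_top
    _ = ENNReal.ofReal ((δ ^ 2)⁻¹) * ∫⁻ u in bq δ, ∫⁻ z, ‖Ψ (z, u)‖ₑ ^ 2 := by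
        rw [lintegral_lintegral_swap]
        exact hjm.aemeasurable

/-- averages decrease the norm -/
lemma av_sq (δ : ℝ) (hδ : 0 < δ) (H : ℝ × ℝ → ℂ) (hHm : Measurable H) :
    ∫⁻ z, ‖av δ H z‖ₑ ^ 2 ≤ ∫⁻ z, ‖H z‖ₑ ^ 2 := by
  have h := jens δ hδ (fun p => H (p.1 - p.2)) (hHm.comp (measurable_fst.sub measurable_snd))
  unfold av
  refine h.trans (le_of_eq ?_)
  have e : ∀ u : ℝ × ℝ, ∫⁻ z, ‖H (z - u)‖ₑ ^ 2 = ∫⁻ z, ‖H z‖ₑ ^ 2 := fun u =>
    lintegral_sub_right_eq_self (fun z => ‖H z‖ₑ ^ 2) u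
  simp only [e]
  rw [lintegral_const, Measure.restrict_apply_univ, bq_vol δ hδ.le, mul_comm (∫⁻ z, ‖H z‖ₑ ^ 2),
    ← mul_assoc, ← ENNReal.ofReal_mul (by positivity), inv_mul_cancel₀ (by positivity),
    ENNReal.ofReal_one, one_mul]

/-- averages are close to the function -/
lemma av_close (δ : ℝ) (hδ : 0 < δ) (g : ℝ × ℝ → ℂ) (hg : Measurable g) (hgi : Integrable g)
    (B : ℝ≥0∞) (hB : ∀ u ∈ bq δ, ∫⁻ z, ‖g (z - u) - g z‖ₑ ^ 2 ≤ B) :
    ∫⁻ z, ‖av δ g z - g z‖ₑ ^ 2 ≤ B := by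
  have h := jens δ hδ (fun p => g (p.1 - p.2) - g p.1)
    ((hg.comp (measurable_fst.sub measurable_snd)).sub (hg.comp measurable_fst))
  have e1 : ∀ z, av δ g z - g z = (((δ ^ 2)⁻¹ : ℝ) : ℂ) * ∫ u, bi δ u * (g (z - u) - g z) := by
    intro z
    have i1 : Integrable fun u => bi δ u * g (z - u) := by
      apply (hgi.comp_sub_left z).bdd_mul (c := 1) (bi_meas δ).aestronglyMeasurable
      exact ae_of_all _ fun u => bi_bd δ u
    have i2 : Integrable fun u => bi δ u * g z := (bi_int δ hδ.le).mul_const _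
    have e2 : ∫ u, bi δ u = ((δ ^ 2 : ℝ) : ℂ) := by
      unfold bi
      rw [integral_indicator_const _ (bq_meas δ), Measure.real, bq_vol δ hδ.le,
        ENNReal.toReal_ofReal (by positivity)]
      simp
    have e3 : ∫ u, bi δ u * (g (z - u) - g z) = (∫ u, bi δ u * g (z - u)) - (∫ u, bi δ u) * g z := by
      rw [← integral_mul_const, ← integral_sub i1 i2]
      congr 1
      ext u
      ring
    rw [e3, e2]
    unfold av
    have hne : ((δ ^ 2 : ℝ) : ℂ) ≠ 0 := by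
      have : (δ ^ 2 : ℝ) ≠ 0 := by positivity
      exact_mod_cast this
    rw [mul_sub, ← mul_assoc, Complex.ofReal_inv, inv_mul_cancel₀ hne, one_mul]
  simp only [e1]
  refine h.trans ?_
  calc ENNReal.ofReal ((δ ^ 2)⁻¹) * ∫⁻ u in bq δ, ∫⁻ z, ‖g (z - u) - g z‖ₑ ^ 2
      ≤ ENNReal.ofReal ((δ ^ 2)⁻¹) * ∫⁻ _u in bq δ, B := by
        gcongr 1
        exact setLIntegral_mono measurable_const hB
    _ = B := by
        rw [setLIntegral_const, bq_vol δ hδ.le, mul_comm B, ← mul_assoc, ← ENNReal.ofReal_mul (by positivity),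
          inv_mul_cancel₀ (by positivity), ENNReal.ofReal_one, one_mul]

end Pool.Agent.Y250.PT
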