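import Pool.Agent.Y250.PT.I
set_option autoImplicit false

/-! Averages over small squares: the space time estimate. -/

namespace Pool.Agent.Y250.PT

open MeasureTheory Set Complex Filter Topology
open scoped ENNReal NNReal
open Pool.Agent.Y183.PP (ch planc Poly ev SQ SQ_meas SQ_vol Ph ex_Ph Fp AA AA_meas AA_sub AA_sum BB
  BB_joint BB_meas BB_empty vol_BB SS SS_bound SS_nonneg supb Reg_Ph deg_Ph ex_norm ex_cont wsum part_int)

/-- the trivial bound of a part -/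
lemma part_triv (φ : Poly) (g : ℝ × ℝ → ℂ) (hg : Measurable g) (A : Set (ℝ × ℝ)) (y : ℝ × ℝ) (t : ℝ) :
    ‖Fp φ g A y t‖ₑ ≤ 2 * (∫⁻ z, ‖g z‖ₑ ^ 2) ^ (1 / 2 : ℝ) := by
  have h1 : ‖Fp φ g A y t‖ₑ ≤ ∫⁻ z in SQ, 1 * ‖g z‖ₑ := by
    unfold Fp
    refine (enorm_integral_le_lintegral_enorm _).trans ?_
    apply lintegral_mono
    intro z
    simp only
    by_cases h : z ∈ A
    · rw [indicator_of_mem h, enorm_mul, ← ofReal_norm (Pool.Agent.Y183.PP.ex _ _), ex_norm,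
        ENNReal.ofReal_one, mul_one, one_mul]
    · rw [indicator_of_notMem h, enorm_zero]
      exact zero_le
  have a3 := ENNReal.lintegral_mul_le_Lp_mul_Lq ((volume : Measure (ℝ × ℝ)).restrict SQ)
    (Real.HolderConjugate.two_two) (f := fun _ => 1) (g := fun z => ‖g z‖ₑ)
    aemeasurable_const hg.enorm.aemeasurable
  simp only [Pi.mul_apply, ENNReal.rpow_two, one_pow, lintegral_one, Measure.restrict_apply_univ,
    SQ_vol] at a3
  have h4 : (4 : ℝ≥0∞) ^ (1 / 2 : ℝ) = 2 := by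
    rw [show (4 : ℝ≥0∞) = 2 ^ (2 : ℝ) by norm_num, ← ENNReal.rpow_mul]
    norm_num
  rw [h4] at a3
  refine h1.trans (a3.trans ?_)
  gcongr
  exact Measure.restrict_le_self

/-- the estimate for fixed time -/
lemma fixed_av {D : ℕ} {φ : Poly} (hφ : φ.totalDegree ≤ D) (δ : ℝ) (hδ : 0 < δ) (H : ℝ × ℝ → ℂ)
    (hH : Integrable H) (hHm : Measurable H) (q θ : ℝ) (hθ1 : 0 ≤ θ) (hθ2 : θ ≤ q - 2)
    (a : ℕ → ℝ≥0∞) (ha0 : ∀ k, a k ≠ 0) (ha : ∀ k, a k ≠ ∞) (t : ℝ) :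
    ∫⁻ y, ‖∫ z in SQ, av δ H z * exx (Ph φ y t) z‖ₑ ^ q ≤
      (∑' k, a k) ^ (q - 1) * ∑' k, a k ^ (1 - q) * (ENNReal.ofReal (SS D 1 k / δ) ^ θ *
        (2 ^ (q - 2 - θ) * ((∫⁻ z, ‖H z‖ₑ ^ 2) ^ (1 / 2 : ℝ)) ^ (q - 2)) *
          ∫⁻ z in SQ ∩ AA φ t k, ‖av δ H z‖ₑ ^ 2) := by
  set G := av δ H with hG
  have hGm : Measurable G := av_meas δ H hHm
  set V : ℝ := (δ ^ 2)⁻¹ * ∫ u, ‖H u‖ with hV
  have hV0 : 0 ≤ V := mul_nonneg (by positivity) (integral_nonneg fun _ => norm_nonneg _)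
  have hGB : ∀ z, ‖G z‖ ≤ V := av_bd δ hδ H hH
  set K : ℝ≥0∞ := (∫⁻ z, ‖H z‖ₑ ^ 2) ^ (1 / 2 : ℝ) with hK
  obtain ⟨J, hJ⟩ := BB_empty φ t
  set F := Finset.range (J + 1) with hF
  -- decomposition
  have hdec : ∀ y, ∫ z in SQ, G z * exx (Ph φ y t) z = ∑ k ∈ F, Fp φ G (AA φ t k) y t := by
    intro y
    unfold Fp
    rw [← integral_finsetSum _ (fun k _ => part_int φ G hGm V hV0 hGB _ (AA_meas φ t k) y t)]
    apply setIntegral_congr_fun SQ_meas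
    intro z hz
    simp only
    rw [← AA_sum φ t (fun z => G z * Pool.Agent.Y183.PP.ex (Ph φ y t) z) J z, indicator_of_mem (hJ z hz)]
  have hsq : (∫⁻ z, ‖G z‖ₑ ^ 2) ^ (1 / 2 : ℝ) ≤ K := by
    rw [hK]
    exact ENNReal.rpow_le_rpow (av_sq δ hδ H hHm) (by norm_num)
  have hsup : ∀ k y, ‖Fp φ G (AA φ t k) y t‖ₑ ^ (q - 2) ≤ ENNReal.ofReal (SS D 1 k / δ) ^ θ *
      (2 ^ (q - 2 - θ) * K ^ (q - 2)) := by
    intro k y
    have h1 := sup_av hφ k y t δ hδ H hH hHm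
    have h2 : ‖Fp φ G (AA φ t k) y t‖ₑ ≤ 2 * K :=
      (part_triv φ G hGm (AA φ t k) y t).trans (by gcongr)
    have e1 : ‖Fp φ G (AA φ t k) y t‖ₑ ^ (q - 2) = ‖Fp φ G (AA φ t k) y t‖ₑ ^ θ *
        ‖Fp φ G (AA φ t k) y t‖ₑ ^ (q - 2 - θ) := by
      rw [← ENNReal.rpow_add_of_nonneg _ _ hθ1 (by linarith)]
      congr 1
      ring
    have h3 : 0 ≤ q - 2 - θ := by linarith
    rw [e1]
    calc ‖Fp φ G (AA φ t k) y t‖ₑ ^ θ * ‖Fp φ G (AA φ t k) y t‖ₑ ^ (q - 2 - θ)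
        ≤ (ENNReal.ofReal (SS D 1 k / δ) * K) ^ θ * (2 * K) ^ (q - 2 - θ) := by gcongr
      _ = ENNReal.ofReal (SS D 1 k / δ) ^ θ * (2 ^ (q - 2 - θ) * (K ^ θ * K ^ (q - 2 - θ))) := by
          rw [ENNReal.mul_rpow_of_nonneg _ _ hθ1, ENNReal.mul_rpow_of_nonneg _ _ h3]
          ring
      _ = _ := by
          rw [← ENNReal.rpow_add_of_nonneg _ _ hθ1 h3]
          congr 3
          ring
  have hmeas1 : ∀ k, Measurable fun y => ‖Fp φ G (AA φ t k) y t‖ₑ := by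
    intro k
    apply Measurable.enorm
    unfold Fp
    apply StronglyMeasurable.measurable
    apply StronglyMeasurable.integral_prod_right'
      (f := fun w : (ℝ × ℝ) × (ℝ × ℝ) => (AA φ t k).indicator
        (fun z => G z * Pool.Agent.Y183.PP.ex (Ph φ w.1 t) z) w.2)
    apply Measurable.stronglyMeasurable
    have e : (fun w : (ℝ × ℝ) × (ℝ × ℝ) =>
        (AA φ t k).indicator (fun z => G z * Pool.Agent.Y183.PP.ex (Ph φ w.1 t) z) w.2) =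
        fun w => ((AA φ t k).indicator (fun z => G z * Pool.Agent.Y183.PP.ex (Ph φ 0 t) z) w.2) *
          ch w.1 w.2 := by
      ext w
      by_cases h : w.2 ∈ AA φ t k
      · rw [indicator_of_mem h, indicator_of_mem h, ex_Ph]
        ring
      · rw [indicator_of_notMem h, indicator_of_notMem h, zero_mul]
    rw [e]
    apply Measurable.mul
    · exact ((hGm.mul (ex_cont _).measurable).indicator (AA_meas φ t k)).comp measurable_snd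
    · unfold Pool.Agent.Y183.PP.ch
      fun_prop
  have hmeas : ∀ k, Measurable fun y => ‖Fp φ G (AA φ t k) y t‖ₑ ^ q := fun k =>
    (hmeas1 k).pow_const q
  have hpart : ∀ k, ∫⁻ y, ‖Fp φ G (AA φ t k) y t‖ₑ ^ q ≤ ENNReal.ofReal (SS D 1 k / δ) ^ θ *
      (2 ^ (q - 2 - θ) * K ^ (q - 2)) * ∫⁻ z in SQ ∩ AA φ t k, ‖G z‖ₑ ^ 2 := by
    intro k
    rw [← part_sq' φ G hGm V hV0 hGB _ (AA_meas φ t k) t, ← lintegral_const_mul _ ((hmeas1 k).pow_const 2)]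
    apply lintegral_mono
    intro y
    simp only
    have e : ‖Fp φ G (AA φ t k) y t‖ₑ ^ q = ‖Fp φ G (AA φ t k) y t‖ₑ ^ (q - 2) *
        ‖Fp φ G (AA φ t k) y t‖ₑ ^ 2 := by
      rw [← ENNReal.rpow_natCast, ← ENNReal.rpow_add_of_nonneg _ _ (by linarith) (by positivity)]
      congr 1
      push_cast
      ring
    rw [e]
    gcongr
    exact hsup k y
  have hsumF : ∑ k ∈ F, a k ≤ ∑' k, a k := ENNReal.sum_le_tsum F
  calc ∫⁻ y, ‖∫ z in SQ, G z * exx (Ph φ y t) z‖ₑ ^ q ≤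
      ∫⁻ y, (∑ k ∈ F, a k) ^ (q - 1) * ∑ k ∈ F, a k ^ (1 - q) * ‖Fp φ G (AA φ t k) y t‖ₑ ^ q := by
        apply lintegral_mono
        intro y
        simp only
        rw [hdec]
        refine le_trans ?_ (wsum F a (fun k => ‖Fp φ G (AA φ t k) y t‖ₑ) q (by linarith) ha0 ha)
        gcongr
        · linarith
        · exact enorm_sum_le _ _
    _ = (∑ k ∈ F, a k) ^ (q - 1) * ∑ k ∈ F, a k ^ (1 - q) *
        ∫⁻ y, ‖Fp φ G (AA φ t k) y t‖ₑ ^ q := by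
        rw [lintegral_const_mul', lintegral_finsetSum]
        · congr 1
          apply Finset.sum_congr rfl
          intro k _
          rw [lintegral_const_mul _ (hmeas k)]
        · intro k _
          exact (hmeas k).const_mul _
        · apply ENNReal.rpow_ne_top_of_nonneg (by linarith)
          exact (ENNReal.sum_lt_top.mpr fun k _ => (ha k).lt_top).ne
    _ ≤ (∑' k, a k) ^ (q - 1) * ∑ k ∈ F, a k ^ (1 - q) * (ENNReal.ofReal (SS D 1 k / δ) ^ θ *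
        (2 ^ (q - 2 - θ) * K ^ (q - 2)) * ∫⁻ z in SQ ∩ AA φ t k, ‖G z‖ₑ ^ 2) := by
        exact mul_le_mul' (ENNReal.rpow_le_rpow hsumF (by linarith))
          (Finset.sum_le_sum fun k _ => mul_le_mul_right (hpart k) _)
    _ ≤ _ := by
        gcongr
        exact ENNReal.sum_le_tsum F

/-- **averages over small squares** -/
theorem box (q θ : ℝ) (hθ1 : 1 < θ) (hθ2 : θ ≤ q - 2) :
    ∃ C : ℝ≥0, ∀ (D : ℕ) (φ : Poly), φ.totalDegree ≤ D → ∀ δ : ℝ, 0 < δ → ∀ H : ℝ × ℝ → ℂ,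
      Integrable H → Measurable H →
      ∫⁻ t : ℝ, ∫⁻ y : ℝ × ℝ, ‖∫ z in SQ, av δ H z * exx (Ph φ y t) z‖ₑ ^ q ≤
        C * ENNReal.ofReal ((1 + D : ℝ) ^ 5 / δ) ^ θ * ((∫⁻ z, ‖H z‖ₑ ^ 2) ^ (1 / 2 : ℝ)) ^ q := by
  have hθ0 : 0 ≤ θ := by linarith
  set δ0 : ℝ := (θ - 1) / (2 * (θ + q - 1)) with hδ0
  have hden : 0 < 2 * (θ + q - 1) := by linarith
  have hδ00 : 0 < δ0 := by rw [hδ0]; apply div_pos _ hden; linarith
  have hδ01 : δ0 ≤ 1 := by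
    rw [hδ0, div_le_one hden]
    linarith
  have hδe : δ0 * (θ + q - 1) = (θ - 1) / 2 := by
    rw [hδ0]
    have hne : θ + q - 1 ≠ 0 := by
      intro h
      linarith
    field_simp
  obtain ⟨C6, hC6, hSS⟩ := SS_bound δ0 hδ00 hδ01
  set a : ℕ → ℝ≥0∞ := fun k => ENNReal.ofReal ((2 : ℝ) ^ (-δ0 * k)) with ha
  have ha0 : ∀ k, a k ≠ 0 := by
    intro k
    simp only [ha, ne_eq, ENNReal.ofReal_eq_zero, not_le]
    positivity
  have hat : ∀ k, a k ≠ ∞ := fun k => ENNReal.ofReal_ne_top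
  -- geometric series
  have hgeo : ∀ c : ℝ, 0 < c → ∑' k : ℕ, ENNReal.ofReal ((2 : ℝ) ^ (-c * k)) ≠ ∞ := by
    intro c hc
    have e1 : ∀ k : ℕ, ENNReal.ofReal ((2 : ℝ) ^ (-c * k)) = ENNReal.ofReal ((2 : ℝ) ^ (-c)) ^ k := by
      intro k
      rw [← ENNReal.ofReal_pow (by positivity), ← Real.rpow_natCast, ← Real.rpow_mul (by norm_num)]
    simp only [e1]
    rw [ENNReal.tsum_geometric]
    rw [ne_eq, ENNReal.inv_eq_top, tsub_eq_zero_iff_le, not_le]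
    rw [← ENNReal.ofReal_one]
    apply (ENNReal.ofReal_lt_ofReal_iff (by norm_num)).mpr
    exact Real.rpow_lt_one_of_one_lt_of_neg (by norm_num) (by linarith)
  set E0 : ℝ≥0∞ := (∑' k, a k) ^ (q - 1) with hE0
  have hE0t : E0 ≠ ∞ := ENNReal.rpow_ne_top_of_nonneg (by linarith) (hgeo δ0 hδ00)
  set G0 : ℝ≥0∞ := ∑' k : ℕ, ENNReal.ofReal ((2 : ℝ) ^ (-((θ - 1) / 2) * k)) with hG0
  have hG0t : G0 ≠ ∞ := hgeo _ (by linarith)
  have h2t : (2 : ℝ≥0∞) ^ (q - 2 - θ) ≠ ∞ := ENNReal.rpow_ne_top_of_nonneg (by linarith) (by norm_num)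
  have hC6t : ENNReal.ofReal C6 ^ θ ≠ ∞ := ENNReal.rpow_ne_top_of_nonneg hθ0 ENNReal.ofReal_ne_top
  refine ⟨(E0 * (ENNReal.ofReal C6 ^ θ * 2 ^ (q - 2 - θ) * G0)).toNNReal, ?_⟩
  rw [ENNReal.coe_toNNReal (ENNReal.mul_ne_top hE0t (ENNReal.mul_ne_top
    (ENNReal.mul_ne_top hC6t h2t) hG0t))]
  intro D φ hφ δ hδ H hH hHm
  set K : ℝ≥0∞ := (∫⁻ z, ‖H z‖ₑ ^ 2) ^ (1 / 2 : ℝ) with hK
  have hGm : Measurable (av δ H) := av_meas δ H hHm
  refine (lintegral_mono fun t => fixed_av hφ δ hδ H hH hHm q θ hθ0 hθ2 a ha0 hat t).trans ?_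
  rw [← hE0, lintegral_const_mul' _ _ hE0t]
  -- measurability
  have hNm : ∀ k, Measurable fun t : ℝ => ∫⁻ z in SQ ∩ AA φ t k, ‖av δ H z‖ₑ ^ 2 := by
    intro k
    have hj : MeasurableSet {w : ℝ × (ℝ × ℝ) | w.2 ∈ SQ ∩ AA φ w.1 k} := by
      apply MeasurableSet.inter (measurable_snd SQ_meas)
      cases k with
      | zero => exact (BB_joint φ 1).compl
      | succ j => exact (BB_joint φ _).diff (BB_joint φ _)
    have e : (fun t : ℝ => ∫⁻ z in SQ ∩ AA φ t k, ‖av δ H z‖ₑ ^ 2) = fun t => ∫⁻ z,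
        {w : ℝ × (ℝ × ℝ) | w.2 ∈ SQ ∩ AA φ w.1 k}.indicator (fun w => ‖av δ H w.2‖ₑ ^ 2) (t, z) := by
      ext t
      rw [← lintegral_indicator (SQ_meas.inter (AA_meas φ t k))]
      apply lintegral_congr
      intro z
      by_cases h : z ∈ SQ ∩ AA φ t k
      · rw [indicator_of_mem h, indicator_of_mem (show ((t, z) : ℝ × (ℝ × ℝ)) ∈
          {w : ℝ × (ℝ × ℝ) | w.2 ∈ SQ ∩ AA φ w.1 k} from h)]
      · rw [indicator_of_notMem h, indicator_of_notMem (show ((t, z) : ℝ × (ℝ × ℝ)) ∉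
          {w : ℝ × (ℝ × ℝ) | w.2 ∈ SQ ∩ AA φ w.1 k} from h)]
    rw [e]
    exact (((hGm.comp measurable_snd).enorm.pow_const 2).indicator hj).lintegral_prod_right'
  rw [lintegral_tsum]
  swap
  · intro k
    exact (((hNm k).const_mul _).const_mul _).aemeasurable
  have hterm : ∀ k, ∫⁻ t : ℝ, a k ^ (1 - q) * (ENNReal.ofReal (SS D 1 k / δ) ^ θ *
      (2 ^ (q - 2 - θ) * K ^ (q - 2)) * ∫⁻ z in SQ ∩ AA φ t k, ‖av δ H z‖ₑ ^ 2) ≤
      ENNReal.ofReal ((2 : ℝ) ^ (-((θ - 1) / 2) * k)) * (ENNReal.ofReal C6 ^ θ * 2 ^ (q - 2 - θ) *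
        (ENNReal.ofReal ((1 + D : ℝ) ^ 5 / δ) ^ θ * K ^ q)) := by
    intro k
    rw [lintegral_const_mul _ ((hNm k).const_mul _), lintegral_const_mul _ (hNm k)]
    have ht : ∫⁻ t : ℝ, ∫⁻ z in SQ ∩ AA φ t k, ‖av δ H z‖ₑ ^ 2 ≤ ENNReal.ofReal (2 ^ k) * K ^ (2 : ℝ) := by
      refine (time' φ k _ (hGm.enorm.pow_const 2)).trans ?_
      gcongr
      calc ∫⁻ z in SQ, ‖av δ H z‖ₑ ^ 2 ≤ ∫⁻ z, ‖av δ H z‖ₑ ^ 2 :=
            lintegral_mono' Measure.restrict_le_self le_rfl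
        _ ≤ ∫⁻ z, ‖H z‖ₑ ^ 2 := av_sq δ hδ H hHm
        _ = _ := by
            rw [hK, ← ENNReal.rpow_mul]
            norm_num
    have hs : ENNReal.ofReal (SS D 1 k / δ) ^ θ ≤ ENNReal.ofReal C6 ^ θ *
        ENNReal.ofReal ((1 + D : ℝ) ^ 5 / δ) ^ θ * ENNReal.ofReal ((2 : ℝ) ^ (-(1 - δ0) * k * θ)) := by
      have e1 : ENNReal.ofReal ((2 : ℝ) ^ (-(1 - δ0) * k * θ)) =
          ENNReal.ofReal ((2 : ℝ) ^ (-(1 - δ0) * k)) ^ θ := by
        rw [ENNReal.ofReal_rpow_of_nonneg (by positivity) hθ0, ← Real.rpow_mul (by norm_num)]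
      rw [e1, ← ENNReal.mul_rpow_of_nonneg _ _ hθ0, ← ENNReal.mul_rpow_of_nonneg _ _ hθ0,
        ← ENNReal.ofReal_mul hC6.le, ← ENNReal.ofReal_mul (by positivity)]
      gcongr
      have h1 := hSS D 1 zero_le_one k
      rw [mul_one] at h1
      calc SS D 1 k / δ ≤ (C6 * (1 + D : ℝ) ^ 5 * (2 : ℝ) ^ (-(1 - δ0) * k)) / δ := by gcongr
        _ = _ := by ring
    have hak : a k ^ (1 - q) = ENNReal.ofReal ((2 : ℝ) ^ (-δ0 * k * (1 - q))) := by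
      simp only [ha]
      rw [ENNReal.ofReal_rpow_of_pos (by positivity), ← Real.rpow_mul (by norm_num)]
    calc a k ^ (1 - q) * (ENNReal.ofReal (SS D 1 k / δ) ^ θ * (2 ^ (q - 2 - θ) * K ^ (q - 2)) *
          ∫⁻ t : ℝ, ∫⁻ z in SQ ∩ AA φ t k, ‖av δ H z‖ₑ ^ 2)
        ≤ ENNReal.ofReal ((2 : ℝ) ^ (-δ0 * k * (1 - q))) * ((ENNReal.ofReal C6 ^ θ *
          ENNReal.ofReal ((1 + D : ℝ) ^ 5 / δ) ^ θ * ENNReal.ofReal ((2 : ℝ) ^ (-(1 - δ0) * k * θ))) *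
          (2 ^ (q - 2 - θ) * K ^ (q - 2)) * (ENNReal.ofReal (2 ^ k) * K ^ (2 : ℝ))) := by
          rw [hak]
          gcongr
      _ = (ENNReal.ofReal ((2 : ℝ) ^ (-δ0 * k * (1 - q))) *
            ENNReal.ofReal ((2 : ℝ) ^ (-(1 - δ0) * k * θ)) * ENNReal.ofReal (2 ^ k)) *
          (ENNReal.ofReal C6 ^ θ * 2 ^ (q - 2 - θ) *
            (ENNReal.ofReal ((1 + D : ℝ) ^ 5 / δ) ^ θ * (K ^ (q - 2) * K ^ (2 : ℝ)))) := by ring
      _ = _ := by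
          rw [← ENNReal.rpow_add_of_nonneg _ _ (by linarith) (by norm_num), ← ENNReal.ofReal_mul (by positivity),
            ← ENNReal.ofReal_mul (by positivity), ← Real.rpow_natCast 2 k,
            ← Real.rpow_add (by norm_num), ← Real.rpow_add (by norm_num)]
          congr 3
          · congr 1
            have : -δ0 * k * (1 - q) + -(1 - δ0) * k * θ + k = -((θ - 1) / 2) * k := by
              have h5 : (δ0 * (θ + q - 1)) * k = ((θ - 1) / 2) * k := by rw [hδe]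
              linarith
            exact this
          · congr 2
            ring
  calc E0 * ∑' k, ∫⁻ t : ℝ, a k ^ (1 - q) * (ENNReal.ofReal (SS D 1 k / δ) ^ θ *
        (2 ^ (q - 2 - θ) * K ^ (q - 2)) * ∫⁻ z in SQ ∩ AA φ t k, ‖av δ H z‖ₑ ^ 2)
      ≤ E0 * ∑' k : ℕ, ENNReal.ofReal ((2 : ℝ) ^ (-((θ - 1) / 2) * k)) *
        (ENNReal.ofReal C6 ^ θ * 2 ^ (q - 2 - θ) *
          (ENNReal.ofReal ((1 + D : ℝ) ^ 5 / δ) ^ θ * K ^ q)) := by
        gcongr with k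
        exact hterm k
    _ = _ := by
        rw [ENNReal.tsum_mul_right]
        ring

end Pool.Agent.Y250.PT
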