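import Pool.Agent.Y250.PT.K
import Pool.Agent.Y250.PT.A
set_option autoImplicit false

/-! Averages over small squares in the coordinates of the extension operator. -/

namespace Pool.Agent.Y250.PT

open MeasureTheory Set Complex Filter Topology
open scoped ENNReal NNReal
open Pool.Agent.Y183.PP (ch Poly ev ev_Ph ev_cont SQ SQ_meas SQ_vol Ph)

lemma ext_eq' (φ : Poly) (g : ℝ × ℝ → ℂ) (hg : ∀ x : ℝ × ℝ, x ∉ SQ → g x = 0) (ξ : ℝ × ℝ × ℝ) :
    ext univ (fun x => cexp (I * (ev φ x : ℂ)) * g x) ξ =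
      ∫ z in SQ, g z * exx (Ph φ ((-(2 * Real.pi)⁻¹ : ℝ) • (ξ.1, ξ.2.1))
        ((-(2 * Real.pi)⁻¹ : ℝ) • ξ.2.2)) z := by
  unfold ext
  rw [setIntegral_univ, setIntegral_eq_integral_of_forall_compl_eq_zero
    (fun y hy => by simp only [hg y hy, zero_mul])]
  apply integral_congr_ae
  refine ae_of_all _ fun z => ?_
  simp only
  unfold exx Pool.Agent.Y183.PP.ex
  rw [ev_Ph, ← mul_assoc, ← Complex.exp_add, mul_comm (g z)]
  congr 2
  have hpi := Real.pi_ne_zero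
  have e : (-(z.1 * ξ.1 + z.2 * ξ.2.1 + (z.1 ^ 2 + z.2 ^ 2) * ξ.2.2)) =
      2 * Real.pi * (z.1 * (((-(2 * Real.pi)⁻¹ : ℝ) • (ξ.1, ξ.2.1)).1) +
        z.2 * (((-(2 * Real.pi)⁻¹ : ℝ) • (ξ.1, ξ.2.1)).2) + (z.1 ^ 2 + z.2 ^ 2) *
        ((-(2 * Real.pi)⁻¹ : ℝ) • ξ.2.2)) := by
    simp only [Prod.smul_fst, Prod.smul_snd, smul_eq_mul]
    field_simp
    ring
  rw [← Complex.ofReal_neg, e]
  push_cast
  ring

lemma exp_ev_meas (φ : Poly) : Measurable fun x : ℝ × ℝ => cexp (I * (ev φ x : ℂ)) := by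
  apply Continuous.measurable
  have := ev_cont φ
  fun_prop

/-- the change of coordinates -/
lemma ext_norm (q : ℝ) (hq0 : 0 < q) (φ : Poly) (g : ℝ × ℝ → ℂ) (hgm : Measurable g)
    (hg : ∀ x : ℝ × ℝ, x ∉ SQ → g x = 0) :
    eLpNorm (ext univ (fun x => cexp (I * (ev φ x : ℂ)) * g x)) (ENNReal.ofReal q) volume =
      (ENNReal.ofReal ((2 * Real.pi) ^ 3) * ∫⁻ t : ℝ, ∫⁻ y : ℝ × ℝ,
        ‖∫ z in SQ, g z * exx (Ph φ y t) z‖ₑ ^ q) ^ (1 / q) := by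
  have hpi := Real.pi_pos
  set H : (ℝ × ℝ) × ℝ → ℝ≥0∞ := fun w =>
    ‖∫ z in SQ, g z * exx (Ph φ w.1 w.2) z‖ₑ ^ q with hH
  set K : ℝ × ℝ × ℝ → ℝ≥0∞ := fun ξ => H ((ξ.1, ξ.2.1), ξ.2.2) with hK
  have hKm : Measurable K := by
    have h1 := (ext_meas univ _ ((exp_ev_meas φ).mul hgm)).comp
      (measurable_const_smul (-(2 * Real.pi) : ℝ) :
      Measurable fun ξ : ℝ × ℝ × ℝ => (-(2 * Real.pi) : ℝ) • ξ)
    have e : K = fun ξ => ‖ext univ (fun x => cexp (I * (ev φ x : ℂ)) * g x)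
        ((-(2 * Real.pi) : ℝ) • ξ)‖ₑ ^ q := by
      ext ξ
      simp only [hK, hH]
      rw [ext_eq' φ g hg]
      congr 3
      simp only [Prod.smul_fst, Prod.smul_snd, Prod.smul_mk, smul_eq_mul]
      field_simp
    rw [e]
    exact h1.enorm.pow_const q
  have e1 : ∫⁻ ξ : ℝ × ℝ × ℝ, ‖ext univ (fun x => cexp (I * (ev φ x : ℂ)) * g x) ξ‖ₑ ^ q =
      ENNReal.ofReal ((2 * Real.pi) ^ 3) * ∫⁻ ξ, K ξ := by
    have h2 := scal K (-(2 * Real.pi)⁻¹) (by simp [hpi.ne'])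
    have e3 : |((-(2 * Real.pi)⁻¹) ^ 3)⁻¹| = (2 * Real.pi) ^ 3 := by
      rw [abs_inv, abs_pow, abs_neg, abs_inv, abs_of_pos (by positivity : 0 < 2 * Real.pi)]
      rw [inv_pow, inv_inv]
    rw [e3] at h2
    rw [← h2]
    apply lintegral_congr
    intro ξ
    simp only [hK, hH]
    rw [ext_eq' φ g hg]
    simp only [Prod.smul_fst, Prod.smul_snd, Prod.smul_mk]
  have e2 : ∫⁻ ξ, K ξ = ∫⁻ t : ℝ, ∫⁻ y : ℝ × ℝ, H (y, t) := by
    have h3 : MeasurePreserving (MeasurableEquiv.prodAssoc : (ℝ × ℝ) × ℝ ≃ᵐ ℝ × ℝ × ℝ) volume volume :=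
      volume_preserving_prodAssoc
    have h4 := h3.lintegral_comp hKm
    have h5 : ∀ w : (ℝ × ℝ) × ℝ, K (MeasurableEquiv.prodAssoc w) = H w := fun w => rfl
    simp only [h5] at h4
    have hHm : Measurable H := by
      have : H = fun w => K (MeasurableEquiv.prodAssoc w) := by ext w; rw [h5]
      rw [this]
      exact hKm.comp h3.measurable
    rw [← h4, Measure.volume_eq_prod, lintegral_prod_symm _ hHm.aemeasurable]
  rw [eLpNorm_eq_lintegral_rpow_enorm_toReal (by simpa using hq0) ENNReal.ofReal_ne_top,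
    ENNReal.toReal_ofReal hq0.le, e1, e2]

lemma l2_eq (H : ℝ × ℝ → ℂ) : eLpNorm H 2 volume = (∫⁻ z, ‖H z‖ₑ ^ 2) ^ (1 / 2 : ℝ) := by
  rw [eLpNorm_eq_lintegral_rpow_enorm_toReal (by norm_num) (by norm_num)]
  simp

/-- **averages in real coordinates** -/
theorem box_ext (q θ : ℝ) (hθ1 : 1 < θ) (hθ2 : θ ≤ q - 2) :
    ∃ C : ℝ≥0, ∀ (D : ℕ) (φ : Poly), φ.totalDegree ≤ D → ∀ δ : ℝ, 0 < δ → ∀ H : ℝ × ℝ → ℂ,
      Integrable H → Measurable H → (∀ x : ℝ × ℝ, x ∉ SQ → av δ H x = 0) →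
      eLpNorm (ext univ (fun x => cexp (I * (ev φ x : ℂ)) * av δ H x)) (ENNReal.ofReal q) volume ≤
        C * ENNReal.ofReal ((1 + D : ℝ) ^ 5) * ENNReal.ofReal (δ ^ (-(θ / q))) * eLpNorm H 2 volume := by
  obtain ⟨C, hC⟩ := box q θ hθ1 hθ2
  have hq0 : 0 < q := by linarith
  have hθq : θ / q ≤ 1 := by rw [div_le_one hq0]; linarith
  have hθq0 : 0 ≤ θ / q := by positivity
  have hpi := Real.pi_pos
  refine ⟨((ENNReal.ofReal ((2 * Real.pi) ^ 3) * C) ^ (1 / q)).toNNReal, ?_⟩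
  have hfin : (ENNReal.ofReal ((2 * Real.pi) ^ 3) * (C : ℝ≥0∞)) ^ (1 / q) ≠ ∞ :=
    ENNReal.rpow_ne_top_of_nonneg (by positivity) (ENNReal.mul_ne_top ENNReal.ofReal_ne_top
      ENNReal.coe_ne_top)
  rw [ENNReal.coe_toNNReal hfin]
  intro D φ hφ δ hδ H hH hHm hsup
  rw [ext_norm q hq0 φ (av δ H) (av_meas δ H hHm) hsup, l2_eq]
  set K : ℝ≥0∞ := (∫⁻ z, ‖H z‖ₑ ^ 2) ^ (1 / 2 : ℝ) with hK
  have h := hC D φ hφ δ hδ H hH hHm
  have hB : (1 : ℝ) ≤ (1 + D : ℝ) ^ 5 := one_le_pow₀ (by linarith [(Nat.cast_nonneg D : (0 : ℝ) ≤ D)])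
  calc (ENNReal.ofReal ((2 * Real.pi) ^ 3) * ∫⁻ t : ℝ, ∫⁻ y : ℝ × ℝ,
        ‖∫ z in SQ, av δ H z * exx (Ph φ y t) z‖ₑ ^ q) ^ (1 / q)
      ≤ (ENNReal.ofReal ((2 * Real.pi) ^ 3) * (C * ENNReal.ofReal ((1 + D : ℝ) ^ 5 / δ) ^ θ *
          K ^ q)) ^ (1 / q) := by gcongr
    _ = (ENNReal.ofReal ((2 * Real.pi) ^ 3) * C) ^ (1 / q) *
          ENNReal.ofReal ((1 + D : ℝ) ^ 5 / δ) ^ (θ / q) * K := by
        rw [show ENNReal.ofReal ((2 * Real.pi) ^ 3) * (C * ENNReal.ofReal ((1 + D : ℝ) ^ 5 / δ) ^ θ *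
          K ^ q) = (ENNReal.ofReal ((2 * Real.pi) ^ 3) * C) *
            ENNReal.ofReal ((1 + D : ℝ) ^ 5 / δ) ^ θ * K ^ q by ring,
          ENNReal.mul_rpow_of_nonneg _ _ (by positivity), ENNReal.mul_rpow_of_nonneg _ _ (by positivity),
          ← ENNReal.rpow_mul, ← ENNReal.rpow_mul, mul_one_div_cancel hq0.ne', ENNReal.rpow_one,
          mul_one_div]
    _ ≤ _ := by
        have e1 : ENNReal.ofReal ((1 + D : ℝ) ^ 5 / δ) ^ (θ / q) ≤
            ENNReal.ofReal ((1 + D : ℝ) ^ 5) * ENNReal.ofReal (δ ^ (-(θ / q))) := by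
          rw [ENNReal.ofReal_rpow_of_pos (by positivity), ← ENNReal.ofReal_mul (by positivity)]
          apply ENNReal.ofReal_le_ofReal
          rw [Real.div_rpow (by positivity) hδ.le, Real.rpow_neg hδ.le, div_eq_mul_inv]
          gcongr
          calc ((1 + D : ℝ) ^ 5) ^ (θ / q) ≤ ((1 + D : ℝ) ^ 5) ^ (1 : ℝ) :=
                Real.rpow_le_rpow_of_exponent_le hB hθq
            _ = _ := Real.rpow_one _
        calc (ENNReal.ofReal ((2 * Real.pi) ^ 3) * C) ^ (1 / q) *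
              ENNReal.ofReal ((1 + D : ℝ) ^ 5 / δ) ^ (θ / q) * K
            ≤ (ENNReal.ofReal ((2 * Real.pi) ^ 3) * C) ^ (1 / q) *
              (ENNReal.ofReal ((1 + D : ℝ) ^ 5) * ENNReal.ofReal (δ ^ (-(θ / q)))) * K := by gcongr
          _ = _ := by ring

/-- the four translates -/
noncomputable def mn (δ : ℝ) (g : ℝ × ℝ → ℂ) (z : ℝ × ℝ) : ℂ :=
  (1 / 4 : ℂ) * (g z + g (z - (δ, 0)) + g (z - (0, δ)) + g (z - (δ, δ)))

lemma bi_split (δ : ℝ) (hδ : 0 < δ) (u : ℝ × ℝ) : bi (2 * δ) u = bi δ u + bi δ (u - (δ, 0)) +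
    bi δ (u - (0, δ)) + bi δ (u - (δ, δ)) := by
  classical
  have key : ∀ v : ℝ × ℝ, bi δ v = if (0 ≤ v.1 ∧ v.1 < δ) ∧ (0 ≤ v.2 ∧ v.2 < δ) then 1 else 0 := by
    intro v
    unfold bi
    rw [indicator_apply]
    congr 1
  have key2 : bi (2 * δ) u = if (0 ≤ u.1 ∧ u.1 < 2 * δ) ∧ (0 ≤ u.2 ∧ u.2 < 2 * δ) then 1 else 0 := by
    unfold bi
    rw [indicator_apply]
    congr 1
  rw [key2, key, key, key, key]
  simp only [Prod.fst_sub, Prod.snd_sub, sub_zero]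
  by_cases a1 : 0 ≤ u.1 <;> by_cases a2 : u.1 < δ <;> by_cases a3 : u.1 < 2 * δ <;>
  by_cases b1 : 0 ≤ u.2 <;> by_cases b2 : u.2 < δ <;> by_cases b3 : u.2 < 2 * δ <;>
  first
  | (exfalso; linarith)
  | (have c1 : (0 ≤ u.1 - δ) ↔ ¬ (u.1 < δ) := by rw [sub_nonneg, not_lt]
     have c2 : (u.1 - δ < δ) ↔ u.1 < 2 * δ := by constructor <;> intro h <;> linarith
     have c3 : (0 ≤ u.2 - δ) ↔ ¬ (u.2 < δ) := by rw [sub_nonneg, not_lt]
     have c4 : (u.2 - δ < δ) ↔ u.2 < 2 * δ := by constructor <;> intro h <;> linarith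
     simp only [c1, c2, c3, c4]
     simp [a1, a2, a3, b1, b2, b3])

lemma bi_mul_int (δ : ℝ) (g : ℝ × ℝ → ℂ) (hg : Integrable g) (z c : ℝ × ℝ) :
    Integrable fun u => bi δ (u - c) * g (z - u) := by
  apply (hg.comp_sub_left z).bdd_mul (c := 1)
    ((bi_meas δ).comp (measurable_id.sub measurable_const)).aestronglyMeasurable
  exact ae_of_all _ fun u => bi_bd δ _

lemma sum4 (a b c d : ℝ × ℝ → ℂ) (ha : Integrable a) (hb : Integrable b) (hc : Integrable c)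
    (hd : Integrable d) : ∫ u, (a u + b u + c u + d u) =
      (∫ u, a u) + (∫ u, b u) + (∫ u, c u) + ∫ u, d u := by
  have h1 : Integrable fun u => a u + b u := ha.add hb
  have h2 : Integrable fun u => a u + b u + c u := h1.add hc
  rw [integral_add h2 hd, integral_add h1 hc, integral_add ha hb]

/-- an average over a square is an average over a quarter of a mean -/
lemma av_double (δ : ℝ) (hδ : 0 < δ) (g : ℝ × ℝ → ℂ) (hg : Integrable g) (z : ℝ × ℝ) :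
    av (2 * δ) g z = av δ (mn δ g) z := by
  have hsh : ∀ c : ℝ × ℝ, ∫ u, bi δ (u - c) * g (z - u) = ∫ u, bi δ u * g (z - u - c) := by
    intro c
    have h := integral_add_right_eq_self (μ := (volume : Measure (ℝ × ℝ)))
      (fun u : ℝ × ℝ => bi δ (u - c) * g (z - u)) c
    rw [← h]
    congr 1
    ext u
    rw [add_sub_cancel_right, sub_add_eq_sub_sub]
  have i0 : Integrable fun u => bi δ u * g (z - u) := by
    have := bi_mul_int δ g hg z 0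
    simpa using this
  have ic := fun c => bi_mul_int δ g hg z c
  have ic' : ∀ c : ℝ × ℝ, Integrable fun u => bi δ u * g (z - u - c) := by
    intro c
    have e : (fun u => bi δ u * g (z - u - c)) = fun u => bi δ (u - 0) * g ((z - c) - u) := by
      ext u
      rw [sub_zero]
      congr 2
      abel
    rw [e]
    exact bi_mul_int δ g hg (z - c) 0
  unfold av
  have e1 : ∫ u, bi (2 * δ) u * g (z - u) = (∫ u, bi δ u * g (z - u)) +
      (∫ u, bi δ u * g (z - u - (δ, 0))) + (∫ u, bi δ u * g (z - u - (0, δ))) +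
      ∫ u, bi δ u * g (z - u - (δ, δ)) := by
    rw [← hsh, ← hsh, ← hsh, ← sum4 _ _ _ _ i0 (ic _) (ic _) (ic _)]
    congr 1
    ext u
    rw [bi_split δ hδ u]
    ring
  have e2 : ∫ u, bi δ u * mn δ g (z - u) = (1 / 4 : ℂ) * ((∫ u, bi δ u * g (z - u)) +
      (∫ u, bi δ u * g (z - u - (δ, 0))) + (∫ u, bi δ u * g (z - u - (0, δ))) +
      ∫ u, bi δ u * g (z - u - (δ, δ))) := by
    rw [← sum4 _ _ _ _ i0 (ic' _) (ic' _) (ic' _), ← integral_const_mul]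
    congr 1
    ext u
    unfold mn
    ring
  rw [e1, e2]
  have e3 : ((((2 * δ) ^ 2)⁻¹ : ℝ) : ℂ) = (((δ ^ 2)⁻¹ : ℝ) : ℂ) * (1 / 4) := by
    rw [mul_pow, mul_inv]
    push_cast
    ring
  rw [e3]
  ring

end Pool.Agent.Y250.PT
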