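import Pool.Agent.Y250.PT.L
set_option autoImplicit false

/-! Telescoping: amplitudes with some regularity in the mean. -/

namespace Pool.Agent.Y250.PT

open MeasureTheory Set Complex Filter Topology
open scoped ENNReal NNReal
open Pool.Agent.Y183.PP (ch Poly ev ev_Ph ev_cont SQ SQ_meas SQ_vol Ph)

/-- amplitudes of regularity `s` in the mean -/
structure Reg (g : ℝ × ℝ → ℂ) (s : ℝ) (K : ℝ≥0) : Prop where
  meas : Measurable g
  supp : ∀ x : ℝ × ℝ, 1 / 4 < x.1 ^ 2 + x.2 ^ 2 → g x = 0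
  two : eLpNorm g 2 volume ≤ K
  diff : ∀ h : ℝ × ℝ, eLpNorm (fun x => g (x + h) - g x) 2 volume ≤ K * ENNReal.ofReal (‖h‖ ^ s)

/-- support in an enlarged square -/
def Sp (r : ℝ) (g : ℝ × ℝ → ℂ) : Prop :=
  ∀ x : ℝ × ℝ, ¬ (-(1 / 2) ≤ x.1 ∧ x.1 ≤ 1 / 2 + r ∧ -(1 / 2) ≤ x.2 ∧ x.2 ≤ 1 / 2 + r) → g x = 0

lemma Sp.mono {r r' : ℝ} {g : ℝ × ℝ → ℂ} (h : Sp r g) (hr : r ≤ r') : Sp r' g := by
  intro x hx
  apply h x
  rintro ⟨h1, h2, h3, h4⟩
  exact hx ⟨h1, by linarith, h3, by linarith⟩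

lemma Sp.sq {r : ℝ} {g : ℝ × ℝ → ℂ} (h : Sp r g) (hr : r ≤ 1 / 2) : ∀ x : ℝ × ℝ, x ∉ SQ → g x = 0 := by
  intro x hx
  apply h x
  rintro ⟨h1, h2, h3, h4⟩
  apply hx
  unfold Pool.Agent.Y183.PP.SQ
  exact ⟨⟨by linarith, by linarith⟩, ⟨by linarith, by linarith⟩⟩

lemma Reg.sp {g : ℝ × ℝ → ℂ} {s : ℝ} {K : ℝ≥0} (h : Reg g s K) : Sp 0 g := by
  intro x hx
  by_contra hc
  apply hx
  have h1 : x.1 ^ 2 + x.2 ^ 2 ≤ 1 / 4 := by
    by_contra h2
    exact hc (h.supp x (by linarith))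
  have h2 : |x.1| ≤ 1 / 2 := abs_le_of_sq_le_sq (by nlinarith [sq_nonneg x.2]) (by norm_num)
  have h3 : |x.2| ≤ 1 / 2 := abs_le_of_sq_le_sq (by nlinarith [sq_nonneg x.1]) (by norm_num)
  rw [abs_le] at h2 h3
  exact ⟨h2.1, by linarith [h2.2], h3.1, by linarith [h3.2]⟩

lemma Sp.shift {r δ : ℝ} {g : ℝ × ℝ → ℂ} (h : Sp r g) (c : ℝ × ℝ) (hc1 : 0 ≤ c.1) (hc1' : c.1 ≤ δ)
    (hc2 : 0 ≤ c.2) (hc2' : c.2 ≤ δ) : Sp (r + δ) fun x => g (x - c) := by
  intro x hx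
  apply h
  rintro ⟨h1, h2, h3, h4⟩
  apply hx
  simp only [Prod.fst_sub, Prod.snd_sub] at *
  exact ⟨by linarith, by linarith, by linarith, by linarith⟩

lemma Sp.av {r δ : ℝ} {g : ℝ × ℝ → ℂ} (h : Sp r g) : Sp (r + δ) (av δ g) := by
  intro x hx
  unfold PT.av
  have e : (fun u => bi δ u * g (x - u)) = fun _ => 0 := by
    ext u
    by_cases hu : u ∈ bq δ
    · have h1 := h.shift (δ := δ) u hu.1.1 hu.1.2.le hu.2.1 hu.2.2.le x hx
      simp only at h1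
      rw [h1, mul_zero]
    · unfold bi
      rw [indicator_of_notMem hu, zero_mul]
  rw [e]
  simp

lemma Sp.mn {r δ : ℝ} (hδ : 0 ≤ δ) {g : ℝ × ℝ → ℂ} (h : Sp r g) : Sp (r + δ) (mn δ g) := by
  intro x hx
  unfold PT.mn
  have h0 := h.mono (show r ≤ r + δ by linarith) x hx
  have h1 := h.shift (δ := δ) (δ, 0) hδ le_rfl le_rfl hδ x hx
  have h2 := h.shift (δ := δ) (0, δ) le_rfl hδ hδ le_rfl x hx
  have h3 := h.shift (δ := δ) (δ, δ) hδ le_rfl hδ le_rfl x hx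
  simp only at h1 h2 h3
  rw [h0, h1, h2, h3]
  simp

lemma mn_meas (δ : ℝ) (g : ℝ × ℝ → ℂ) (hg : Measurable g) : Measurable (mn δ g) := by
  unfold mn
  have h : ∀ c : ℝ × ℝ, Measurable fun z : ℝ × ℝ => g (z - c) := fun c =>
    hg.comp (measurable_id.sub measurable_const)
  exact (((hg.add (h _)).add (h _)).add (h _)).const_mul _

lemma mn_int (δ : ℝ) (g : ℝ × ℝ → ℂ) (hg : Integrable g) : Integrable (mn δ g) := by
  unfold mn
  exact (((hg.add (hg.comp_sub_right _)).add (hg.comp_sub_right _)).add (hg.comp_sub_right _)).const_mul _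

lemma int_of (g : ℝ × ℝ → ℂ) (hg : Measurable g) (r : ℝ) (hs : Sp r g) (h2 : eLpNorm g 2 volume ≠ ∞) :
    Integrable g := by
  have hm : MemLp g 2 volume := ⟨hg.aestronglyMeasurable, h2.lt_top⟩
  set S : Set (ℝ × ℝ) := Icc (-(1 / 2)) (1 / 2 + r) ×ˢ Icc (-(1 / 2)) (1 / 2 + r) with hS
  have hSm : MeasurableSet S := measurableSet_Icc.prod measurableSet_Icc
  have hfin : IsFiniteMeasure ((volume : Measure (ℝ × ℝ)).restrict S) := ⟨by
    rw [Measure.restrict_apply_univ, hS, Measure.volume_eq_prod, Measure.prod_prod]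
    simp only [Real.volume_Icc]
    exact ENNReal.mul_lt_top ENNReal.ofReal_lt_top ENNReal.ofReal_lt_top⟩
  have h1 : IntegrableOn g S := (hm.restrict S).integrable (by norm_num)
  rw [integrableOn_iff_integrable_of_support_subset] at h1
  · exact h1
  · intro x hx
    rw [Function.mem_support] at hx
    by_contra hc
    apply hx
    apply hs x
    rintro ⟨a, b, c, d⟩
    exact hc ⟨⟨a, b⟩, ⟨c, d⟩⟩

lemma Reg.int {g : ℝ × ℝ → ℂ} {s : ℝ} {K : ℝ≥0} (h : Reg g s K) : Integrable g :=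
  int_of g h.meas 0 h.sp (h.two.trans_lt ENNReal.coe_lt_top).ne

lemma diff_sub {g : ℝ × ℝ → ℂ} {s : ℝ} {K : ℝ≥0} (h : Reg g s K) (c : ℝ × ℝ) :
    eLpNorm (fun x => g x - g (x - c)) 2 volume ≤ K * ENNReal.ofReal (‖c‖ ^ s) := by
  have h1 := h.diff (-c)
  rw [norm_neg] at h1
  refine le_trans (le_of_eq ?_) h1
  have e : (fun x => g x - g (x - c)) = -(fun x => g (x + -c) - g x) := by
    ext x
    simp only [Pi.neg_apply]
    rw [← sub_eq_add_neg]
    ring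
  rw [e, eLpNorm_neg]

/-- the increments -/
lemma incr {g : ℝ × ℝ → ℂ} {s : ℝ} {K : ℝ≥0} (h : Reg g s K) (hs : 0 ≤ s) (δ : ℝ) (hδ : 0 ≤ δ) :
    eLpNorm (fun x => g x - mn δ g x) 2 volume ≤ K * ENNReal.ofReal (δ ^ s) := by
  have hm : ∀ c : ℝ × ℝ, AEStronglyMeasurable (fun x => g x - g (x - c)) volume := fun c =>
    (h.meas.sub (h.meas.comp (measurable_id.sub measurable_const))).aestronglyMeasurable
  have hb : ∀ c : ℝ × ℝ, ‖c‖ ≤ δ → eLpNorm (fun x => g x - g (x - c)) 2 volume ≤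
      K * ENNReal.ofReal (δ ^ s) := by
    intro c hc
    refine (diff_sub h c).trans ?_
    gcongr
  have n1 : ‖((δ, 0) : ℝ × ℝ)‖ ≤ δ := by
    rw [Prod.norm_def]
    simp [abs_of_nonneg hδ, hδ]
  have n2 : ‖((0, δ) : ℝ × ℝ)‖ ≤ δ := by
    rw [Prod.norm_def]
    simp [abs_of_nonneg hδ, hδ]
  have n3 : ‖((δ, δ) : ℝ × ℝ)‖ ≤ δ := by
    rw [Prod.norm_def]
    simp [abs_of_nonneg hδ]
  have e : (fun x => g x - mn δ g x) = (1 / 4 : ℂ) • ((fun x => g x - g (x - (δ, 0))) +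
      (fun x => g x - g (x - (0, δ))) + fun x => g x - g (x - (δ, δ))) := by
    ext x
    unfold mn
    simp only [Pi.smul_apply, Pi.add_apply, smul_eq_mul]
    ring
  rw [e, eLpNorm_const_smul]
  have h4 : ‖(1 / 4 : ℂ)‖ₑ = 1 / 4 := by
    rw [← ofReal_norm]
    simp only [norm_div, norm_one]
    rw [show ‖(4 : ℂ)‖ = 4 by simp, ENNReal.ofReal_div_of_pos (by norm_num)]
    norm_num
  rw [h4]
  have h5 : eLpNorm ((fun x => g x - g (x - (δ, 0))) + (fun x => g x - g (x - (0, δ))) +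
      fun x => g x - g (x - (δ, δ))) 2 volume ≤ 3 * (K * ENNReal.ofReal (δ ^ s)) := by
    refine (eLpNorm_add_le ((hm _).add (hm _)) (hm _) (by norm_num)).trans ?_
    refine (add_le_add (eLpNorm_add_le (hm _) (hm _) (by norm_num)) le_rfl).trans ?_
    refine (add_le_add (add_le_add (hb _ n1) (hb _ n2)) (hb _ n3)).trans (le_of_eq ?_)
    ring
  calc (1 / 4 : ℝ≥0∞) * _ ≤ (1 / 4 : ℝ≥0∞) * (3 * (K * ENNReal.ofReal (δ ^ s))) := by gcongr
    _ = (3 / 4 : ℝ≥0∞) * (K * ENNReal.ofReal (δ ^ s)) := by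
        rw [← mul_assoc]
        congr 1
        rw [one_div, mul_comm, ← div_eq_mul_inv]
    _ ≤ 1 * (K * ENNReal.ofReal (δ ^ s)) := by
        gcongr
        rw [ENNReal.div_le_iff (by norm_num) (by norm_num), one_mul]
        norm_num
    _ = _ := one_mul _

lemma av_sub (δ : ℝ) (g h : ℝ × ℝ → ℂ) (hg : Integrable g) (hh : Integrable h) (z : ℝ × ℝ) :
    av δ (fun x => g x - h x) z = av δ g z - av δ h z := by
  unfold av
  rw [← mul_sub, ← integral_sub]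
  · congr 2
    ext u
    ring
  · have := bi_mul_int δ g hg z 0
    simpa using this
  · have := bi_mul_int δ h hh z 0
    simpa using this

lemma ext_add (φ : Poly) (g h : ℝ × ℝ → ℂ) (hg : Integrable g) (hh : Integrable h) :
    ext univ (fun x => cexp (I * (ev φ x : ℂ)) * (g x + h x)) =
      ext univ (fun x => cexp (I * (ev φ x : ℂ)) * g x) + ext univ (fun x => cexp (I * (ev φ x : ℂ)) * h x) := by
  have hi : ∀ (f : ℝ × ℝ → ℂ) (ξ : ℝ × ℝ × ℝ), Integrable f → Integrable (fun x : ℝ × ℝ =>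
      cexp (-((x.1 * ξ.1 + x.2 * ξ.2.1 + (x.1 ^ 2 + x.2 ^ 2) * ξ.2.2 : ℝ) : ℂ) * I) *
        (cexp (I * (ev φ x : ℂ)) * f x)) := by
    intro f ξ hf
    have h1 : Integrable fun x : ℝ × ℝ => cexp (I * (ev φ x : ℂ)) * f x := by
      apply hf.bdd_mul (c := 1) (exp_ev_meas φ).aestronglyMeasurable
      refine ae_of_all _ fun x => ?_
      rw [mul_comm I, Complex.norm_exp_ofReal_mul_I]
    apply h1.bdd_mul (c := 1)
    · apply Continuous.aestronglyMeasurable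
      fun_prop
    · refine ae_of_all _ fun x => ?_
      rw [← Complex.ofReal_neg, Complex.norm_exp_ofReal_mul_I]
  ext ξ
  unfold ext
  simp only [Pi.add_apply, setIntegral_univ]
  rw [← integral_add (hi g ξ hg) (hi h ξ hh)]
  congr 1
  ext x
  ring

/-- the pointwise bound -/
lemma ext_sup (φ : Poly) (g h : ℝ × ℝ → ℂ) (hg : Integrable g) (hh : Integrable h) (ξ : ℝ × ℝ × ℝ) :
    ‖ext univ (fun x => cexp (I * (ev φ x : ℂ)) * g x) ξ - ext univ (fun x => cexp (I * (ev φ x : ℂ)) * h x) ξ‖ₑ ≤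
      ∫⁻ x, ‖g x - h x‖ₑ := by
  have hi : ∀ (f : ℝ × ℝ → ℂ) (ξ : ℝ × ℝ × ℝ), Integrable f → Integrable (fun x : ℝ × ℝ =>
      cexp (-((x.1 * ξ.1 + x.2 * ξ.2.1 + (x.1 ^ 2 + x.2 ^ 2) * ξ.2.2 : ℝ) : ℂ) * I) *
        (cexp (I * (ev φ x : ℂ)) * f x)) := by
    intro f ξ hf
    have h1 : Integrable fun x : ℝ × ℝ => cexp (I * (ev φ x : ℂ)) * f x := by
      apply hf.bdd_mul (c := 1) (exp_ev_meas φ).aestronglyMeasurable
      refine ae_of_all _ fun x => ?_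
      rw [mul_comm I, Complex.norm_exp_ofReal_mul_I]
    apply h1.bdd_mul (c := 1)
    · apply Continuous.aestronglyMeasurable
      fun_prop
    · refine ae_of_all _ fun x => ?_
      rw [← Complex.ofReal_neg, Complex.norm_exp_ofReal_mul_I]
  unfold ext
  simp only [setIntegral_univ]
  rw [← integral_sub (hi g ξ hg) (hi h ξ hh)]
  refine (enorm_integral_le_lintegral_enorm _).trans (le_of_eq ?_)
  apply lintegral_congr
  intro x
  rw [← mul_sub, ← mul_sub, enorm_mul, enorm_mul, ← ofReal_norm, ← Complex.ofReal_neg,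
    Complex.norm_exp_ofReal_mul_I, ← ofReal_norm (cexp (I * _)), mul_comm I,
    Complex.norm_exp_ofReal_mul_I]
  simp

end Pool.Agent.Y250.PT
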