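import Pool.Agent.Y250.PT.N
import Pool.Agent.Y250.PT.G
set_option autoImplicit false

/-! Phases with bounded derivatives, amplitudes with some regularity in the mean. -/

namespace Pool.Agent.Y250.PT

open MeasureTheory Set Complex Filter Topology
open scoped ENNReal NNReal
open Pool.Agent.Y183.PP (ch Poly ev ev_Ph ev_cont SQ SQ_meas SQ_vol Ph dv dv_apply ev_fderiv)

/-- the tent -/
noncomputable def tn (v : ℝ) : ℝ := max 0 (1 - |v|)

lemma tn_nonneg (v : ℝ) : 0 ≤ tn v := le_max_left _ _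

lemma tn_le (v : ℝ) : tn v ≤ 1 := by
  unfold tn
  exact max_le (by norm_num) (by linarith [abs_nonneg v])

lemma tn_lip (v w : ℝ) : |tn v - tn w| ≤ |v - w| := by
  unfold tn
  have h1 := abs_max_sub_max_le_abs (0 : ℝ) (1 - |v|) (1 - |w|)
  have h2 : |max 0 (1 - |v|) - max 0 (1 - |w|)| ≤ |(1 - |v|) - (1 - |w|)| := by
    rw [max_comm 0, max_comm 0]
    exact abs_max_sub_max_le_abs _ _ _
  refine h2.trans ?_
  have h3 := abs_abs_sub_abs_le_abs_sub w v
  calc |(1 - |v|) - (1 - |w|)| = |(|w| - |v|)| := by congr 1; ring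
    _ ≤ |w - v| := h3
    _ = |v - w| := abs_sub_comm _ _

lemma tn_cont : Continuous tn := by unfold tn; fun_prop

lemma tn_zero (v : ℝ) (h : 1 ≤ |v|) : tn v = 0 := by
  unfold tn
  exact max_eq_left (by linarith)

lemma tent_sum (N : ℕ) : ∀ v : ℝ, 0 ≤ v → v ≤ N → ∑ a ∈ Finset.range (N + 1), tn (v - a) = 1 := by
  induction N with
  | zero =>
    intro v h0 h1
    have : v = 0 := le_antisymm (by simpa using h1) h0
    subst this
    simp [tn]
  | succ N ih =>
    intro v h0 h1
    rw [Finset.sum_range_succ]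
    push_cast at h1 ⊢
    rcases le_or_gt v N with h | h
    · rw [ih v h0 h, tn_zero, add_zero]
      rw [abs_of_nonpos (by linarith)]
      linarith
    · rw [Finset.sum_range_succ, Finset.sum_eq_zero]
      · unfold tn
        rw [abs_of_nonneg (by linarith : 0 ≤ v - N), abs_of_nonpos (by linarith : v - (N + 1) ≤ 0),
          max_eq_right (by linarith), max_eq_right (by linarith)]
        ring
      · intro a ha
        rw [Finset.mem_range] at ha
        apply tn_zero
        have : (a : ℝ) + 1 ≤ N := by exact_mod_cast ha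
        rw [abs_of_nonneg (by linarith)]
        linarith

/-- the cut-off functions -/
noncomputable def cf (N a b : ℕ) (x : ℝ × ℝ) : ℝ :=
  tn (N * (x.1 + 1 / 2) - a) * tn (N * (x.2 + 1 / 2) - b)

lemma cf_nonneg (N a b : ℕ) (x : ℝ × ℝ) : 0 ≤ cf N a b x := mul_nonneg (tn_nonneg _) (tn_nonneg _)

lemma cf_le (N a b : ℕ) (x : ℝ × ℝ) : cf N a b x ≤ 1 := by
  unfold cf
  calc _ ≤ (1 : ℝ) * 1 := mul_le_mul (tn_le _) (tn_le _) (tn_nonneg _) (by norm_num)
    _ = 1 := one_mul _

lemma cf_cont (N a b : ℕ) : Continuous (cf N a b) := by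
  unfold cf
  have h1 : Continuous fun x : ℝ × ℝ => tn (N * (x.1 + 1 / 2) - a) := tn_cont.comp (by fun_prop)
  have h2 : Continuous fun x : ℝ × ℝ => tn (N * (x.2 + 1 / 2) - b) := tn_cont.comp (by fun_prop)
  exact h1.mul h2

lemma cf_lip (N a b : ℕ) (x y : ℝ × ℝ) : |cf N a b x - cf N a b y| ≤ 2 * N * ‖x - y‖ := by
  have h1 : ‖x - y‖ = max |x.1 - y.1| |x.2 - y.2| := rfl
  have h2 : |x.1 - y.1| ≤ ‖x - y‖ := by rw [h1]; exact le_max_left _ _
  have h3 : |x.2 - y.2| ≤ ‖x - y‖ := by rw [h1]; exact le_max_right _ _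
  have hN : (0 : ℝ) ≤ N := Nat.cast_nonneg N
  have l1 := tn_lip (N * (x.1 + 1 / 2) - a) (N * (y.1 + 1 / 2) - a)
  have l2 := tn_lip (N * (x.2 + 1 / 2) - b) (N * (y.2 + 1 / 2) - b)
  have e1 : (N * (x.1 + 1 / 2) - a) - (N * (y.1 + 1 / 2) - a) = N * (x.1 - y.1) := by ring
  have e2 : (N * (x.2 + 1 / 2) - b) - (N * (y.2 + 1 / 2) - b) = N * (x.2 - y.2) := by ring
  rw [e1, abs_mul, abs_of_nonneg hN] at l1
  rw [e2, abs_mul, abs_of_nonneg hN] at l2
  unfold cf
  set p := tn (N * (x.1 + 1 / 2) - a) with hp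
  set q := tn (N * (x.2 + 1 / 2) - b) with hq
  set p' := tn (N * (y.1 + 1 / 2) - a) with hp'
  set q' := tn (N * (y.2 + 1 / 2) - b) with hq'
  have e : p * q - p' * q' = (p - p') * q + p' * (q - q') := by ring
  have hq1 : |q| ≤ 1 := by rw [abs_of_nonneg (tn_nonneg _)]; exact tn_le _
  have hp1 : |p'| ≤ 1 := by rw [abs_of_nonneg (tn_nonneg _)]; exact tn_le _
  rw [e]
  calc |(p - p') * q + p' * (q - q')| ≤ |(p - p') * q| + |p' * (q - q')| := abs_add_le _ _
    _ ≤ |p - p'| * 1 + 1 * |q - q'| := by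
        rw [abs_mul, abs_mul]
        gcongr
    _ ≤ N * |x.1 - y.1| + N * |x.2 - y.2| := by linarith
    _ ≤ N * ‖x - y‖ + N * ‖x - y‖ := by gcongr
    _ = _ := by ring

/-- the cells -/
def Kc (N a b : ℕ) : Set (ℝ × ℝ) :=
  {x | |N * (x.1 + 1 / 2) - a| ≤ 1 ∧ |N * (x.2 + 1 / 2) - b| ≤ 1} ∩ Dk

lemma Kc_conv (N a b : ℕ) : Convex ℝ (Kc N a b) := by
  apply Convex.inter _ Dk_conv
  have h1 : Convex ℝ {x : ℝ × ℝ | |N * (x.1 + 1 / 2) - a| ≤ 1 ∧ |N * (x.2 + 1 / 2) - b| ≤ 1} := by
    intro x hx y hy s t hs ht hst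
    simp only [mem_ofPred_eq, Prod.fst_add, Prod.smul_fst, Prod.snd_add, Prod.smul_snd,
      smul_eq_mul] at *
    have ht' : t = 1 - s := by linarith
    subst ht'
    have e1 : N * (s * x.1 + (1 - s) * y.1 + 1 / 2) - a =
        s * (N * (x.1 + 1 / 2) - a) + (1 - s) * (N * (y.1 + 1 / 2) - a) := by ring
    have e2 : N * (s * x.2 + (1 - s) * y.2 + 1 / 2) - b =
        s * (N * (x.2 + 1 / 2) - b) + (1 - s) * (N * (y.2 + 1 / 2) - b) := by ring
    rw [e1, e2]
    constructor
    · refine (abs_add_le _ _).trans ?_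
      rw [abs_mul, abs_mul, abs_of_nonneg hs, abs_of_nonneg ht]
      nlinarith [mul_le_mul_of_nonneg_left hx.1 hs, mul_le_mul_of_nonneg_left hy.1 ht]
    · refine (abs_add_le _ _).trans ?_
      rw [abs_mul, abs_mul, abs_of_nonneg hs, abs_of_nonneg ht]
      nlinarith [mul_le_mul_of_nonneg_left hx.2 hs, mul_le_mul_of_nonneg_left hy.2 ht]
  exact h1

lemma cf_out (N a b : ℕ) (x : ℝ × ℝ) (hx : x ∈ Dk) (h : x ∉ Kc N a b) : cf N a b x = 0 := by
  unfold cf
  by_cases h1 : |N * (x.1 + 1 / 2) - a| ≤ 1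
  · have h2 : ¬ |N * (x.2 + 1 / 2) - b| ≤ 1 := fun h2 => h ⟨⟨h1, h2⟩, hx⟩
    rw [tn_zero (N * (x.2 + 1 / 2) - b) (by linarith), mul_zero]
  · rw [tn_zero (N * (x.1 + 1 / 2) - a) (by linarith), zero_mul]

/-- the amplitude on a cell -/
lemma cell_reg (s : ℝ) (hs0 : 0 < s) (hs1 : s ≤ 1) (g : ℝ × ℝ → ℂ) (V : ℝ≥0) (hg : Reg g s V)
    (N a b : ℕ) (hN : 0 < N) (φ : ℝ × ℝ → ℝ) (hφ : Differentiable ℝ φ) (T : Poly)
    (h1 : ∀ x ∈ Kc N a b, |d1 φ x - ev (MvPolynomial.pderiv 0 T) x| ≤ 1)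
    (h2 : ∀ x ∈ Kc N a b, |d2 φ x - ev (MvPolynomial.pderiv 1 T) x| ≤ 1) :
    Reg (fun x => (cf N a b x : ℂ) * cexp (I * ((φ x - ev T x : ℝ) : ℂ)) * g x) s
      ((1 + 2 * (2 * N + 2)) * V) := by
  set R : ℝ × ℝ → ℝ := fun x => φ x - ev T x with hR
  set m : ℝ × ℝ → ℂ := fun x => (cf N a b x : ℂ) * cexp (I * (R x : ℂ)) with hm
  have hN1 : (1 : ℝ) ≤ N := by exact_mod_cast hN
  have hexp : ∀ r : ℝ, ‖cexp (I * (r : ℂ))‖ = 1 := fun r => by
    rw [mul_comm I, Complex.norm_exp_ofReal_mul_I]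
  have hm1 : ∀ x, ‖m x‖ ≤ 1 := by
    intro x
    simp only [hm]
    rw [norm_mul, hexp, mul_one, Complex.norm_real, Real.norm_eq_abs, abs_of_nonneg (cf_nonneg _ _ _ _)]
    exact cf_le _ _ _ _
  have hRlip : ∀ x ∈ Kc N a b, ∀ y ∈ Kc N a b, |R x - R y| ≤ 2 * ‖x - y‖ := by
    intro x hx y hy
    have hder : ∀ z ∈ Kc N a b, HasFDerivWithinAt R (fderiv ℝ φ z - dv T z) (Kc N a b) z := fun z _ =>
      ((hφ z).hasFDerivAt.sub (ev_fderiv T z)).hasFDerivWithinAt
    have hbd : ∀ z ∈ Kc N a b, ‖fderiv ℝ φ z - dv T z‖ ≤ 2 := by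
      intro z hz
      apply ContinuousLinearMap.opNorm_le_bound _ (by norm_num)
      intro w
      have e3 : fderiv ℝ φ z w = w.1 * fderiv ℝ φ z (1, 0) + w.2 * fderiv ℝ φ z (0, 1) := by
        have e2 : w = w.1 • ((1, 0) : ℝ × ℝ) + w.2 • ((0, 1) : ℝ × ℝ) := by
          ext <;> simp
        conv_lhs => rw [e2]
        rw [map_add, map_smul, map_smul, smul_eq_mul, smul_eq_mul]
      have e4 : (fderiv ℝ φ z - dv T z) w = (d1 φ z - ev (MvPolynomial.pderiv 0 T) z) * w.1 +
          (d2 φ z - ev (MvPolynomial.pderiv 1 T) z) * w.2 := by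
        rw [sub_apply, dv_apply, e3, d1_eq φ hφ, d2_eq φ hφ]
        ring
      rw [e4, Real.norm_eq_abs]
      have w1 : |w.1| ≤ ‖w‖ := by
        have : ‖w‖ = max |w.1| |w.2| := rfl
        rw [this]; exact le_max_left _ _
      have w2 : |w.2| ≤ ‖w‖ := by
        have : ‖w‖ = max |w.1| |w.2| := rfl
        rw [this]; exact le_max_right _ _
      refine (abs_add_le _ _).trans ?_
      rw [abs_mul, abs_mul]
      have a1 := h1 z hz
      have a2 := h2 z hz
      calc _ ≤ 1 * ‖w‖ + 1 * ‖w‖ := by gcongr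
        _ = 2 * ‖w‖ := by ring
    have := (Kc_conv N a b).norm_image_sub_le_of_norm_hasFDerivWithin_le hder hbd hy hx
    exact this
  have hexplip : ∀ r r' : ℝ, ‖cexp (I * (r : ℂ)) - cexp (I * (r' : ℂ))‖ ≤ |r - r'| := by
    intro r r'
    have := exp_lip.dist_le_mul r r'
    rw [NNReal.coe_one, one_mul, dist_eq_norm, Real.dist_eq] at this
    exact this
  have hmlip : ∀ x ∈ Dk, ∀ y ∈ Dk, ‖m x - m y‖ ≤ (2 * N + 2) * ‖x - y‖ := by
    intro x hx y hy
    have hn := norm_nonneg (x - y)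
    by_cases hxK : x ∈ Kc N a b
    · by_cases hyK : y ∈ Kc N a b
      · have e : m x - m y = (((cf N a b x - cf N a b y : ℝ) : ℂ)) * cexp (I * (R x : ℂ)) +
            (cf N a b y : ℂ) * (cexp (I * (R x : ℂ)) - cexp (I * (R y : ℂ))) := by
          simp only [hm]
          push_cast
          ring
        rw [e]
        refine (norm_add_le _ _).trans ?_
        rw [norm_mul, norm_mul, hexp, mul_one, Complex.norm_real, Complex.norm_real, Real.norm_eq_abs,
          Real.norm_eq_abs, abs_of_nonneg (cf_nonneg N a b y)]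
        calc |cf N a b x - cf N a b y| + cf N a b y * ‖cexp (I * (R x : ℂ)) - cexp (I * (R y : ℂ))‖
            ≤ 2 * N * ‖x - y‖ + 1 * |R x - R y| := by
              gcongr
              · exact cf_lip _ _ _ _ _
              · exact cf_le _ _ _ _
              · exact hexplip _ _
          _ ≤ 2 * N * ‖x - y‖ + 1 * (2 * ‖x - y‖) := by
              gcongr
              exact hRlip x hxK y hyK
          _ = _ := by ring
      · have e : m y = 0 := by
          simp only [hm]
          rw [cf_out N a b y hy hyK]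
          simp
        rw [e, sub_zero]
        simp only [hm]
        rw [norm_mul, hexp, mul_one, Complex.norm_real, Real.norm_eq_abs]
        have := cf_lip N a b x y
        rw [cf_out N a b y hy hyK, sub_zero] at this
        nlinarith
    · have e : m x = 0 := by
        simp only [hm]
        rw [cf_out N a b x hx hxK]
        simp
      rw [e, zero_sub, norm_neg]
      simp only [hm]
      rw [norm_mul, hexp, mul_one, Complex.norm_real, Real.norm_eq_abs]
      have := cf_lip N a b x y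
      rw [cf_out N a b x hx hxK, zero_sub, abs_neg] at this
      nlinarith
  have hgD : ∀ x, x ∉ Dk → g x = 0 := by
    intro x hx
    apply hg.supp
    simp only [Dk, mem_ofPred_eq, not_le] at hx
    exact hx
  have hmc : Continuous m := by
    have c1 := cf_cont N a b
    have c2 := hφ.continuous
    have c3 := ev_cont T
    simp only [hm, hR]
    fun_prop
  -- the pointwise bound
  have hΛ : (0 : ℝ) < 2 * N + 2 := by linarith
  have hpt : ∀ h x : ℝ × ℝ, ‖m (x + h) * g (x + h) - m x * g x‖ ≤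
      ‖g (x + h) - g x‖ + 2 * (2 * N + 2) * ‖h‖ ^ s * ‖g x‖ := by
    intro h x
    have hnn : 0 ≤ 2 * (2 * N + 2) * ‖h‖ ^ s * ‖g x‖ := by positivity
    by_cases hx : x ∈ Dk
    · by_cases hxh : x + h ∈ Dk
      · have e : m (x + h) * g (x + h) - m x * g x = m (x + h) * (g (x + h) - g x) +
            (m (x + h) - m x) * g x := by ring
        rw [e]
        refine (norm_add_le _ _).trans ?_
        rw [norm_mul (m (x + h)), norm_mul (m (x + h) - m x)]
        have b1 : ‖m (x + h) - m x‖ ≤ 2 * (2 * N + 2) * ‖h‖ ^ s := by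
          have b2 := hmlip (x + h) hxh x hx
          rw [add_sub_cancel_left] at b2
          rcases le_or_gt ‖h‖ 1 with hh | hh
          · calc ‖m (x + h) - m x‖ ≤ (2 * N + 2) * ‖h‖ := b2
              _ ≤ (2 * N + 2) * ‖h‖ ^ s := by
                  gcongr
                  calc ‖h‖ = ‖h‖ ^ (1 : ℝ) := (Real.rpow_one _).symm
                    _ ≤ ‖h‖ ^ s := Real.rpow_le_rpow_of_exponent_ge' (norm_nonneg _) hh hs0.le hs1
              _ ≤ _ := by
                  have : 0 ≤ (2 * (N : ℝ) + 2) * ‖h‖ ^ s := by positivity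
                  linarith
          · have b3 : ‖m (x + h) - m x‖ ≤ 2 := by
              refine (norm_sub_le _ _).trans ?_
              linarith [hm1 (x + h), hm1 x]
            have b4 : (1 : ℝ) ≤ ‖h‖ ^ s := Real.one_le_rpow hh.le hs0.le
            nlinarith
        calc ‖m (x + h)‖ * ‖g (x + h) - g x‖ + ‖m (x + h) - m x‖ * ‖g x‖
            ≤ 1 * ‖g (x + h) - g x‖ + 2 * (2 * N + 2) * ‖h‖ ^ s * ‖g x‖ := by
              gcongr
              exact hm1 _
          _ = _ := by ring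
      · rw [hgD _ hxh, mul_zero, zero_sub, norm_neg, zero_sub, norm_neg, norm_mul]
        calc ‖m x‖ * ‖g x‖ ≤ 1 * ‖g x‖ := by
              gcongr
              exact hm1 _
          _ ≤ _ := by linarith
    · rw [hgD _ hx, mul_zero, sub_zero, sub_zero, norm_mul, norm_zero, mul_zero, add_zero]
      calc ‖m (x + h)‖ * ‖g (x + h)‖ ≤ 1 * ‖g (x + h)‖ := by
            gcongr
            exact hm1 _
        _ = _ := one_mul _
  refine ⟨hmc.measurable.mul hg.meas, ?_, ?_, ?_⟩
  · intro x hx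
    rw [hg.supp x hx, mul_zero]
  · have h3 : eLpNorm (fun x => m x * g x) 2 volume ≤ eLpNorm g 2 volume := by
      apply eLpNorm_mono
      intro x
      rw [norm_mul]
      calc ‖m x‖ * ‖g x‖ ≤ 1 * ‖g x‖ := by
            gcongr
            exact hm1 _
        _ = _ := one_mul _
    refine h3.trans (hg.two.trans ?_)
    rw [ENNReal.coe_le_coe]
    calc V = 1 * V := (one_mul V).symm
      _ ≤ _ := by
          gcongr
          exact le_self_add
  · intro h
    set c : ℝ := 2 * (2 * N + 2) * ‖h‖ ^ s with hc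
    have hc0 : 0 ≤ c := by positivity
    have h3 : eLpNorm (fun x => m (x + h) * g (x + h) - m x * g x) 2 volume ≤
        eLpNorm (fun x => ‖g (x + h) - g x‖ + c * ‖g x‖) 2 volume :=
      eLpNorm_mono_real fun x => hpt h x
    have hm2 : Measurable fun x => g (x + h) := hg.meas.comp (measurable_id.add measurable_const)
    have h4 : eLpNorm (fun x => ‖g (x + h) - g x‖ + c * ‖g x‖) 2 volume ≤
        eLpNorm (fun x => ‖g (x + h) - g x‖) 2 volume + eLpNorm (fun x => c * ‖g x‖) 2 volume :=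
      eLpNorm_add_le (hm2.sub hg.meas).norm.aestronglyMeasurable
        (hg.meas.norm.const_mul c).aestronglyMeasurable (by norm_num)
    have h5 : eLpNorm (fun x => c * ‖g x‖) 2 volume = ENNReal.ofReal c * eLpNorm g 2 volume := by
      have := eLpNorm_const_smul (p := 2) (μ := (volume : Measure (ℝ × ℝ))) c (fun x => ‖g x‖)
      simp only [Pi.smul_def, smul_eq_mul] at this
      rw [this, eLpNorm_norm, ← ofReal_norm, Real.norm_eq_abs, abs_of_nonneg hc0]
    have h6 : eLpNorm (fun x => ‖g (x + h) - g x‖) 2 volume ≤ V * ENNReal.ofReal (‖h‖ ^ s) := by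
      rw [eLpNorm_norm (fun x => g (x + h) - g x)]
      exact hg.diff h
    refine h3.trans (h4.trans ?_)
    rw [h5]
    calc eLpNorm (fun x => ‖g (x + h) - g x‖) 2 volume + ENNReal.ofReal c * eLpNorm g 2 volume
        ≤ V * ENNReal.ofReal (‖h‖ ^ s) + ENNReal.ofReal c * V := by
          gcongr
          exact hg.two
      _ = _ := by
          have e1 : ENNReal.ofReal c = (((2 * (2 * N + 2) : ℝ≥0)) : ℝ≥0∞) * ENNReal.ofReal (‖h‖ ^ s) := by
            rw [hc, ENNReal.ofReal_mul (by positivity)]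
            congr 1
            rw [← ENNReal.ofReal_coe_nnreal]
            push_cast
            rfl
          rw [e1]
          push_cast
          ring

end Pool.Agent.Y250.PT
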